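import Pool.Agent.Q61.AD.Bas

/-!
# The semigroup property of the heat semigroup
-/

set_option autoImplicit false

namespace Pool.Agent.Q61.AD

open MeasureTheory Set Filter Topology ProbabilityTheory

theorem gm_conv {s t : ℝ} (hs : 0 < s) (ht : 0 < t) : gm s ∗ gm t = gm (s + t) := by
  unfold gm
  rw [gaussianReal_conv_gaussianReal, add_zero, ← Real.toNNReal_add (by positivity) (by positivity)]
  ring_nf

theorem int_gm_conv {s t : ℝ} (hs : 0 < s) (ht : 0 < t) {h : ℝ → ℝ} (hm : Measurable h) {M : ℝ}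
    (hb : ∀ x, |h x| ≤ M) : ∫ z, ∫ w, h (z + w) ∂(gm t) ∂(gm s) = ∫ y, h y ∂(gm (s + t)) := by
  rw [← gm_conv hs ht, integral_conv]
  rw [gm_conv hs ht]
  exact int_of_bd hm hb

theorem int_gm2 {s t : ℝ} (hs : 0 < s) (ht : 0 < t) {g : P → ℝ} (hm : Measurable g) {M : ℝ}
    (hb : ∀ x, |g x| ≤ M) :
    ∫ z, ∫ w, g (z + w) ∂((gm t).prod (gm t)) ∂((gm s).prod (gm s)) =
      ∫ y, g y ∂((gm (s + t)).prod (gm (s + t))) := by
  have e1 : ∀ z : P, ∫ w, g (z + w) ∂((gm t).prod (gm t)) =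
      ∫ w1, ∫ w2, g (z.1 + w1, z.2 + w2) ∂(gm t) ∂(gm t) := by
    intro z
    rw [integral_prod]
    · rfl
    · exact int_of_bd (hm.comp (measurable_const.add measurable_id)) fun _ => hb _
  have m4 : Measurable (fun q : (ℝ × ℝ) × (ℝ × ℝ) => g (q.1.1 + q.2.1, q.1.2 + q.2.2)) := by
    fun_prop
  have m3 : Measurable (fun q : (ℝ × ℝ) × ℝ => ∫ w2, g (q.1.1 + q.2, q.1.2 + w2) ∂(gm t)) := by
    have : Measurable (fun r : ((ℝ × ℝ) × ℝ) × ℝ => g (r.1.1.1 + r.1.2, r.1.1.2 + r.2)) := by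
      fun_prop
    exact (this.stronglyMeasurable.integral_prod_right').measurable
  have b3 : ∀ a b c : ℝ, |∫ w2, g (a + c, b + w2) ∂(gm t)| ≤ M := fun a b c =>
    abs_int_le fun _ => hb _
  have m2 : Measurable (fun z : ℝ × ℝ =>
      ∫ w1, ∫ w2, g (z.1 + w1, z.2 + w2) ∂(gm t) ∂(gm t)) :=
    (m3.stronglyMeasurable.integral_prod_right').measurable
  have b2 : ∀ z : ℝ × ℝ, |∫ w1, ∫ w2, g (z.1 + w1, z.2 + w2) ∂(gm t) ∂(gm t)| ≤ M := fun z =>
    abs_int_le fun _ => b3 _ _ _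
  have mG : Measurable (fun a : ℝ => ∫ y2, g (a, y2) ∂(gm (s + t))) :=
    (hm.stronglyMeasurable.integral_prod_right').measurable
  simp_rw [e1]
  rw [integral_prod _ (int_of_bd m2 b2), integral_prod _ (int_of_bd hm hb)]
  simp only
  have e2 : ∀ z1 : ℝ, ∫ z2, ∫ w1, ∫ w2, g (z1 + w1, z2 + w2) ∂(gm t) ∂(gm t) ∂(gm s) =
      ∫ w1, ∫ y2, g (z1 + w1, y2) ∂(gm (s + t)) ∂(gm t) := by
    intro z1
    rw [integral_integral_swap]
    · refine integral_congr_ae (Eventually.of_forall fun w1 => ?_)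
      exact int_gm_conv hs ht (h := fun y => g (z1 + w1, y))
        (hm.comp (measurable_const.prodMk measurable_id)) fun _ => hb _
    · refine int_of_bd (M := M) ?_ fun q => ?_
      · exact m3.comp (((measurable_const).prodMk measurable_fst).prodMk measurable_snd)
      · exact b3 _ _ _
  simp_rw [e2]
  exact int_gm_conv hs ht (h := fun a => ∫ y2, g (a, y2) ∂(gm (s + t))) mG
    fun a => abs_int_le fun _ => hb _

theorem a3 : S_A3 := by
  intro s t M f hs ht hf
  funext x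
  unfold A
  have h := int_gm2 hs ht (g := fun y => f (x + y)) (hf.1.comp (measurable_const.add measurable_id))
    fun _ => hf.2.2 _
  simp only [← add_assoc] at h
  exact h

end Pool.Agent.Q61.AD
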