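import Pool.Agent.Q61.AD.A3

/-!
# Comparison of the heat flow with a Lipschitz function
-/

set_option autoImplicit false

namespace Pool.Agent.Q61.AD

open MeasureTheory Set Filter Topology ProbabilityTheory

theorem int3 {α : Type*} [MeasurableSpace α] {μ : Measure α} {f g h : α → ℝ}
    (hf : Integrable f μ) (hg : Integrable g μ) (hh : Integrable h μ) :
    ∫ x, (f x - g x + h x) ∂μ = ∫ x, f x ∂μ - ∫ x, g x ∂μ + ∫ x, h x ∂μ := by
  rw [← integral_sub hf hg]
  exact integral_add (hf.sub hg) hh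

theorem sq_int_le {α : Type*} [MeasurableSpace α] {μ : Measure α} [IsProbabilityMeasure μ]
    {h : α → ℝ} {M : ℝ} (hm : Measurable h) (hb : ∀ x, |h x| ≤ M) :
    (∫ x, h x ∂μ) ^ 2 ≤ ∫ x, h x ^ 2 ∂μ := by
  have hi := int_of_bd (μ := μ) hm hb
  have hi2 : Integrable (fun x => h x ^ 2) μ := by
    refine int_of_bd (M := M ^ 2) (hm.pow_const 2) fun x => ?_
    rw [abs_pow]
    exact pow_le_pow_left₀ (abs_nonneg _) (hb x) 2
  have h0 : 0 ≤ ∫ x, (h x - ∫ y, h y ∂μ) ^ 2 ∂μ := integral_nonneg fun x => sq_nonneg _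
  have h1 : ∫ x, (h x - ∫ y, h y ∂μ) ^ 2 ∂μ = ∫ x, h x ^ 2 ∂μ - (∫ x, h x ∂μ) ^ 2 := by
    have e : ∀ x, (h x - ∫ y, h y ∂μ) ^ 2 =
        h x ^ 2 - 2 * (∫ y, h y ∂μ) * h x + (∫ y, h y ∂μ) ^ 2 := fun x => by ring
    simp_rw [e]
    rw [int3 hi2 (hi.const_mul _) (integrable_const _), integral_const_mul, integral_const]
    simp
    ring
  linarith

theorem Bd.sq {M : ℝ} {f : P → ℝ} (hf : Bd M f) : Bd (M ^ 2) (fun x => f x ^ 2) := by
  have := hf.mul hf hf.nonneg
  simpa [pow_two] using this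

theorem Bd.sub {M M' : ℝ} {f g : P → ℝ} (hf : Bd M f) (hg : Bd M' g) :
    Bd (M + M') (fun x => f x - g x) := by
  refine ⟨hf.1.sub hg.1, fun x y => ?_, fun x => ?_⟩
  · have h := hf.2.1 x y
    have h' := hg.2.1 x y
    exact ⟨by simp only [h.1, h'.1], by simp only [h.2, h'.2]⟩
  · exact (abs_sub _ _).trans (add_le_add (hf.2.2 x) (hg.2.2 x))

theorem A_contr {s M : ℝ} {g : P → ℝ} (hs : 0 < s) (hg : Bd M g) :
    ∫ x in Q, A s g x ^ 2 ≤ ∫ x in Q, g x ^ 2 := by
  rw [← (a6 s (M ^ 2) (fun x => g x ^ 2) hs hg.sq).1]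
  refine integral_mono (((a1 s M g hs hg).sq).int _) ((a1 s _ _ hs hg.sq).int _) fun x => ?_
  exact sq_int_le (hg.1.comp (measurable_const.add measurable_id)) fun z => hg.2.2 _

theorem A_half {s M : ℝ} {g : P → ℝ} (hs : 0 < s) (hg : Bd M g) :
    A s g = A (s / 2) (A (s / 2) g) := by
  rw [a3 (s / 2) (s / 2) M g (by positivity) (by positivity) hg, add_halves]

theorem A_inner {s M : ℝ} {g : P → ℝ} (hs : 0 < s) (hg : Bd M g) :
    ∫ x in Q, A s g x * g x = ∫ x in Q, A (s / 2) g x ^ 2 := by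
  have h2 : 0 < s / 2 := by positivity
  rw [A_half hs hg, a2 (s / 2) M M _ _ h2 (a1 _ _ _ h2 hg) hg]
  simp only [pow_two]

theorem gm_sq {s : ℝ} (hs : 0 < s) : ∫ z, z ^ 2 ∂(gm s) = 2 * s ∧
    Integrable (fun z : ℝ => z ^ 2) (gm s) := by
  have h1 : MemLp id 2 (gm s) := memLp_id_gaussianReal' 2 (by simp)
  constructor
  · have h2 := variance_id_gaussianReal (μ := 0) (v := Real.toNNReal (2 * s))
    rw [variance_eq_sub (by exact h1)] at h2
    simp only [id_eq, Pi.pow_apply, integral_id_gaussianReal] at h2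
    have h4 : ((Real.toNNReal (2 * s) : NNReal) : ℝ) = 2 * s := Real.coe_toNNReal _ (by positivity)
    have h3 : (∫ x : ℝ, x ^ 2 ∂gaussianReal 0 (2 * s).toNNReal) = ((2 * s).toNNReal : NNReal) := by
      simpa using h2
    rw [h4] at h3
    exact h3
  · simpa using h1.integrable_sq

theorem gm2_sq {s : ℝ} (hs : 0 < s) : ∫ z, (z.1 ^ 2 + z.2 ^ 2) ∂((gm s).prod (gm s)) = 4 * s ∧
    Integrable (fun z : P => z.1 ^ 2 + z.2 ^ 2) ((gm s).prod (gm s)) := by
  obtain ⟨h1, h2⟩ := gm_sq hs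
  have i1 : Integrable (fun z : P => z.1 ^ 2) ((gm s).prod (gm s)) := by
    exact h2.comp_fst (gm s)
  have i2 : Integrable (fun z : P => z.2 ^ 2) ((gm s).prod (gm s)) := by
    exact h2.comp_snd (gm s)
  refine ⟨?_, i1.add i2⟩
  rw [integral_add i1 i2, integral_fun_fst (fun x : ℝ => x ^ 2),
    integral_fun_snd (fun x : ℝ => x ^ 2), h1]
  simp
  ring

theorem A_lip {s M L : ℝ} {F : P → ℝ} (hs : 0 < s) (hF : Bd M F) (hL : Lip L F) :
    (∫ x in Q, F x ^ 2) - ∫ x in Q, A s F x * F x ≤ 2 * s * L ^ 2 := by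
  have hM := hF.nonneg
  have hsh := meas_shift hF.1
  have e1 : ∫ x in Q, A s F x * F x = ∫ z, (∫ x in Q, F (x + z) * F x) ∂((gm s).prod (gm s)) := by
    unfold A
    simp_rw [← integral_mul_const]
    rw [integral_integral_swap]
    refine int_of_bd (M := M * M) ?_ fun q => ?_
    · exact hsh.mul (hF.1.comp measurable_fst)
    · simp only [Function.uncurry]
      rw [abs_mul]
      exact mul_le_mul (hF.2.2 _) (hF.2.2 _) (abs_nonneg _) hM
  have hG : Measurable (fun z : P => ∫ x in Q, F (x + z) * F x) := by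
    have : Measurable (fun q : P × P => F (q.2 + q.1) * F q.2) :=
      (hF.1.comp (measurable_snd.add measurable_fst)).mul (hF.1.comp measurable_snd)
    exact (this.stronglyMeasurable.integral_prod_right').measurable
  have hGb : ∀ z : P, |∫ x in Q, F (x + z) * F x| ≤ M * M := fun z =>
    abs_int_le fun x => by
      rw [abs_mul]
      exact mul_le_mul (hF.2.2 _) (hF.2.2 _) (abs_nonneg _) hM
  have e2 : ∀ z : P, (∫ x in Q, F x ^ 2) - ∫ x in Q, F (x + z) * F x =
      1 / 2 * ∫ x in Q, (F (x + z) - F x) ^ 2 := by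
    intro z
    have e3 : ∀ x, (F (x + z) - F x) ^ 2 = F (x + z) ^ 2 - 2 * (F (x + z) * F x) + F x ^ 2 :=
      fun x => by ring
    have i1 : Integrable (fun x => F (x + z) ^ 2) (volume.restrict Q) := ((hF.shift z).sq).int _
    have i2 : Integrable (fun x => F (x + z) * F x) (volume.restrict Q) :=
      ((hF.shift z).mul hF hM).int _
    have i3 : Integrable (fun x => F x ^ 2) (volume.restrict Q) := (hF.sq).int _
    simp_rw [e3]
    rw [int3 i1 (i2.const_mul 2) i3, integral_const_mul, (hF.sq).int_shift z]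
    ring
  obtain ⟨g1, g2⟩ := gm2_sq hs
  have e4 : (∫ x in Q, F x ^ 2) - ∫ x in Q, A s F x * F x =
      ∫ z, (1 / 2 * ∫ x in Q, (F (x + z) - F x) ^ 2) ∂((gm s).prod (gm s)) := by
    rw [e1]
    have e4' : ∫ z, (1 / 2 * ∫ x in Q, (F (x + z) - F x) ^ 2) ∂((gm s).prod (gm s)) =
        ∫ z, ((∫ x in Q, F x ^ 2) - ∫ x in Q, F (x + z) * F x) ∂((gm s).prod (gm s)) :=
      integral_congr_ae (Eventually.of_forall fun z => (e2 z).symm)
    rw [e4', integral_sub (integrable_const _) (int_of_bd hG hGb), integral_const]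
    simp
  rw [e4]
  have e5 : 2 * s * L ^ 2 = ∫ z, 1 / 2 * L ^ 2 * (z.1 ^ 2 + z.2 ^ 2) ∂((gm s).prod (gm s)) := by
    rw [integral_const_mul, g1]
    ring
  rw [e5]
  refine integral_mono (f := fun z : P => 1 / 2 * ∫ x in Q, (F (x + z) - F x) ^ 2)
    ?_ (g2.const_mul _) fun z => ?_
  · have e6 : (fun z : P => 1 / 2 * ∫ x in Q, (F (x + z) - F x) ^ 2) =
        fun z : P => (∫ x in Q, F x ^ 2) - ∫ x in Q, F (x + z) * F x := by
      funext z
      exact (e2 z).symm
    rw [e6]
    exact (integrable_const _).sub (int_of_bd hG hGb)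
  · have : ∫ x in Q, (F (x + z) - F x) ^ 2 ≤ L ^ 2 * (z.1 ^ 2 + z.2 ^ 2) := by
      calc ∫ x in Q, (F (x + z) - F x) ^ 2 ≤ ∫ x in Q, L ^ 2 * (z.1 ^ 2 + z.2 ^ 2) := by
            refine integral_mono ((((hF.shift z).sub hF).sq).int _) (integrable_const _)
              fun x => hL x z
        _ = _ := by simp
    linarith

theorem a4 : S_A4 := by
  intro s M M' L f F hs hf hF _ hL
  have hAf := a1 s M f hs hf
  have hM := hf.nonneg
  have hM' := hF.nonneg
  have i1 : Integrable (fun x => A s f x ^ 2) (volume.restrict Q) := (hAf.sq).int _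
  have i2 : Integrable (fun x => A s f x * F x) (volume.restrict Q) := (hAf.mul hF hM).int _
  have i3 : Integrable (fun x => F x ^ 2) (volume.restrict Q) := (hF.sq).int _
  have i4 : Integrable (fun x => f x ^ 2) (volume.restrict Q) := (hf.sq).int _
  have i5 : Integrable (fun x => f x * F x) (volume.restrict Q) := (hf.mul hF hM).int _
  have hAF := a1 s M' F hs hF
  have e1 : ∫ x in Q, (A s f x - F x) ^ 2 =
      (∫ x in Q, A s f x ^ 2) - 2 * (∫ x in Q, A s f x * F x) + ∫ x in Q, F x ^ 2 := by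
    have : ∀ x, (A s f x - F x) ^ 2 = A s f x ^ 2 - 2 * (A s f x * F x) + F x ^ 2 :=
      fun x => by ring
    simp_rw [this]
    rw [int3 i1 (i2.const_mul 2) i3, integral_const_mul]
  have e2 : ∫ x in Q, (f x - F x) ^ 2 =
      (∫ x in Q, f x ^ 2) - 2 * (∫ x in Q, f x * F x) + ∫ x in Q, F x ^ 2 := by
    have : ∀ x, (f x - F x) ^ 2 = f x ^ 2 - 2 * (f x * F x) + F x ^ 2 :=
      fun x => by ring
    simp_rw [this]
    rw [int3 i4 (i5.const_mul 2) i3, integral_const_mul]
  have e3 : ∫ x in Q, A s f x ^ 2 ≤ ∫ x in Q, A s f x * f x := by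
    rw [A_inner hs hf, A_half hs hf]
    exact A_contr (by positivity) (a1 _ _ _ (by positivity) hf)
  have e4 : ∫ x in Q, A s (fun y => f y - F y) x * (f x - F x) ≤ ∫ x in Q, (f x - F x) ^ 2 := by
    have hfF := hf.sub hF
    have := A_inner hs hfF
    rw [this]
    exact A_contr (by positivity) hfF
  have e5 : ∀ x, A s (fun y => f y - F y) x = A s f x - A s F x := by
    intro x
    unfold A
    rw [integral_sub]
    · exact int_of_bd (hf.1.comp (measurable_const.add measurable_id)) fun _ => hf.2.2 _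
    · exact int_of_bd (hF.1.comp (measurable_const.add measurable_id)) fun _ => hF.2.2 _
  have j1 : Integrable (fun x => A s f x * f x) (volume.restrict Q) := (hAf.mul hf hM).int _
  have j2 : Integrable (fun x => A s F x * f x) (volume.restrict Q) := (hAF.mul hf hM').int _
  have j3 : Integrable (fun x => A s F x * F x) (volume.restrict Q) := (hAF.mul hF hM').int _
  have e6 : ∫ x in Q, A s (fun y => f y - F y) x * (f x - F x) =
      (∫ x in Q, A s f x * f x) - (∫ x in Q, A s f x * F x) - (∫ x in Q, A s F x * f x) +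
        ∫ x in Q, A s F x * F x := by
    have : ∀ x, A s (fun y => f y - F y) x * (f x - F x) =
        A s f x * f x - A s f x * F x - A s F x * f x + A s F x * F x := fun x => by
      rw [e5]
      ring
    simp_rw [this]
    rw [int3 (j1.sub' i2) j2 j3, integral_sub j1 i2]
  have e7 : ∫ x in Q, A s F x * f x = ∫ x in Q, A s f x * F x := by
    rw [a2 s M' M F f hs hF hf]
    refine integral_congr_ae (Eventually.of_forall fun x => ?_)
    simp only
    ring
  have e8 := A_lip hs hF hL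
  rw [e6, e7, e2] at e4
  rw [e1, e2]
  linarith

end Pool.Agent.Q61.AD
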