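import Pool.Agent.Q61.AD.A4

/-!
# The heat flow of functions with a small period and mean zero
-/

set_option autoImplicit false

namespace Pool.Agent.Q61.AD

open MeasureTheory Set Filter Topology ProbabilityTheory

/-- The cell. -/
def Ip (p : ℝ) : Set ℝ := Ioc (-p / 2) (p / 2)

/-- The part of the Gaussian measure which is used. -/
noncomputable def rh (p : ℝ) : Measure ℝ := ENNReal.ofReal (5 / 12 / p) • volume.restrict (Ip p)

theorem num_le : (5 / 12 : ℝ) ^ 2 * (Real.pi / 2) * Real.exp 1 ≤ 1 := by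
  have h1 := Real.exp_one_lt_d9
  have h2 := Real.pi_lt_d2
  have h3 := Real.pi_pos
  have h4 := Real.exp_pos 1
  nlinarith [mul_lt_mul'' h2 h1 h3.le h4.le]

theorem rh_le {p : ℝ} (hp : 0 < p) : rh p ≤ gm (p ^ 2 / 8) := by
  have hv : Real.toNNReal (2 * (p ^ 2 / 8)) ≠ 0 := by
    have : 0 < 2 * (p ^ 2 / 8) := by positivity
    simpa using this
  have hvc : ((Real.toNNReal (2 * (p ^ 2 / 8)) : NNReal) : ℝ) = p ^ 2 / 4 := by
    rw [Real.coe_toNNReal _ (by positivity)]
    ring
  unfold gm rh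
  rw [gaussianReal_of_var_ne_zero 0 hv]
  have e1 : ENNReal.ofReal (5 / 12 / p) • volume.restrict (Ip p) =
      volume.withDensity ((Ip p).indicator fun _ => ENNReal.ofReal (5 / 12 / p)) := by
    rw [withDensity_indicator (show MeasurableSet (Ip p) from measurableSet_Ioc), withDensity_const]
  rw [e1]
  refine withDensity_mono (Eventually.of_forall fun z => ?_)
  by_cases hz : z ∈ Ip p
  · rw [indicator_of_mem hz, gaussianPDF]
    refine ENNReal.ofReal_le_ofReal ?_
    rw [gaussianPDFReal, hvc, sub_zero]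
    have hz2 : z ^ 2 ≤ p ^ 2 / 4 := by
      have h1 := hz.1
      have h2 := hz.2
      nlinarith
    have h1 : Real.exp (-(1 / 2)) ≤ Real.exp (-z ^ 2 / (2 * (p ^ 2 / 4))) := by
      refine Real.exp_le_exp.2 ?_
      rw [le_div_iff₀ (by positivity)]
      nlinarith
    have h2 : √(2 * Real.pi * (p ^ 2 / 4)) = p * √(Real.pi / 2) := by
      rw [show 2 * Real.pi * (p ^ 2 / 4) = p ^ 2 * (Real.pi / 2) by ring,
        Real.sqrt_mul (by positivity), Real.sqrt_sq hp.le]
    rw [h2]
    have h3 : (5 / 12 : ℝ) * √(Real.pi / 2) ≤ Real.exp (-(1 / 2)) := by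
      have h4 : ((5 / 12 : ℝ) * √(Real.pi / 2)) ^ 2 ≤ (Real.exp (-(1 / 2))) ^ 2 := by
        rw [mul_pow, Real.sq_sqrt (by positivity), ← Real.exp_nat_mul]
        have h5 : ((2 : ℕ) : ℝ) * -(1 / 2) = -1 := by norm_num
        rw [h5, Real.exp_neg, ← one_div, le_div_iff₀ (Real.exp_pos _)]
        exact num_le
      exact le_of_sq_le_sq h4 (Real.exp_pos _).le
    have h6 : 0 < √(Real.pi / 2) := Real.sqrt_pos.2 (by positivity)
    calc 5 / 12 / p = (p * √(Real.pi / 2))⁻¹ * ((5 / 12 : ℝ) * √(Real.pi / 2)) := by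
          field_simp
      _ ≤ (p * √(Real.pi / 2))⁻¹ * Real.exp (-z ^ 2 / (2 * (p ^ 2 / 4))) := by
          refine mul_le_mul_of_nonneg_left (h3.trans h1) (by positivity)
  · rw [indicator_of_notMem hz]
    exact bot_le

instance (p : ℝ) : IsFiniteMeasure (volume.restrict (Ip p)) := by
  unfold Ip
  infer_instance

instance (p : ℝ) : IsFiniteMeasure (rh p) := by
  unfold rh
  exact Measure.smul_finite _ ENNReal.ofReal_ne_top

theorem rh_univ {p : ℝ} (hp : 0 < p) : (rh p).real univ = 5 / 12 := by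
  unfold rh Ip
  rw [measureReal_def, Measure.smul_apply, Measure.restrict_apply_univ, Real.volume_Ioc]
  rw [smul_eq_mul, ← ENNReal.ofReal_mul (by positivity), ENNReal.toReal_ofReal]
  · field_simp
    ring
  · have : p / 2 - -p / 2 = p := by ring
    rw [this]
    positivity

/-- Integral over a cell. -/
theorem cell_int {n : ℕ} (hn : 0 < n) {M : ℝ} {h : P → ℝ} (hh : Bd M h) (hp : PerN n h) :
    ∫ x in Q, h x = (n : ℝ) ^ 2 * ∫ y in Ip (1 / n), ∫ x in Ip (1 / n), h (x, y) := by
  have hn' : (0 : ℝ) < n := by exact_mod_cast hn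
  have key : ∀ (g : ℝ → ℝ), Measurable g → (∃ B, ∀ x, |g x| ≤ B) →
      Function.Periodic g (1 / (n : ℝ)) →
      ∫ x in Ico (0:ℝ) 1, g x = n * ∫ x in Ip (1 / n), g x := by
    intro g hg hgb hgp
    obtain ⟨B, hB⟩ := hgb
    have hint : ∀ t₁ t₂ : ℝ, IntervalIntegrable g volume t₁ t₂ := fun t₁ t₂ =>
      ⟨int_of_bd hg hB, int_of_bd hg hB⟩
    have h1 := hgp.intervalIntegral_add_zsmul_eq n 0 hint
    have e1 : (0 : ℝ) + (n : ℤ) • (1 / (n : ℝ)) = 1 := by
      simp
      field_simp
    rw [e1] at h1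
    have h2 := hgp.intervalIntegral_add_eq 0 (-(1 / (n : ℝ)) / 2)
    rw [h2] at h1
    have e2 : -(1 / (n : ℝ)) / 2 + 1 / n = 1 / n / 2 := by ring
    rw [e2] at h1
    rw [integral_Ico_eq_integral_Ioc, ← intervalIntegral.integral_of_le zero_le_one, h1,
      intervalIntegral.integral_of_le (by
        have : (0:ℝ) < 1 / n := by positivity
        linarith)]
    simp [Ip]
  rw [vol_Q, integral_prod_symm _ (by
    rw [← vol_Q]
    exact hh.int _)]
  have e1 : ∀ y : ℝ, ∫ x in Ico (0:ℝ) 1, h (x, y) = n * ∫ x in Ip (1 / n), h (x, y) := by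
    intro y
    refine key (fun x => h (x, y)) (hh.1.comp (measurable_id.prodMk measurable_const))
      ⟨M, fun x => hh.2.2 _⟩ fun x => ?_
    exact (hp x y).1
  simp_rw [e1]
  have m1 : Measurable (fun y : ℝ => ∫ x in Ip (1 / n), h (x, y)) := by
    have : Measurable (fun q : ℝ × ℝ => h (q.2, q.1)) := hh.1.comp measurable_swap
    exact (this.stronglyMeasurable.integral_prod_right').measurable
  have b1 : ∀ y : ℝ, |∫ x in Ip (1 / n), h (x, y)| ≤ M * (volume.restrict (Ip (1 / n))).real univ := by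
    intro y
    exact norm_integral_le_of_norm_le_const (μ := volume.restrict (Ip (1 / (n : ℝ))))
      (f := fun x => h (x, y)) (C := M) (Eventually.of_forall fun x => hh.2.2 (x, y))
  have e2 := key (fun y => n * ∫ x in Ip (1 / n), h (x, y)) (m1.const_mul _)
    ⟨n * (M * (volume.restrict (Ip (1 / n))).real univ), fun y => by
      rw [abs_mul, abs_of_pos hn']
      exact mul_le_mul_of_nonneg_left (b1 y) hn'.le⟩ (fun y => by
      simp only
      congr 1
      refine integral_congr_ae (Eventually.of_forall fun x => ?_)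
      exact (hp x y).2)
  rw [e2, integral_const_mul]
  ring

/-- One step. -/
theorem one_step {n : ℕ} (hn : 0 < n) {M : ℝ} {f : P → ℝ} (hf : Bd M f) (hp : PerN n f)
    (h0 : ∫ x in Q, f x = 0) (x : P) :
    |A ((1 / (n : ℝ)) ^ 2 / 8) f x| ≤ 5 / 6 * M := by
  have hn' : (0 : ℝ) < n := by exact_mod_cast hn
  have hpp : (0 : ℝ) < 1 / n := by positivity
  have hM := hf.nonneg
  set p : ℝ := 1 / n with hpdef
  set r : ℝ := p ^ 2 / 8 with hr
  have hle := rh_le hpp
  set σ : Measure ℝ := gm r - rh p with hσ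
  have hadd : σ + rh p = gm r := Measure.sub_add_cancel_of_le hle
  have : IsFiniteMeasure σ := by
    refine ⟨lt_of_le_of_lt ?_ (measure_lt_top (gm r) univ)⟩
    rw [← hadd]
    simp
  have hσu : σ.real univ = 7 / 12 := by
    have h1 : (gm r).real univ = σ.real univ + (rh p).real univ := by
      rw [← hadd, measureReal_add_apply]
    rw [rh_univ hpp] at h1
    simp at h1
    linarith
  have hg : Bd M (fun z => f (z + x)) := hf.shift x
  have hgp : PerN n (fun z => f (z + x)) := by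
    intro a b
    have h := hp (a + x.1) (b + x.2)
    constructor
    · have h1 := h.1
      rw [show a + x.1 + 1 / (n : ℝ) = a + 1 / n + x.1 by ring] at h1
      exact h1
    · have h1 := h.2
      rw [show b + x.2 + 1 / (n : ℝ) = b + 1 / n + x.2 by ring] at h1
      exact h1
  have hcell : ∫ b in Ip p, ∫ a in Ip p, f ((a, b) + x) = 0 := by
    have h1 := cell_int hn hg hgp
    rw [hf.int_shift x, h0] at h1
    have h2 : (n : ℝ) ^ 2 ≠ 0 := by positivity
    have h3 := h1.symm
    rw [mul_eq_zero] at h3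
    exact h3.resolve_left h2
  have e1 : (gm r).prod (gm r) = σ.prod (gm r) + ((rh p).prod σ + (rh p).prod (rh p)) := by
    conv_lhs => rw [← hadd]
    rw [Measure.add_prod, Measure.prod_add, Measure.prod_add, hadd.symm, Measure.prod_add]
  have e2 : A r f x = ∫ z, f (z + x) ∂((gm r).prod (gm r)) := by
    unfold A
    refine integral_congr_ae (Eventually.of_forall fun z => ?_)
    simp only [add_comm]
  have i1 : Integrable (fun z => f (z + x)) (σ.prod (gm r)) := hg.int _
  have i2 : Integrable (fun z => f (z + x)) ((rh p).prod σ) := hg.int _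
  have i3 : Integrable (fun z => f (z + x)) ((rh p).prod (rh p)) := hg.int _
  have e3 : ∫ z, f (z + x) ∂((rh p).prod (rh p)) = 0 := by
    rw [integral_prod_symm _ i3]
    unfold rh
    rw [integral_smul_measure]
    simp_rw [integral_smul_measure]
    rw [integral_smul, hcell]
    simp
  rw [e2, e1, integral_add_measure i1 (i2.add_measure i3), integral_add_measure i2 i3, e3, add_zero]
  have b1 : |∫ z, f (z + x) ∂(σ.prod (gm r))| ≤ M * (7 / 12) := by
    have h := norm_integral_le_of_norm_le_const (μ := σ.prod (gm r)) (f := fun z => f (z + x))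
      (C := M) (Eventually.of_forall fun z => hf.2.2 (z + x))
    have h2 : (σ.prod (gm r)).real univ = 7 / 12 := by
      rw [← univ_prod_univ, measureReal_prod_prod, hσu]
      simp
    rw [h2] at h
    exact h
  have b2 : |∫ z, f (z + x) ∂((rh p).prod σ)| ≤ M * (5 / 12 * (7 / 12)) := by
    have h := norm_integral_le_of_norm_le_const (μ := (rh p).prod σ) (f := fun z => f (z + x))
      (C := M) (Eventually.of_forall fun z => hf.2.2 (z + x))
    have h2 : ((rh p).prod σ).real univ = 5 / 12 * (7 / 12) := by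
      rw [← univ_prod_univ, measureReal_prod_prod, hσu, rh_univ hpp]
    rw [h2] at h
    exact h
  refine (abs_add_le _ _).trans ((add_le_add b1 b2).trans ?_)
  nlinarith

theorem steps {n : ℕ} (hn : 0 < n) {M : ℝ} {f : P → ℝ} (hf : Bd M f) (hp : PerN n f)
    (h0 : ∫ x in Q, f x = 0) (k : ℕ) :
    Bd ((5 / 6) ^ (k + 1) * M) (A (((k + 1 : ℕ) : ℝ) * ((1 / (n : ℝ)) ^ 2 / 8)) f) ∧
      PerN n (A (((k + 1 : ℕ) : ℝ) * ((1 / (n : ℝ)) ^ 2 / 8)) f) ∧
      ∫ x in Q, A (((k + 1 : ℕ) : ℝ) * ((1 / (n : ℝ)) ^ 2 / 8)) f x = 0 := by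
  have hn' : (0 : ℝ) < n := by exact_mod_cast hn
  set r : ℝ := (1 / (n : ℝ)) ^ 2 / 8 with hr
  have hr0 : 0 < r := by positivity
  have h6 : ∀ (N : ℝ) (g : P → ℝ), Bd N g → PerN n g → ∫ x in Q, g x = 0 →
      Bd (5 / 6 * N) (A r g) ∧ PerN n (A r g) ∧ ∫ x in Q, A r g x = 0 := by
    intro N g hg hgp hg0
    have h1 := a1 r N g hr0 hg
    have h2 := a6 r N g hr0 hg
    exact ⟨⟨h1.1, h1.2.1, one_step hn hg hgp hg0⟩, h2.2 n hn hgp, h2.1.trans hg0⟩
  induction k with
  | zero =>
    simp only [zero_add, pow_one, Nat.cast_one, one_mul]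
    exact h6 M f hf hp h0
  | succ k ih =>
    have e : A (((k + 1 + 1 : ℕ) : ℝ) * r) f = A r (A (((k + 1 : ℕ) : ℝ) * r) f) := by
      rw [a3 r _ M f hr0 (by positivity) hf]
      congr 1
      push_cast
      ring
    rw [e]
    have := h6 _ _ ih.1 ih.2.1 ih.2.2
    rw [pow_succ' _ (k + 1), mul_assoc]
    exact this

theorem a5 : S_A5 := by
  intro n s M f hn hs hf hp h0 x
  have hn' : (0 : ℝ) < n := by exact_mod_cast hn
  have hM := hf.nonneg
  have h1 := (steps hn hf hp h0 15).1
  have e1 : ((15 + 1 : ℕ) : ℝ) * ((1 / (n : ℝ)) ^ 2 / 8) = 2 / (n : ℝ) ^ 2 := by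
    push_cast
    field_simp
    norm_num
  rw [e1] at h1
  have h2 : (5 / 6 : ℝ) ^ (15 + 1) * M ≤ M / 8 := by
    have : (5 / 6 : ℝ) ^ (15 + 1) ≤ 1 / 8 := by norm_num
    nlinarith
  rcases hs.eq_or_lt with h | h
  · rw [← h]
    exact (h1.2.2 x).trans h2
  · have h3 : A s f = A (s - 2 / (n : ℝ) ^ 2) (A (2 / (n : ℝ) ^ 2) f) := by
      rw [a3 _ _ M f (by linarith) (by positivity) hf, sub_add_cancel]
    rw [h3]
    exact ((a1 _ _ _ (by linarith) h1).2.2 x).trans h2

end Pool.Agent.Q61.AD
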