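import Pool.Agent.Q61.AD.BLK

/-!
# Approximate solutions
-/

set_option autoImplicit false

namespace Pool.Agent.Q61.AD

open MeasureTheory Set Filter Topology ProbabilityTheory

theorem st_anti {R : ℝ} (hR : 4 ≤ R) {k l : ℕ} (h : k ≤ l) : st R l ≤ st R k := by
  unfold st
  exact div_le_div_of_nonneg_left (by linarith) (by positivity)
    (pow_le_pow_right₀ (by norm_num) h)

theorem app_aux (hb : S_BLK) (hf : S_FRZ) (hm : S_MON) (hc : S_CONC) (h0 : S_B0) (h2 : S_B2)
    (R : ℝ) (K : ℕ) (hR : 4 ≤ R) (hK : 1 ≤ K) (i : ℕ) (hi : i ≤ K) :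
    ∃ (u : ℝ → P → ℝ) (U : P → ℝ), Bd (1 / 7) U ∧ (∫ x in Q, U x = 0) ∧ PerN (2 ^ (K - i)) U ∧
      Ev R (8 / 7) (fb R) 0 (st R (K - i)) (fun _ => 0) U u
        (4 / 2 ^ K * (1 / 2 ^ (K - i) - 1 / 2 ^ K)) ∧
      ∀ k : ℕ, K - i < k → k ≤ K →
        ∀ t ∈ Ico (st R k + sgk k 1) (st R k + sgk k 1 + 1 / (10 ^ 9 * 4 ^ k)),
          ∫ x in Q, (u t x - chk k x) ^ 2 ≤ (41 / 100) ^ 2 := by
  have hfld := (h2 R hR).1
  induction i with
  | zero =>
    have hst : 0 < st R K := (st_sgk_le h0 hR hK 0).1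
    have hz : Bd 0 (fun _ : P => (0 : ℝ)) := ⟨measurable_const, fun _ _ => ⟨rfl, rfl⟩, by simp⟩
    have E1 := hf R 0 0 (st R K) (fb R) (bt R) _ hfld le_rfl hst.le (st_le hR K) hz
    refine ⟨fun _ _ => 0, fun _ => 0, hz.mono (by norm_num), by simp, fun _ _ => ⟨rfl, rfl⟩, ?_, ?_⟩
    · simp only [Nat.sub_zero, sub_self, mul_zero]
      exact hm R 0 (8 / 7) 0 (st R K) _ 0 (fb R) _ _ _ (by linarith) (by norm_num)
        (by simp) E1
    · intro k hk1 hk2
      omega
  | succ i ih =>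
    obtain ⟨u, U, hU, hU0, hUp, E, W⟩ := ih (by omega)
    set k : ℕ := K - i with hk
    have hk1 : 1 ≤ k := by omega
    have hkK : k ≤ K := by omega
    have e1 : K - (i + 1) = k - 1 := by omega
    rw [e1]
    obtain ⟨u', U', hU', hU'0, hU'p, E', W'⟩ := hb R k K U hR hk1 hK hU hU0 hUp
    have hst : 0 < st R k := (st_sgk_le h0 hR hk1 0).1
    have E2 := hc R (8 / 7) 0 (st R k) (st R (k - 1)) _ _ (fb R) (bt R) _ U U' u u' hfld le_rfl
      hst.le (st_anti hR (by omega)) (st_le hR _) E E'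
    refine ⟨_, U', hU', hU'0, hU'p, E2.mono_err le_rfl (by linarith) ?_, ?_⟩
    · have e2 : (1 : ℝ) / 2 ^ (k - 1) = 2 * (1 / 2 ^ k) := by
        obtain ⟨l, hl⟩ : ∃ l, k = l + 1 := ⟨k - 1, by omega⟩
        rw [hl]
        simp only [Nat.add_sub_cancel]
        rw [pow_succ]
        field_simp
      have e3 : (4 : ℝ) / 2 ^ (k + K) = 4 / 2 ^ K * (1 / 2 ^ k) := by
        rw [pow_add]
        field_simp
      rw [e2, e3]
      apply le_of_eq
      ring
    · intro k' hk'1 hk'2 t ht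
      rcases Nat.lt_or_ge k k' with h | h
      · have h3 := st_sgk_le h0 hR (show 1 ≤ k' by omega) 0
        simp only [zero_add] at h3
        have h4 : (1 : ℝ) / (10 ^ 9 * 4 ^ k') ≤ 8 / 4 ^ k' := by
          rw [div_le_div_iff₀ (by positivity) (by positivity)]
          have : (0 : ℝ) < 4 ^ k' := by positivity
          nlinarith
        have h5 : st R (k' - 1) ≤ st R k := st_anti hR (by omega)
        have h6 : t < st R k := by linarith [ht.2]
        simp only [if_pos h6]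
        exact W k' h hk'2 t ht
      · have hkk : k' = k := by omega
        rw [hkk] at ht ⊢
        have h3 : ¬ t < st R k := by
          have h7 := (h0.2.1 k 1).1
          have h8 := ht.1
          push Not
          linarith
        simp only [if_neg h3]
        exact W' t ht

theorem app (hb : S_BLK) (hf : S_FRZ) (hm : S_MON) (hc : S_CONC) (h0 : S_B0) (h2 : S_B2) :
    S_APP := by
  intro R K hR hK
  obtain ⟨u, U, -, -, -, E, W⟩ := app_aux hb hf hm hc h0 h2 R K hR hK K le_rfl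
  simp only [Nat.sub_self, st_zero, pow_zero, div_one] at E
  refine ⟨u, U, E.mono_err le_rfl (by linarith) ?_, fun k hk1 hk2 => W k (by omega) hk2⟩
  have h1 : (0 : ℝ) < 1 / 2 ^ K := by positivity
  have h3 : (0 : ℝ) < 4 / 2 ^ K := by positivity
  nlinarith

end Pool.Agent.Q61.AD
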