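import Pool.Agent.Q61.AD.CAS
import Pool.Agent.Q61.AD.A5

/-!
# One block
-/

set_option autoImplicit false

namespace Pool.Agent.Q61.AD

open MeasureTheory Set Filter Topology ProbabilityTheory

theorem perN_half {k : ℕ} {f : P → ℝ} (hk : 1 ≤ k) (hf : PerN (2 ^ k) f) :
    PerN (2 ^ (k - 1)) f := by
  obtain ⟨k, rfl⟩ : ∃ l, k = l + 1 := ⟨k - 1, by omega⟩
  simp only [Nat.add_sub_cancel]
  have e : (1 : ℝ) / ((2 ^ k : ℕ) : ℝ) = 1 / ((2 ^ (k + 1) : ℕ) : ℝ) + 1 / ((2 ^ (k + 1) : ℕ) : ℝ) := by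
    push_cast
    rw [pow_succ]
    field_simp
    norm_num
  intro x y
  constructor
  · rw [e, ← add_assoc, (hf _ _).1, (hf _ _).1]
  · rw [e, ← add_assoc, (hf _ _).2, (hf _ _).2]

theorem blk (hcas : S_CAS) (hf : S_FRZ) (hm : S_MON) (hc : S_CONC) (hj : S_JMP) (ht : S_HT)
    (hp1 : S_P1) (hp3 : S_P3) (hp4 : S_P4) (h0 : S_B0)
    (h1 : S_B1) (h2 : S_B2) : S_BLK := by
  intro R k K U hR hk hK hU hU0 hUp
  have hb := (h2 R hR).1
  have h2p : (0 : ℝ) < 2 ^ (k + K) := by positivity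
  obtain ⟨st0, st1⟩ := st_sgk_le h0 hR hk 0
  simp only [zero_add] at st1
  have hst1 := st_le hR (k - 1)
  obtain ⟨sK0, -, sK1, -⟩ := h0.2.1 k (K + 1)
  have sKle := sgk_le h0 k K
  have s10 := (h0.2.1 k 1).1
  have h84 : (0 : ℝ) < 8 / 4 ^ k := by positivity
  set c1 : ℝ := st R k + sgk k (K + 1) with hc1
  set a4 : ℝ := st R k + sgk k 1 with ha4
  set τ : ℝ := st R (k - 1) - a4 with hτ
  have hτ8 : 8 / 4 ^ k ≤ τ := by linarith
  -- (1) frozen
  have E1 := hf R (1 / 7) (st R k) c1 (fb R) (bt R) U hb st0.le (by linarith) (by linarith) hU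
  have err1 : (1 / 7 : ℝ) * (4 * (c1 - st R k) + 2 * ∫ t in (st R k)..c1, bt R t) ≤
      (9 / 7) * (1 / 2 ^ (k + K)) := by
    have hB := (h2 R hR).2.2.2 k K hk
    have e1 : c1 - st R k = sgk k (K + 1) := by rw [hc1]; ring
    rw [e1]
    have e2 : (1 : ℝ) / 4 ^ (k + (K + 1)) ≤ 1 / 4 * (1 / 2 ^ (k + K)) := by
      have e3 : (1 : ℝ) / 4 ^ (k + (K + 1)) = 1 / 4 * (1 / 4 ^ (k + K)) := by
        rw [← add_assoc, pow_succ]
        field_simp
      rw [e3]
      have e4 : (1 : ℝ) / 4 ^ (k + K) ≤ 1 / 2 ^ (k + K) := by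
        apply one_div_le_one_div_of_le (by positivity)
        exact pow_le_pow_left₀ (by norm_num) (by norm_num) _
      linarith
    have e5 : (4 : ℝ) / 2 ^ (k + K) = 4 * (1 / 2 ^ (k + K)) := by ring
    rw [e5] at hB
    linarith
  have E1' := hm R (1 / 7) (8 / 7) (st R k) c1 _ _ (fb R) U U _ (by linarith) (by norm_num) err1 E1
  -- (2) the jump
  obtain ⟨bF, bck, -, ick, -⟩ := hp3 k (1 / 1000) hk (by norm_num) (by norm_num)
  obtain ⟨-, bcK, -, icK, pcK⟩ := hp3 (k + K) (1 / 1000) (by omega) (by norm_num) (by norm_num)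
  have hUM : Bd (8 / 7) U := hU.mono (by norm_num)
  have hfM : Bd (8 / 7) (fun x => U x + chk (k + K) x) := by
    refine ⟨hU.1.add bcK.1, fun x y => ?_, fun x => ?_⟩
    · exact ⟨by simp only [(hU.2.1 x y).1, (bcK.2.1 x y).1],
        by simp only [(hU.2.1 x y).2, (bcK.2.1 x y).2]⟩
    · have := (abs_add_le _ _).trans (add_le_add (hU.2.2 x) (bcK.2.2 x))
      linarith
  have E2 := hj (k + K) R (8 / 7) c1 (fb R) U (fun _ => U) (by omega) (by linarith) (by linarith)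
    (hU.1.comp measurable_snd) (fun _ => hUM) hUM hfM
  -- (3) the cascade
  have hf3 : ∫ x in Q, ((U x + chk (k + K) x) - chk (k + K) x) ^ 2 ≤ (1 / 7) ^ 2 := by
    simp only [add_sub_cancel_right]
    have : ∫ x in Q, U x ^ 2 ≤ ∫ x in Q, (1 / 7 : ℝ) ^ 2 := by
      refine integral_mono (hU.sq.int _) (integrable_const _) fun x => ?_
      have h3 := hU.2.2 x
      rw [← sq_abs]
      exact pow_le_pow_left₀ (abs_nonneg _) h3 2
    simpa using this
  obtain ⟨u3, g, E3, I3, N3, C3⟩ := hcas R (1 / 4 * (1 / 2 ^ (k + K))) k K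
    (fun x => U x + chk (k + K) x) hR hk (by positivity) hfM hf3
  have hgM : Bd (8 / 7) g := E3.2.2.2.1
  have hg0 : ∫ x in Q, g x = 0 := by
    rw [I3, integral_add (hU.int _) (bcK.int _), hU0, icK, add_zero]
  have hgp : PerN (2 ^ (k - 1)) g := by
    apply N3
    have q1 := perN_half hk hUp
    have q2 := pcK (k - 1) (by omega)
    intro x y
    exact ⟨by simp only [(q1 x y).1, (q2 x y).1], by simp only [(q1 x y).2, (q2 x y).2]⟩
  -- (4) the heat flow
  have hτ0 : 0 < τ := by linarith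
  have e4 : a4 + τ = st R (k - 1) := by rw [hτ]; ring
  obtain ⟨u4, E4, W4⟩ := ht R (8 / 7) a4 τ (1 / 4 * (1 / 2 ^ (k + K))) (fb R) g (by linarith) hτ0
    (by rw [e4]; exact hst1) (by
      rw [e4]
      exact fun t ht x => (((h1 R hR).2.1 k hk t ht).1 x)) (by norm_num) hgM (by positivity)
  rw [e4] at E4
  have hn : 0 < 2 ^ (k - 1) := by positivity
  have hU'0 := (a6 τ (8 / 7) g hτ0 hgM).1
  have hU'p := (a6 τ (8 / 7) g hτ0 hgM).2 _ hn hgp
  have hU'M : Bd (1 / 7) (A τ g) := by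
    have q := a1 τ (8 / 7) g hτ0 hgM
    refine ⟨q.1, q.2.1, fun x => ?_⟩
    have e5 : 2 / (((2 ^ (k - 1) : ℕ) : ℝ)) ^ 2 = 8 / 4 ^ k := by
      obtain ⟨k, rfl⟩ : ∃ l, k = l + 1 := ⟨k - 1, by omega⟩
      simp only [Nat.add_sub_cancel]
      push_cast
      have h24 : ((2 : ℝ) ^ k) ^ 2 = 4 ^ k := by
        rw [← pow_mul, mul_comm, pow_mul]
        norm_num
      rw [h24, pow_succ, div_eq_div_iff (by positivity) (by positivity)]
      ring
    have := a5 (2 ^ (k - 1)) τ (8 / 7) g hn (by rw [e5]; exact hτ8) hgM hgp hg0 x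
    linarith
  -- concatenation
  have E12 := hc R (8 / 7) (st R k) c1 c1 _ _ (fb R) (bt R) U U _ _ _ hb st0.le (by linarith) le_rfl
    (by linarith) E1' E2
  have E123 := hc R (8 / 7) (st R k) c1 a4 _ _ (fb R) (bt R) U _ g _ _ hb st0.le (by linarith)
    (by linarith) (by linarith) E12 E3
  have E1234 := hc R (8 / 7) (st R k) a4 (st R (k - 1)) _ _ (fb R) (bt R) U g _ _ _ hb st0.le
    (by linarith) (by linarith) (by linarith) E123 E4
  have herr : (9 / 7) * (1 / 2 ^ (k + K)) + 1 / 2 ^ (k + K) + 1 / 4 * (1 / 2 ^ (k + K)) +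
      1 / 4 * (1 / 2 ^ (k + K)) ≤ 4 / (2 : ℝ) ^ (k + K) := by
    have e6 : (4 : ℝ) / 2 ^ (k + K) = 4 * (1 / 2 ^ (k + K)) := by ring
    have e7 : (0 : ℝ) < 1 / 2 ^ (k + K) := by positivity
    rw [e6]
    linarith
  refine ⟨_, A τ g, hU'M, hU'0.trans hg0, hU'p, E1234.mono_err st0.le (by linarith) herr, ?_⟩
  intro t htw
  have hta : ¬ t < a4 := not_lt.2 htw.1
  simp only [if_neg hta]
  have hw : (1 : ℝ) / (10 ^ 9 * 4 ^ k) ≤ 8 / 4 ^ k := by
    rw [div_le_div_iff₀ (by positivity) (by positivity)]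
    have : (0 : ℝ) < 4 ^ k := by positivity
    nlinarith
  have hLip : Lip (2 * 2 ^ k / (1 / 1000)) (F0 k (1 / 1000)) := by
    have := (hp1 k (1 / 1000) (by norm_num) (by norm_num)).1 0 0
    simpa using this
  have W := W4 (F0 k (1 / 1000)) (2 * 2 ^ k / (1 / 1000)) (by positivity) bF hLip t
    ⟨htw.1, by linarith [htw.2]⟩
  have r1 := (hp4 k (1 / 1000) hk (by norm_num) (by norm_num)).1
  have q1 : ∫ x in Q, (chk k x - F0 k (1 / 1000) x) ^ 2 ≤ (633 / 10000) ^ 2 := by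
    have e8 : ∫ x in Q, (chk k x - F0 k (1 / 1000) x) ^ 2 =
        ∫ x in Q, (F0 k (1 / 1000) x - chk k x) ^ 2 := by
      refine integral_congr_ae (Eventually.of_forall fun x => ?_)
      simp only
      ring
    rw [e8]
    exact r1.trans (by norm_num)
  have q2 : ∫ x in Q, (F0 k (1 / 1000) x - chk k x) ^ 2 ≤ (633 / 10000) ^ 2 :=
    r1.trans (by norm_num)
  have q3 := tri hgM bck bF (by norm_num) (by norm_num) C3 q1
  have q4 : 2 * (t - a4) * (2 * 2 ^ k / (1 / 1000)) ^ 2 ≤ 8 / 1000 := by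
    have e9 : (2 * (2 : ℝ) ^ k / (1 / 1000)) ^ 2 = 4 * 10 ^ 6 * 4 ^ k := by
      have : ((2 : ℝ) ^ k) ^ 2 = 4 ^ k := by
        rw [← pow_mul, mul_comm, pow_mul]
        norm_num
      rw [div_pow, mul_pow, this]
      norm_num
      ring
    rw [e9]
    have e10 : t - a4 ≤ 1 / (10 ^ 9 * 4 ^ k) := by linarith [htw.2]
    calc 2 * (t - a4) * (4 * 10 ^ 6 * 4 ^ k) ≤ 2 * (1 / (10 ^ 9 * 4 ^ k)) * (4 * 10 ^ 6 * 4 ^ k) := by
          have : (0 : ℝ) ≤ 4 * 10 ^ 6 * 4 ^ k := by positivity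
          apply mul_le_mul_of_nonneg_right _ this
          linarith
      _ = 8 / 1000 := by
          field_simp
          norm_num
  have q5 : ∫ x in Q, (u4 t x - F0 k (1 / 1000) x) ^ 2 ≤ (3431 / 10000) ^ 2 := by
    refine W.trans ((add_le_add q3 q4).trans ?_)
    norm_num
  have q6 := tri (E4.2.1 t) bF bck (by norm_num) (by norm_num) q5 q2
  exact q6.trans (by norm_num)

end Pool.Agent.Q61.AD
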