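import Pool.Agent.Q61.AD.Stm

/-!
# Basic facts on integrals of periodic functions over the unit square
-/

set_option autoImplicit false

namespace Pool.Agent.Q61.AD

open MeasureTheory Set Filter Topology ProbabilityTheory

instance (s : ℝ) : IsProbabilityMeasure (gm s) := by
  unfold gm
  infer_instance

instance : IsFiniteMeasure (volume.restrict Q) := by
  constructor
  rw [Measure.restrict_apply_univ, Q, Measure.volume_eq_prod, Measure.prod_prod]
  simp

instance : IsProbabilityMeasure (volume.restrict Q) := by
  constructor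
  rw [Measure.restrict_apply_univ, Q, Measure.volume_eq_prod, Measure.prod_prod]
  simp

theorem vol_Q : (volume.restrict Q) = (volume.restrict (Ico (0:ℝ) 1)).prod
    (volume.restrict (Ico (0:ℝ) 1)) := by
  rw [Q, Measure.volume_eq_prod, Measure.prod_restrict]

/-- Bounded measurable functions are integrable for finite measures. -/
theorem int_of_bd {α : Type*} [MeasurableSpace α] {μ : Measure α} [IsFiniteMeasure μ] {f : α → ℝ}
    {M : ℝ} (hf : Measurable f) (hM : ∀ x, |f x| ≤ M) : Integrable f μ :=
  Integrable.of_bound hf.aestronglyMeasurable M (Eventually.of_forall hM)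

theorem abs_int_le {α : Type*} [MeasurableSpace α] {μ : Measure α} [IsProbabilityMeasure μ]
    {f : α → ℝ} {M : ℝ} (hM : ∀ x, |f x| ≤ M) : |∫ x, f x ∂μ| ≤ M := by
  have h := norm_integral_le_of_norm_le_const (μ := μ) (f := f) (C := M)
    (Eventually.of_forall hM)
  simpa using h

/-- Integrals over `Q` of periodic functions are translation invariant. -/
theorem int_shift {h : P → ℝ} (hp : Per h) (hm : Measurable h) {M : ℝ} (hb : ∀ x, |h x| ≤ M)
    (z : P) : ∫ x in Q, h (x + z) = ∫ x in Q, h x := by
  have key1 : ∀ (g : P → ℝ) (a : ℝ), Measurable g → (∀ x, |g x| ≤ M) → Per g →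
      ∫ x in Q, g (x + (a, 0)) = ∫ x in Q, g x := by
    intro g a hg hgb hgp
    rw [vol_Q, integral_prod_symm, integral_prod_symm]
    · refine integral_congr_ae (Eventually.of_forall fun y => ?_)
      have hper : Function.Periodic (fun x => g (x, y)) 1 := fun x => (hgp x y).1
      simp only [Prod.mk_add_mk, add_zero]
      rw [integral_Ico_eq_integral_Ioc, integral_Ico_eq_integral_Ioc,
        ← intervalIntegral.integral_of_le zero_le_one,
        ← intervalIntegral.integral_of_le zero_le_one,
        intervalIntegral.integral_comp_add_right (fun x => g (x, y)) a]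
      have := hper.intervalIntegral_add_eq (0 + a) 0
      rw [show (0:ℝ) + a + 1 = 1 + a by ring, zero_add] at this
      simpa using this
    · exact int_of_bd hg hgb
    · exact int_of_bd (hg.comp (measurable_id.add_const _)) fun x => hgb _
  have key2 : ∀ (g : P → ℝ) (a : ℝ), Measurable g → (∀ x, |g x| ≤ M) → Per g →
      ∫ x in Q, g (x + (0, a)) = ∫ x in Q, g x := by
    intro g a hg hgb hgp
    rw [vol_Q, integral_prod, integral_prod]
    · refine integral_congr_ae (Eventually.of_forall fun y => ?_)
      have hper : Function.Periodic (fun x => g (y, x)) 1 := fun x => (hgp y x).2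
      simp only [Prod.mk_add_mk, add_zero]
      rw [integral_Ico_eq_integral_Ioc, integral_Ico_eq_integral_Ioc,
        ← intervalIntegral.integral_of_le zero_le_one,
        ← intervalIntegral.integral_of_le zero_le_one,
        intervalIntegral.integral_comp_add_right (fun x => g (y, x)) a]
      have := hper.intervalIntegral_add_eq (0 + a) 0
      rw [show (0:ℝ) + a + 1 = 1 + a by ring, zero_add] at this
      simpa using this
    · exact int_of_bd hg hgb
    · exact int_of_bd (hg.comp (measurable_id.add_const _)) fun x => hgb _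
  obtain ⟨a, b⟩ := z
  have h1 := key2 h b hm hb hp
  have h2 := key1 (fun x => h (x + (0, b))) a (hm.comp (measurable_id.add_const _))
    (fun x => hb _) (by
      intro x y
      constructor
      · have := (hp x (y + b)).1
        simpa using this
      · have := (hp x (y + b)).2
        simp only [Prod.mk_add_mk, add_zero]
        rw [show y + 1 + b = y + b + 1 by ring]
        exact this)
  rw [← h1, ← h2]
  refine integral_congr_ae (Eventually.of_forall fun x => ?_)
  simp only [add_assoc, Prod.mk_add_mk, add_zero, zero_add]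

theorem Bd.shift {M : ℝ} {f : P → ℝ} (hf : Bd M f) (z : P) : Bd M (fun x => f (x + z)) := by
  refine ⟨hf.1.comp (measurable_id.add_const _), fun x y => ?_, fun x => hf.2.2 _⟩
  have h := hf.2.1 (x + z.1) (y + z.2)
  constructor
  · have h1 := h.1
    rw [show x + z.1 + 1 = x + 1 + z.1 by ring] at h1
    exact h1
  · have h1 := h.2
    rw [show y + z.2 + 1 = y + 1 + z.2 by ring] at h1
    exact h1

theorem Bd.mul {M M' : ℝ} {f g : P → ℝ} (hf : Bd M f) (hg : Bd M' g) (hM : 0 ≤ M) :
    Bd (M * M') (fun x => f x * g x) := by
  refine ⟨hf.1.mul hg.1, fun x y => ?_, fun x => ?_⟩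
  · have h := hf.2.1 x y
    have h' := hg.2.1 x y
    exact ⟨by simp only [h.1, h'.1], by simp only [h.2, h'.2]⟩
  · rw [abs_mul]
    exact mul_le_mul (hf.2.2 x) (hg.2.2 x) (abs_nonneg _) hM

theorem Bd.nonneg {M : ℝ} {f : P → ℝ} (hf : Bd M f) : 0 ≤ M :=
  (abs_nonneg _).trans (hf.2.2 0)

theorem Bd.int {M : ℝ} {f : P → ℝ} (hf : Bd M f) (μ : Measure P) [IsFiniteMeasure μ] :
    Integrable f μ := int_of_bd hf.1 hf.2.2

theorem Bd.int_shift {M : ℝ} {f : P → ℝ} (hf : Bd M f) (z : P) :
    ∫ x in Q, f (x + z) = ∫ x in Q, f x := Pool.Agent.Q61.AD.int_shift hf.2.1 hf.1 hf.2.2 z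

/-- The integrand of the heat semigroup. -/
theorem meas_shift {f : P → ℝ} (hf : Measurable f) : Measurable (fun q : P × P => f (q.1 + q.2)) :=
  hf.comp (measurable_fst.add measurable_snd)

theorem a1 : S_A1 := by
  intro s M f hs hf
  refine ⟨?_, fun x y => ?_, fun x => abs_int_le fun z => hf.2.2 _⟩
  · exact ((meas_shift hf.1).stronglyMeasurable.integral_prod_right').measurable
  · constructor
    · refine integral_congr_ae (Eventually.of_forall fun z => ?_)
      have h := (hf.2.1 (x + z.1) (y + z.2)).1
      rw [show x + z.1 + 1 = x + 1 + z.1 by ring] at h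
      exact h
    · refine integral_congr_ae (Eventually.of_forall fun z => ?_)
      have h := (hf.2.1 (x + z.1) (y + z.2)).2
      rw [show y + z.2 + 1 = y + 1 + z.2 by ring] at h
      exact h

theorem a6 : S_A6 := by
  intro s M f hs hf
  constructor
  · unfold A
    rw [integral_integral_swap]
    · have : ∀ z : P, ∫ x in Q, f (x + z) = ∫ x in Q, f x := fun z => hf.int_shift z
      simp only [this]
      simp
    · exact int_of_bd (meas_shift hf.1) fun q => hf.2.2 _
  · intro n hn hp x y
    constructor
    · refine integral_congr_ae (Eventually.of_forall fun z => ?_)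
      have h := (hp (x + z.1) (y + z.2)).1
      rw [show x + z.1 + 1 / (n : ℝ) = x + 1 / n + z.1 by ring] at h
      exact h
    · refine integral_congr_ae (Eventually.of_forall fun z => ?_)
      have h := (hp (x + z.1) (y + z.2)).2
      rw [show y + z.2 + 1 / (n : ℝ) = y + 1 / n + z.2 by ring] at h
      exact h

theorem gm_neg (s : ℝ) : (gm s).map (fun x => -x) = gm s := by
  unfold gm
  rw [gaussianReal_map_neg, neg_zero]

theorem gm2_neg (s : ℝ) {g : P → ℝ} (hg : Measurable g) :
    ∫ z, g (-z) ∂((gm s).prod (gm s)) = ∫ z, g z ∂((gm s).prod (gm s)) := by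
  have h1 : ((gm s).prod (gm s)).map (fun z : P => -z) = (gm s).prod (gm s) := by
    conv_rhs => rw [← gm_neg s]
    rw [Measure.map_prod_map _ _ measurable_neg measurable_neg]
    rfl
  conv_rhs => rw [← h1]
  rw [integral_map measurable_neg.aemeasurable hg.aestronglyMeasurable]

theorem a2 : S_A2 := by
  intro s M M' f g hs hf hg
  have hM := hf.nonneg
  have h1 : ∫ x in Q, A s f x * g x = ∫ z, (∫ x in Q, f (x + z) * g x) ∂((gm s).prod (gm s)) := by
    unfold A
    simp_rw [← integral_mul_const]
    rw [integral_integral_swap]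
    refine int_of_bd (M := M * M') ?_ fun q => ?_
    · exact (meas_shift hf.1).mul (hg.1.comp measurable_fst)
    · simp only [Function.uncurry]
      rw [abs_mul]
      exact mul_le_mul (hf.2.2 _) (hg.2.2 _) (abs_nonneg _) hM
  have h2 : ∫ x in Q, f x * A s g x = ∫ z, (∫ x in Q, f x * g (x + z)) ∂((gm s).prod (gm s)) := by
    unfold A
    simp_rw [← integral_const_mul]
    rw [integral_integral_swap]
    refine int_of_bd (M := M * M') ?_ fun q => ?_
    · exact (hf.1.comp measurable_fst).mul (meas_shift hg.1)
    · simp only [Function.uncurry]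
      rw [abs_mul]
      exact mul_le_mul (hf.2.2 _) (hg.2.2 _) (abs_nonneg _) hM
  rw [h1, h2]
  have h3 : ∀ z : P, ∫ x in Q, f (x + z) * g x = ∫ x in Q, f x * g (x + -z) := by
    intro z
    have h4 : Bd (M * M') (fun x => f (x + z) * g x) := (hf.shift z).mul hg hM
    rw [← h4.int_shift (-z)]
    refine integral_congr_ae (Eventually.of_forall fun x => ?_)
    simp only [neg_add_cancel_right]
  simp_rw [h3]
  have h5 : Measurable (fun z : P => ∫ x in Q, f x * g (x + z)) := by
    have : Measurable (fun q : P × P => f q.2 * g (q.2 + q.1)) :=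
      (hf.1.comp measurable_snd).mul (hg.1.comp (measurable_snd.add measurable_fst))
    exact (this.stronglyMeasurable.integral_prod_right').measurable
  exact gm2_neg s h5

end Pool.Agent.Q61.AD
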