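import Pool.Agent.Q61.AD.STG

/-!
# The cascade
-/

set_option autoImplicit false

namespace Pool.Agent.Q61.AD

open MeasureTheory Set Filter Topology ProbabilityTheory

theorem st_zero (R : ℝ) : st R 0 = R := by simp [st]

theorem st_le {R : ℝ} (hR : 4 ≤ R) (k : ℕ) : st R k ≤ R := by
  unfold st
  exact div_le_self (by linarith) (one_le_pow₀ (by norm_num))

theorem sgk_le (h0 : S_B0) (k m : ℕ) : sgk k (m + 1) ≤ sgk k 1 := by
  induction m with
  | zero => exact le_rfl
  | succ m ih =>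
    have h1 := (h0.2.1 k (m + 1)).2.1
    have h2 := (h0.2.1 k (m + 1)).1
    linarith

theorem st_sgk_le (h0 : S_B0) {R : ℝ} (hR : 4 ≤ R) {k : ℕ} (hk : 1 ≤ k) (m : ℕ) :
    0 < st R k ∧ st R k + sgk k (m + 1) + 8 / 4 ^ k ≤ st R (k - 1) := by
  obtain ⟨k, rfl⟩ : ∃ l, k = l + 1 := ⟨k - 1, by omega⟩
  have h1 := h0.2.2 R k hR
  have h2 := sgk_le h0 (k + 1) m
  simp only [Nat.add_sub_cancel]
  exact ⟨h1.1, by linarith [h1.2]⟩

/-- The sum of the errors. -/
noncomputable def Esum (m : ℕ) : ℝ := ∑ i ∈ Finset.range m, (4 * √(del (i + 1)) + 3 * del (i + 1))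

theorem Esum_nonneg (m : ℕ) : 0 ≤ Esum m := by
  unfold Esum
  refine Finset.sum_nonneg fun i _ => ?_
  have h1 := Real.sqrt_nonneg (del (i + 1))
  have h2 : 0 ≤ del (i + 1) := by
    unfold del
    positivity
  positivity

theorem Esum_le (m : ℕ) : Esum m ≤ 1 / 16 * (1 - 1 / ((m : ℝ) + 1)) := by
  unfold Esum
  induction m with
  | zero => simp
  | succ m ih =>
    rw [Finset.sum_range_succ]
    have h1 : √(del (m + 1)) = 1 / (80 * ((m : ℝ) + 2) ^ 2) := by
      rw [show del (m + 1) = (1 / (80 * ((m : ℝ) + 2) ^ 2)) ^ 2 by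
        unfold del
        push_cast
        field_simp
        ring]
      exact Real.sqrt_sq (by positivity)
    have h2 : del (m + 1) = 1 / (6400 * ((m : ℝ) + 2) ^ 4) := by
      unfold del
      push_cast
      ring
    have h3 : 4 * √(del (m + 1)) + 3 * del (m + 1) ≤
        1 / 16 * (1 / ((m : ℝ) + 1) - 1 / ((m : ℝ) + 2)) := by
      rw [h1, h2]
      have hm : (0 : ℝ) ≤ m := Nat.cast_nonneg m
      have e1 : 1 / 16 * (1 / ((m : ℝ) + 1) - 1 / ((m : ℝ) + 2)) =
          1 / (16 * (((m : ℝ) + 1) * (m + 2))) := by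
        field_simp
        ring
      rw [e1]
      have h4 : 1 / (6400 * ((m : ℝ) + 2) ^ 4) ≤ 1 / (6400 * ((m : ℝ) + 2) ^ 2) := by
        apply one_div_le_one_div_of_le (by positivity)
        have : ((m : ℝ) + 2) ^ 2 ≤ ((m : ℝ) + 2) ^ 4 := by
          apply pow_le_pow_right₀ (by linarith) (by norm_num)
        linarith
      calc 4 * (1 / (80 * ((m : ℝ) + 2) ^ 2)) + 3 * (1 / (6400 * ((m : ℝ) + 2) ^ 4)) ≤
            4 * (1 / (80 * ((m : ℝ) + 2) ^ 2)) + 3 * (1 / (6400 * ((m : ℝ) + 2) ^ 2)) := by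
              linarith
        _ = (323 / 6400) * (1 / (((m : ℝ) + 2) ^ 2)) := by
              field_simp
              norm_num
        _ ≤ (1 / 16) * (1 / (((m : ℝ) + 1) * (m + 2))) := by
              apply mul_le_mul (by norm_num) _ (by positivity) (by norm_num)
              apply one_div_le_one_div_of_le (by positivity)
              nlinarith
        _ = _ := by
              field_simp
    push_cast
    have e2 : (m : ℝ) + 1 + 1 = m + 2 := by ring
    rw [e2]
    linarith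

theorem cas_aux (hg : S_STG) (hc : S_CONC) (h0 : S_B0) (h1 : S_B1) (h2 : S_B2) (R : ℝ) (k : ℕ)
    (hR : 4 ≤ R) (hk : 1 ≤ k) (m : ℕ) : ∀ (ε e : ℝ) (f : P → ℝ), 0 < ε → 0 ≤ e → Bd (8 / 7) f →
    ∫ x in Q, (f x - chk (k + m) x) ^ 2 ≤ e ^ 2 →
    ∃ (u : ℝ → P → ℝ) (g : P → ℝ),
      Ev R (8 / 7) (fb R) (st R k + sgk k (m + 1)) (st R k + sgk k 1) f g u ε ∧
      (∫ x in Q, g x = ∫ x in Q, f x) ∧ (PerN (2 ^ (k - 1)) f → PerN (2 ^ (k - 1)) g) ∧
      ∫ x in Q, (g x - chk k x) ^ 2 ≤ (e + Esum m) ^ 2 := by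
  induction m with
  | zero =>
    intro ε e f hε he hf hfe
    have ha := st_sgk_le h0 hR hk 0
    have hs1 := (h0.2.1 k 1).1
    have hp : (0 : ℝ) < 8 / 4 ^ k := by positivity
    refine ⟨fun _ => f, f, ⟨hf.1.comp measurable_snd, fun _ => hf, hf, hf, ?_⟩, rfl, fun h => h, ?_⟩
    · intro Φ C hΦ
      have hC := hΦ.C_nonneg (a := st R k + sgk k (0 + 1)) (by linarith [ha.1])
        (by linarith [ha.2, st_le hR (k - 1)])
      simp only [zero_add, sub_self, intervalIntegral.integral_same, abs_zero]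
      positivity
    · simpa [Esum] using hfe
  | succ m ih =>
    intro ε e f hε he hf hfe
    have hb := (h2 R hR).1
    have hm1 : 1 ≤ m + 1 := by omega
    obtain ⟨hd0, hd1⟩ := h0.1 (m + 1)
    obtain ⟨hsg, -, -, hτ, -, hτ2, -⟩ := h0.2.1 k (m + 1)
    obtain ⟨hf1, hf2, -⟩ := h1 R hR |>.1 k (m + 1) hk hm1
    have ha := st_sgk_le h0 hR hk m
    have ha' := st_sgk_le h0 hR hk (m + 1)
    have hp : (0 : ℝ) < 8 / 4 ^ k := by positivity
    have hsg2 := (h0.2.1 k (m + 1 + 1)).1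
    have hsum : st R k + sgk k (m + 1 + 1) + 2 * tau k (m + 1) = st R k + sgk k (m + 1) := by
      unfold tau
      ring
    obtain ⟨u1, g1, E1, I1, N1, C1⟩ := hg R (8 / 7) (st R k + sgk k (m + 1 + 1)) (tau k (m + 1))
      (del (m + 1)) e (ε / 2) (k + (m + 1)) (fb R) (bt R) f hb (by omega) hd0 (by linarith)
      (by linarith [ha.1]) hτ (by exact hτ2) (by
        rw [hsum]
        linarith [ha.2, st_le hR (k - 1)]) (fun t ht x => hf1 t ht x)
      (by
        rw [hsum]
        exact fun t ht x => hf2 t ht x) (by norm_num) hf he hfe (by positivity)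
    rw [hsum] at E1
    have hq : 0 ≤ 4 * √(del (m + 1)) + 3 * del (m + 1) := by
      have := Real.sqrt_nonneg (del (m + 1))
      positivity
    have C1' : ∫ x in Q, (g1 x - chk (k + m) x) ^ 2 ≤
        (e + (4 * √(del (m + 1)) + 3 * del (m + 1))) ^ 2 := by
      have e1 : k + (m + 1) - 1 = k + m := by omega
      rw [e1] at C1
      rw [← add_assoc]
      exact C1
    obtain ⟨u2, g2, E2, I2, N2, C2⟩ := ih (ε / 2) (e + (4 * √(del (m + 1)) + 3 * del (m + 1))) g1
      (by positivity) (by positivity) E1.2.2.2.1 C1'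
    have hle := sgk_le h0 k m
    have hconc := hc R (8 / 7) (st R k + sgk k (m + 1 + 1)) (st R k + sgk k (m + 1))
      (st R k + sgk k 1) (ε / 2) (ε / 2) (fb R) (bt R) f g1 g2 u1 u2 hb (by linarith [ha.1])
      (by linarith) (by linarith) (by
        have := (st_sgk_le h0 hR hk 0).2
        simp only [zero_add] at this
        linarith [st_le hR (k - 1)]) E1 E2
    rw [add_halves] at hconc
    refine ⟨_, g2, hconc, I2.trans I1, fun hp => N2 (N1 (k - 1) (by omega) hp), ?_⟩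
    refine C2.trans (le_of_eq ?_)
    unfold Esum
    rw [Finset.sum_range_succ]
    ring

theorem cas (hg : S_STG) (hc : S_CONC) (h0 : S_B0) (h1 : S_B1) (h2 : S_B2) : S_CAS := by
  intro R ε k K f hR hk hε hf hfe
  obtain ⟨u, g, E1, I1, N1, C1⟩ := cas_aux hg hc h0 h1 h2 R k hR hk K ε (1 / 7) f hε (by norm_num)
    hf hfe
  refine ⟨u, g, E1, I1, N1, C1.trans ?_⟩
  have h3 := Esum_le K
  have h4 := Esum_nonneg K
  have h5 : (0 : ℝ) < 1 / ((K : ℝ) + 1) := by positivity
  apply pow_le_pow_left₀ (by positivity)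
  linarith

end Pool.Agent.Q61.AD
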