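import Pool.Agent.Q61.AD.SEG

/-!
# Concatenation of evolutions, frozen functions
-/

set_option autoImplicit false

namespace Pool.Agent.Q61.AD

open MeasureTheory Set Filter Topology ProbabilityTheory

theorem D_meas (hD : S_TBD) {R C : ℝ} {Φ : ℝ → P → ℝ} (hΦ : TB R C Φ) {b : ℝ → P → P}
    (hb : Measurable (fun q : ℝ × P => b q.1 q.2)) :
    Measurable (fun q : ℝ × P => D b Φ q.1 q.2) := by
  obtain ⟨⟨h1, h2, h3, h4, h5⟩, -⟩ := hD R C Φ hΦ
  unfold D
  exact ((h2.measurable.add ((measurable_fst.comp hb).mul h3.measurable)).add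
    ((measurable_snd.comp hb).mul h4.measurable)).add h5.measurable

theorem D_bd (hD : S_TBD) {R C : ℝ} {Φ : ℝ → P → ℝ} (hΦ : TB R C Φ) {b : ℝ → P → P} {β : ℝ → ℝ}
    (hb : Fld R b β) {t : ℝ} (h0 : 0 ≤ t) (hR : t ≤ R) (x : P) :
    |D b Φ t x| ≤ (3 + 2 * β t) * C := by
  have h := HH_bd hD hΦ (v := b t) (V := β t) (hb.bd t) h0 hR x
  simpa [D, HH] using h

theorem Bd.mono {m M : ℝ} {f : P → ℝ} (hf : Bd m f) (h : m ≤ M) : Bd M f :=
  ⟨hf.1, hf.2.1, fun x => (hf.2.2 x).trans h⟩

/-- The integrand in time is integrable. -/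
theorem uD_int (hD : S_TBD) {R C M : ℝ} {Φ : ℝ → P → ℝ} (hΦ : TB R C Φ) {b : ℝ → P → P}
    {β : ℝ → ℝ} (hb : Fld R b β) {u : ℝ → P → ℝ} (hu : Measurable (fun q : ℝ × P => u q.1 q.2))
    (huM : ∀ t, Bd M (u t)) {a c : ℝ} (ha : 0 ≤ a) (hac : a ≤ c) (hc : c ≤ R) :
    IntervalIntegrable (fun t => ∫ x in Q, u t x * D b Φ t x) volume a c ∧
      ∀ t, 0 ≤ t → t ≤ R → |∫ x in Q, u t x * D b Φ t x| ≤ M * ((3 + 2 * β t) * C) := by
  have hM : 0 ≤ M := (huM 0).nonneg
  have hbd : ∀ t, 0 ≤ t → t ≤ R → |∫ x in Q, u t x * D b Φ t x| ≤ M * ((3 + 2 * β t) * C) := by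
    intro t h0 hR
    refine abs_int_le fun x => ?_
    rw [abs_mul]
    exact mul_le_mul ((huM t).2.2 x) (D_bd hD hΦ hb h0 hR x) (abs_nonneg _) hM
  refine ⟨?_, hbd⟩
  rw [intervalIntegrable_iff_integrableOn_Ioc_of_le hac]
  have hsub : Ioc a c ⊆ Ioc 0 R := Ioc_subset_Ioc ha hc
  have hβ : IntegrableOn (fun t => M * ((3 + 2 * β t) * C)) (Ioc a c) := by
    have h1 : IntegrableOn β (Ioc a c) := hb.int.mono_set hsub
    have h3 : IntegrableOn (fun _ : ℝ => (3 : ℝ)) (Ioc a c) := integrableOn_const (by simp)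
    exact (((h3.add (h1.const_mul 2)).mul_const C).const_mul M)
  refine hβ.mono' ?_ ?_
  · have h1 : Measurable (fun q : ℝ × P => u q.1 q.2 * D b Φ q.1 q.2) := hu.mul (D_meas hD hΦ hb.meas)
    exact (h1.stronglyMeasurable.integral_prod_right').aestronglyMeasurable
  · filter_upwards [ae_restrict_mem measurableSet_Ioc] with t ht
    have := hsub ht
    exact hbd t this.1.le this.2

theorem conc (hD : S_TBD) : S_CONC := by
  intro R M a c d η₁ η₂ b β f g h u₁ u₂ hb ha hac hcd hdR h1 h2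
  refine ⟨?_, fun t => ?_, h1.2.2.1, h2.2.2.2.1, ?_⟩
  · have : (fun q : ℝ × P => (fun t => if t < c then u₁ t else u₂ t) q.1 q.2) =
        fun q : ℝ × P => if q.1 < c then u₁ q.1 q.2 else u₂ q.1 q.2 := by
      funext q
      simp only
      split_ifs <;> rfl
    rw [this]
    exact Measurable.ite (measurableSet_lt measurable_fst measurable_const) h1.1 h2.1
  · simp only
    split_ifs
    · exact h1.2.1 t
    · exact h2.2.1 t
  · intro Φ C hΦ
    obtain ⟨i1, -⟩ := uD_int hD hΦ hb h1.1 h1.2.1 ha hac (hcd.trans hdR)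
    obtain ⟨i2, -⟩ := uD_int hD hΦ hb h2.1 h2.2.1 (ha.trans hac) hcd hdR
    set w : ℝ → ℝ := fun t => ∫ x in Q, (if t < c then u₁ t else u₂ t) x * D b Φ t x with hw
    have e1 : ∀ᵐ t ∂(volume.restrict (Ioc a c)), w t = ∫ x in Q, u₁ t x * D b Φ t x := by
      have h0 : ∀ᵐ t ∂(volume.restrict (Ioc a c)), t ≠ c := by
        refine ae_restrict_of_ae ?_
        rw [ae_iff]
        simp
      filter_upwards [ae_restrict_mem measurableSet_Ioc, h0] with t ht ht0
      have : t < c := lt_of_le_of_ne ht.2 ht0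
      simp only [hw, if_pos this]
    have e2 : ∀ᵐ t ∂(volume.restrict (Ioc c d)), w t = ∫ x in Q, u₂ t x * D b Φ t x := by
      filter_upwards [ae_restrict_mem measurableSet_Ioc] with t ht
      have : ¬ t < c := not_lt.2 ht.1.le
      simp only [hw, if_neg this]
    have j1 : IntervalIntegrable w volume a c := by
      rw [intervalIntegrable_iff_integrableOn_Ioc_of_le hac] at i1 ⊢
      exact i1.congr (by filter_upwards [e1] with t ht using ht.symm)
    have j2 : IntervalIntegrable w volume c d := by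
      rw [intervalIntegrable_iff_integrableOn_Ioc_of_le hcd] at i2 ⊢
      exact i2.congr (by filter_upwards [e2] with t ht using ht.symm)
    have k1 : ∫ t in a..c, w t = ∫ t in a..c, ∫ x in Q, u₁ t x * D b Φ t x := by
      rw [intervalIntegral.integral_of_le hac, intervalIntegral.integral_of_le hac]
      exact integral_congr_ae e1
    have k2 : ∫ t in c..d, w t = ∫ t in c..d, ∫ x in Q, u₂ t x * D b Φ t x := by
      rw [intervalIntegral.integral_of_le hcd, intervalIntegral.integral_of_le hcd]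
      exact integral_congr_ae e2
    have k3 := intervalIntegral.integral_add_adjacent_intervals j1 j2
    have l1 := h1.2.2.2.2 Φ C hΦ
    have l2 := h2.2.2.2.2 Φ C hΦ
    change |(∫ x in Q, h x * Φ d x) - (∫ x in Q, f x * Φ a x) - ∫ t in a..d, w t| ≤ _
    rw [← k3, k1, k2]
    have e3 : (∫ x in Q, h x * Φ d x) - (∫ x in Q, f x * Φ a x) -
        ((∫ t in a..c, ∫ x in Q, u₁ t x * D b Φ t x) + ∫ t in c..d, ∫ x in Q, u₂ t x * D b Φ t x) =
        ((∫ x in Q, g x * Φ c x) - (∫ x in Q, f x * Φ a x) -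
          ∫ t in a..c, ∫ x in Q, u₁ t x * D b Φ t x) +
        ((∫ x in Q, h x * Φ d x) - (∫ x in Q, g x * Φ c x) -
          ∫ t in c..d, ∫ x in Q, u₂ t x * D b Φ t x) := by ring
    rw [e3]
    refine (abs_add_le _ _).trans ((add_le_add l1 l2).trans (le_of_eq ?_))
    ring

theorem frz (hD : S_TBD) : S_FRZ := by
  intro R m a c b β f hb ha hac hcR hf
  refine ⟨hf.1.comp measurable_snd, fun _ => hf, hf, hf, ?_⟩
  intro Φ C hΦ
  have hm := hf.nonneg
  have hC := hΦ.C_nonneg ha (hac.trans hcR)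
  obtain ⟨i1, hbd⟩ := uD_int hD hΦ hb (u := fun _ => f) (hf.1.comp measurable_snd) (fun _ => hf)
    ha hac hcR
  have hd : ∀ x : P, |Φ c x - Φ a x| ≤ C * (c - a) := by
    intro x
    have hdiff : ∀ t : ℝ, DifferentiableAt ℝ (fun s => Φ s x) t := by
      intro t
      have h1 : Differentiable ℝ (fun q : ℝ × P => Φ q.1 q.2) :=
        hΦ.smooth.differentiable (by simp)
      have h2 : Differentiable ℝ (fun s : ℝ => ((s, x) : ℝ × P)) :=
        differentiable_id.prodMk (differentiable_const x)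
      exact (h1.comp h2) t
    have h2 := Convex.norm_image_sub_le_of_norm_deriv_le (f := fun s => Φ s x) (C := C)
      (s := Icc a c) (x := a) (y := c) (fun t _ => hdiff t) (fun t ht => by
        exact ((hD R C Φ hΦ).2 t x (ha.trans ht.1) (ht.2.trans hcR)).2.1) (convex_Icc a c)
      ⟨le_rfl, hac⟩ ⟨hac, le_rfl⟩
    have h3 : ‖c - a‖ = c - a := by
      rw [Real.norm_eq_abs, abs_of_nonneg (by linarith)]
    rw [h3] at h2
    exact h2
  have h4 : |(∫ x in Q, f x * Φ c x) - ∫ x in Q, f x * Φ a x| ≤ m * (C * (c - a)) := by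
    have b1 := (hf.mul (hΦ.bdΦ hD (ha.trans hac) hcR) hm).int (volume.restrict Q)
    have b2 := (hf.mul (hΦ.bdΦ hD ha (hac.trans hcR)) hm).int (volume.restrict Q)
    rw [← integral_sub b1 b2]
    refine abs_int_le fun x => ?_
    rw [← mul_sub, abs_mul]
    exact mul_le_mul (hf.2.2 x) (hd x) (abs_nonneg _) hm
  have hβi : IntervalIntegrable β volume a c := by
    rw [intervalIntegrable_iff_integrableOn_Ioc_of_le hac]
    exact hb.int.mono_set (Ioc_subset_Ioc ha hcR)
  have h5 : |∫ t in a..c, ∫ x in Q, f x * D b Φ t x| ≤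
      m * C * (3 * (c - a) + 2 * ∫ t in a..c, β t) := by
    have h6 : |∫ t in a..c, ∫ x in Q, f x * D b Φ t x| ≤
        ∫ t in a..c, |∫ x in Q, f x * D b Φ t x| :=
      intervalIntegral.abs_integral_le_integral_abs hac
    refine h6.trans ?_
    have h7 : ∫ t in a..c, |∫ x in Q, f x * D b Φ t x| ≤ ∫ t in a..c, m * C * (3 + 2 * β t) := by
      refine intervalIntegral.integral_mono_on hac i1.abs
        ((intervalIntegrable_const.add (hβi.const_mul 2)).const_mul _) fun t ht => ?_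
      refine (hbd t (ha.trans ht.1) (ht.2.trans hcR)).trans (le_of_eq ?_)
      ring
    refine h7.trans (le_of_eq ?_)
    rw [intervalIntegral.integral_const_mul, intervalIntegral.integral_add
      intervalIntegrable_const (hβi.const_mul 2), intervalIntegral.integral_const_mul,
      intervalIntegral.integral_const]
    simp only [smul_eq_mul]
    ring
  refine (abs_sub _ _).trans ((add_le_add h4 h5).trans (le_of_eq ?_))
  ring

theorem mon : S_MON := by
  intro R m M a c η η' b f g u hR hmM hη h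
  refine ⟨h.1, fun t => (h.2.1 t).mono hmM, h.2.2.1.mono hmM, h.2.2.2.1.mono hmM, ?_⟩
  intro Φ C hΦ
  exact (h.2.2.2.2 Φ C hΦ).trans (mul_le_mul_of_nonneg_right hη (hΦ.C_nonneg le_rfl hR))

end Pool.Agent.Q61.AD
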