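import Pool.Agent.Q61.AD.A4
import Pool.Agent.Q124.AD.TB

/-!
# Consistency of the splitting scheme
-/

set_option autoImplicit false

namespace Pool.Agent.Q61.AD

open MeasureTheory Set Filter Topology ProbabilityTheory

section taylor

variable {E : Type*} [NormedAddCommGroup E] [NormedSpace ℝ E]

theorem line_deriv {G : Type*} [NormedAddCommGroup G] [NormedSpace ℝ G] {F : E → G}
    (hF : Differentiable ℝ F) (q h : E) (θ : ℝ) :
    HasDerivAt (fun θ : ℝ => F (q + θ • h)) (fderiv ℝ F (q + θ • h) h) θ := by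
  have h1 : HasDerivAt (fun θ : ℝ => q + θ • h) h θ := by
    have := ((hasDerivAt_id θ).smul_const h).const_add q
    simpa using this
  exact ((hF _).hasFDerivAt).comp_hasDerivAt θ h1

/-- The derivative of a directional derivative along a line. -/
theorem line_iter {F : E → ℝ} (hF : ContDiff ℝ (⊤ : ℕ∞) F) (n : ℕ) (v : Fin n → E) (q h : E)
    (θ : ℝ) : HasDerivAt (fun θ : ℝ => iteratedFDeriv ℝ n F (q + θ • h) v)
      (fderiv ℝ (iteratedFDeriv ℝ n F) (q + θ • h) h v) θ := by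
  have d : Differentiable ℝ (iteratedFDeriv ℝ n F) :=
    hF.differentiable_iteratedFDeriv (by exact_mod_cast WithTop.coe_lt_top n)
  exact ((ContinuousMultilinearMap.apply ℝ (fun _ : Fin n => E) ℝ v).hasFDerivAt).comp_hasDerivAt θ
    (line_deriv d q h θ)

theorem iter_bd {F : E → ℝ} (n : ℕ) (v : Fin n → E) (x h : E) {C : ℝ}
    (hC : ‖iteratedFDeriv ℝ (n + 1) F x‖ ≤ C) :
    |fderiv ℝ (iteratedFDeriv ℝ n F) x h v| ≤ C * ‖h‖ * ∏ i, ‖v i‖ := by
  have h1 := (fderiv ℝ (iteratedFDeriv ℝ n F) x h).le_opNorm v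
  have h2 := (fderiv ℝ (iteratedFDeriv ℝ n F) x).le_opNorm h
  rw [norm_fderiv_iteratedFDeriv] at h2
  have h3 : 0 ≤ ∏ i, ‖v i‖ := Finset.prod_nonneg fun _ _ => norm_nonneg _
  refine h1.trans (mul_le_mul_of_nonneg_right (h2.trans ?_) h3)
  exact mul_le_mul_of_nonneg_right hC (norm_nonneg _)

theorem small_of_deriv {f f' : ℝ → ℝ} {B : ℝ} (hf : ∀ θ, HasDerivAt f (f' θ) θ) (h0 : f 0 = 0)
    (hB : ∀ θ ∈ Icc (0 : ℝ) 1, |f' θ| ≤ B) : ∀ θ ∈ Icc (0 : ℝ) 1, |f θ| ≤ B := by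
  intro θ hθ
  have hB0 : 0 ≤ B := (abs_nonneg _).trans (hB 0 ⟨le_rfl, zero_le_one⟩)
  have h2 := Convex.norm_image_sub_le_of_norm_hasDerivWithin_le (f := f) (f' := f') (C := B)
    (s := Icc 0 1) (x := 0) (y := θ) (fun t _ => (hf t).hasDerivWithinAt) (fun t ht => hB t ht)
    (convex_Icc 0 1) ⟨le_rfl, zero_le_one⟩ hθ
  rw [h0, sub_zero, sub_zero, Real.norm_eq_abs, Real.norm_eq_abs, abs_of_nonneg hθ.1] at h2
  exact h2.trans (mul_le_of_le_one_right hB0 hθ.2)

theorem taylor3 {F : E → ℝ} (hF : ContDiff ℝ (⊤ : ℕ∞) F) (q h : E) {C : ℝ}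
    (hC : ∀ θ ∈ Icc (0 : ℝ) 1, ‖iteratedFDeriv ℝ 3 F (q + θ • h)‖ ≤ C) :
    |F (q + h) - (F q + fderiv ℝ F q h + 1 / 2 * fderiv ℝ (fderiv ℝ F) q h h)| ≤
      C * ‖h‖ ^ 3 := by
  have succ : ∀ (n : ℕ) (x : E), fderiv ℝ (iteratedFDeriv ℝ n F) x h (fun _ => h) =
      iteratedFDeriv ℝ (n + 1) F x (fun _ => h) := by
    intro n x
    rw [iteratedFDeriv_succ_apply_left]
    rfl
  have k : ∀ (n : ℕ) (θ : ℝ), HasDerivAt (fun θ : ℝ => iteratedFDeriv ℝ n F (q + θ • h)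
      (fun _ => h)) (iteratedFDeriv ℝ (n + 1) F (q + θ • h) (fun _ => h)) θ := by
    intro n θ
    rw [← succ]
    exact line_iter hF n (fun _ => h) q h θ
  have b3 : ∀ θ ∈ Icc (0 : ℝ) 1, |iteratedFDeriv ℝ (2 + 1) F (q + θ • h) (fun _ => h)| ≤
      C * ‖h‖ ^ 3 := by
    intro θ hθ
    have h1 := (iteratedFDeriv ℝ (2 + 1) F (q + θ • h)).le_opNorm (fun _ => h)
    refine h1.trans ?_
    simp only [Finset.prod_const, Finset.card_univ, Fintype.card_fin]
    exact mul_le_mul_of_nonneg_right (hC θ hθ) (by positivity)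
  have lin : ∀ (c θ : ℝ), HasDerivAt (fun θ : ℝ => θ * c) c θ := fun c θ => by
    have := (hasDerivAt_id θ).mul_const c
    simpa using this
  have quad : ∀ (c θ : ℝ), HasDerivAt (fun θ : ℝ => θ ^ 2 / 2 * c) (θ * c) θ := fun c θ => by
    have h1 := ((hasDerivAt_pow 2 θ).div_const 2).mul_const c
    have e1 : ((2 : ℕ) : ℝ) * θ ^ (2 - 1) / 2 * c = θ * c := by
      simp
    rw [e1] at h1
    exact h1
  set c1 : ℝ := iteratedFDeriv ℝ 1 F q (fun _ => h) with hc1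
  set c2 : ℝ := iteratedFDeriv ℝ 2 F q (fun _ => h) with hc2
  have s2 := small_of_deriv (f := fun θ => iteratedFDeriv ℝ 2 F (q + θ • h) (fun _ => h) - c2)
    (fun θ => (k 2 θ).sub_const _) (by simp [hc2]) b3
  have s1 := small_of_deriv (f := fun θ => iteratedFDeriv ℝ 1 F (q + θ • h) (fun _ => h) - c1 -
      θ * c2) (fun θ => ((k 1 θ).sub_const c1).fun_sub (lin _ θ)) (by simp [hc1]) s2
  have s0 := small_of_deriv (f := fun θ => iteratedFDeriv ℝ 0 F (q + θ • h) (fun _ => h) - F q -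
      θ * c1 - θ ^ 2 / 2 * c2) (fun θ =>
        (((k 0 θ).sub_const (F q)).fun_sub (lin _ θ)).fun_sub (quad _ θ)) (by simp) s1
  have := s0 1 ⟨zero_le_one, le_rfl⟩
  simp only [one_smul, one_mul, one_pow, iteratedFDeriv_zero_apply] at this
  rw [hc1, hc2, iteratedFDeriv_one_apply, iteratedFDeriv_two_apply] at this
  refine le_trans (le_of_eq ?_) this
  congr 1
  ring

end taylor

section moments

theorem gm_one (s : ℝ) : Integrable (fun z : ℝ => z) (gm s) ∧ ∫ z, z ∂(gm s) = 0 := by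
  constructor
  · exact (memLp_id_gaussianReal' 1 (by simp)).integrable (by simp)
  · exact integral_id_gaussianReal

theorem gm_three : ∃ K0 : ℝ, 0 ≤ K0 ∧ ∀ s : ℝ, 0 < s →
    Integrable (fun z : ℝ => |z| ^ 3) (gm s) ∧ ∫ z, |z| ^ 3 ∂(gm s) = K0 * (s * √s) := by
  refine ⟨2 * √2 * ∫ z, |z| ^ 3 ∂(gaussianReal 0 1), ?_, ?_⟩
  · have : 0 ≤ ∫ z : ℝ, |z| ^ 3 ∂(gaussianReal 0 1) := integral_nonneg fun z => by positivity
    positivity
  · intro s hs
    have hmap : (gaussianReal 0 1).map (fun x => √(2 * s) * x) = gm s := by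
      rw [gaussianReal_map_const_mul, mul_zero, mul_one]
      unfold gm
      congr 1
      ext
      rw [Real.coe_toNNReal _ (by positivity)]
      exact Real.sq_sqrt (by positivity)
    have hm : Measurable (fun x : ℝ => √(2 * s) * x) := measurable_const_mul _
    constructor
    · have h1 : MemLp id 3 (gm s) := memLp_id_gaussianReal' 3 (by simp)
      have := h1.integrable_norm_pow (by norm_num)
      simpa using this
    · have hm3 : Measurable (fun z : ℝ => |z| ^ 3) := by fun_prop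
      rw [← hmap, integral_map hm.aemeasurable hm3.aestronglyMeasurable]
      have e1 : ∀ z : ℝ, |√(2 * s) * z| ^ 3 = (2 * √2 * (s * √s)) * |z| ^ 3 := by
        intro z
        rw [abs_mul, mul_pow, abs_of_nonneg (Real.sqrt_nonneg _), Real.sqrt_mul (by norm_num)]
        have h2 : √(2:ℝ) ^ 2 = 2 := Real.sq_sqrt (by norm_num)
        have h3 : √s ^ 2 = s := Real.sq_sqrt hs.le
        calc (√2 * √s) ^ 3 * |z| ^ 3 = (√(2:ℝ) ^ 2 * √2 * (√s ^ 2 * √s)) * |z| ^ 3 := by ring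
          _ = _ := by rw [h2, h3]
      simp_rw [e1]
      rw [integral_const_mul]
      ring

theorem gm2_poly {s : ℝ} (hs : 0 < s) (c0 c1 c2 c11 c22 c12 : ℝ) :
    Integrable (fun z : P => c0 + c1 * z.1 + c2 * z.2 + c11 * z.1 ^ 2 + c22 * z.2 ^ 2 +
      c12 * (z.1 * z.2)) ((gm s).prod (gm s)) ∧
    ∫ z, (c0 + c1 * z.1 + c2 * z.2 + c11 * z.1 ^ 2 + c22 * z.2 ^ 2 +
      c12 * (z.1 * z.2)) ∂((gm s).prod (gm s)) = c0 + 2 * s * (c11 + c22) := by
  obtain ⟨i1, m1⟩ := gm_one s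
  obtain ⟨m2, i2⟩ := gm_sq hs
  have j1 : Integrable (fun z : P => z.1) ((gm s).prod (gm s)) := i1.comp_fst (gm s)
  have j2 : Integrable (fun z : P => z.2) ((gm s).prod (gm s)) := i1.comp_snd (gm s)
  have j3 : Integrable (fun z : P => z.1 ^ 2) ((gm s).prod (gm s)) := i2.comp_fst (gm s)
  have j4 : Integrable (fun z : P => z.2 ^ 2) ((gm s).prod (gm s)) := i2.comp_snd (gm s)
  have j5 : Integrable (fun z : P => z.1 * z.2) ((gm s).prod (gm s)) := i1.mul_prod i1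
  have j0 : Integrable (fun _ : P => c0) ((gm s).prod (gm s)) := integrable_const _
  have k1 : ∫ z : P, z.1 ∂((gm s).prod (gm s)) = 0 := by
    rw [integral_fun_fst (fun x : ℝ => x), m1]
    simp
  have k2 : ∫ z : P, z.2 ∂((gm s).prod (gm s)) = 0 := by
    rw [integral_fun_snd (fun x : ℝ => x), m1]
    simp
  have k3 : ∫ z : P, z.1 ^ 2 ∂((gm s).prod (gm s)) = 2 * s := by
    rw [integral_fun_fst (fun x : ℝ => x ^ 2), m2]
    simp
  have k4 : ∫ z : P, z.2 ^ 2 ∂((gm s).prod (gm s)) = 2 * s := by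
    rw [integral_fun_snd (fun x : ℝ => x ^ 2), m2]
    simp
  have k5 : ∫ z : P, z.1 * z.2 ∂((gm s).prod (gm s)) = 0 := by
    rw [integral_prod_mul (fun x : ℝ => x) (fun x : ℝ => x), m1]
    simp
  have a1 := j0.add (j1.const_mul c1)
  have a2 := a1.add (j2.const_mul c2)
  have a3 := a2.add (j3.const_mul c11)
  have a4 := a3.add (j4.const_mul c22)
  have a5 := a4.add (j5.const_mul c12)
  refine ⟨a5, ?_⟩
  have r5 := integral_add a4 (j5.const_mul c12)
  have r4 := integral_add a3 (j4.const_mul c22)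
  have r3 := integral_add a2 (j3.const_mul c11)
  have r2 := integral_add a1 (j2.const_mul c2)
  have r1 := integral_add j0 (j1.const_mul c1)
  simp only [Pi.add_apply] at r5 r4 r3 r2 r1
  rw [r5, r4, r3, r2, r1]
  simp only [integral_const_mul, k1, k2, k3, k4, k5, integral_const]
  simp
  ring

end moments

theorem norm_h_le {s V : ℝ} (hs : 0 < s) (w z : P) (hw : ‖w‖ ≤ V) :
    ‖((s, s • w + z) : ℝ × P)‖ ≤ s * (1 + V) + ‖z‖ := by
  have hV : 0 ≤ V := (norm_nonneg _).trans hw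
  rw [Prod.norm_def]
  apply max_le
  · simp only [Real.norm_eq_abs, abs_of_pos hs]
    have := norm_nonneg z
    nlinarith
  · simp only
    refine (norm_add_le _ _).trans ?_
    rw [norm_smul, Real.norm_eq_abs, abs_of_pos hs]
    nlinarith

theorem cube_le {a b : ℝ} (ha : 0 ≤ a) (hb : 0 ≤ b) : (a + b) ^ 3 ≤ 4 * (a ^ 3 + b ^ 3) := by
  nlinarith [mul_nonneg (add_nonneg ha hb) (sq_nonneg (a - b))]

theorem norm_cube_le (z : P) : ‖z‖ ^ 3 ≤ |z.1| ^ 3 + |z.2| ^ 3 := by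
  have h1 : 0 ≤ |z.1| ^ 3 := by positivity
  have h2 : 0 ≤ |z.2| ^ 3 := by positivity
  rw [Prod.norm_def]
  rcases le_total ‖z.1‖ ‖z.2‖ with h | h
  · rw [max_eq_right h, Real.norm_eq_abs]
    linarith
  · rw [max_eq_left h, Real.norm_eq_abs]
    linarith

open Pool.Agent.Q124.AD in
theorem con : S_CON := by
  obtain ⟨K0, hK0, hK⟩ := gm_three
  refine ⟨8 + 8 * K0, by positivity, ?_⟩
  intro R C Φ hΦ t s V w x ht hs hs1 htR hw
  have hV : 0 ≤ V := (norm_nonneg _).trans hw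
  have hC : 0 ≤ C := (norm_nonneg _).trans (hΦ.bd 0 (by norm_num) t x ht (by linarith))
  have hsm : ContDiff ℝ (⊤ : ℕ∞) (fun q : ℝ × P => Φ q.1 q.2) := hΦ.smooth
  set F : ℝ × P → ℝ := fun q => Φ q.1 q.2 with hF
  set q0 : ℝ × P := (t, x) with hq0
  set a : ℝ × P := (s, s • w) with ha
  set e0 : ℝ × P := (1, 0) with he0
  set e2 : ℝ × P := (0, (1, 0)) with he2
  set e3 : ℝ × P := (0, (0, 1)) with he3
  set D1 := fderiv ℝ F q0 with hD1
  set D2 := fderiv ℝ (fderiv ℝ F) q0 with hD2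
  set μ : Measure P := (gm s).prod (gm s) with hμ
  have hr0 : 0 ≤ √s := Real.sqrt_nonneg s
  have hss : s ≤ √s := by
    rw [Real.le_sqrt' hs]
    nlinarith
  -- expansion of the Taylor polynomial
  have hT : ∀ z : P, F q0 + D1 (s, s • w + z) + 1 / 2 * D2 (s, s • w + z) (s, s • w + z) =
      (F q0 + D1 a + 1 / 2 * D2 a a) + (D1 e2 + 1 / 2 * (D2 a e2 + D2 e2 a)) * z.1 +
      (D1 e3 + 1 / 2 * (D2 a e3 + D2 e3 a)) * z.2 + (1 / 2 * D2 e2 e2) * z.1 ^ 2 +
      (1 / 2 * D2 e3 e3) * z.2 ^ 2 + (1 / 2 * (D2 e2 e3 + D2 e3 e2)) * (z.1 * z.2) := by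
    intro z
    have hz : ((s, s • w + z) : ℝ × P) = a + z.1 • e2 + z.2 • e3 := by
      rw [ha, he2, he3]
      refine Prod.ext ?_ (Prod.ext ?_ ?_) <;> simp
    rw [hz]
    simp only [map_add, map_smul, add_apply, smul_apply,
      smul_eq_mul]
    ring
  obtain ⟨iT, mT⟩ := gm2_poly hs (F q0 + D1 a + 1 / 2 * D2 a a)
    (D1 e2 + 1 / 2 * (D2 a e2 + D2 e2 a)) (D1 e3 + 1 / 2 * (D2 a e3 + D2 e3 a))
    (1 / 2 * D2 e2 e2) (1 / 2 * D2 e3 e3) (1 / 2 * (D2 e2 e3 + D2 e3 e2))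
  simp_rw [← hT] at iT mT
  -- the function
  have iΨ : Integrable (fun z : P => Φ (t + s) (x + s • w + z)) μ := by
    refine int_of_bd (M := C) ?_ fun z => ?_
    · have h1 : Continuous (fun z : P => F (t + s, x + s • w + z)) :=
        hsm.continuous.comp (by fun_prop)
      exact h1.measurable
    · have := hΦ.bd 0 (by norm_num) (t + s) (x + s • w + z) (by linarith) htR
      rw [norm_iteratedFDeriv_zero] at this
      exact this
  -- Taylor
  have hTay : ∀ z : P, |Φ (t + s) (x + s • w + z) -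
      (F q0 + D1 (s, s • w + z) + 1 / 2 * D2 (s, s • w + z) (s, s • w + z))| ≤
      C * (4 * ((s * (1 + V)) ^ 3 + (|z.1| ^ 3 + |z.2| ^ 3))) := by
    intro z
    have h1 := taylor3 hsm q0 (s, s • w + z) (C := C) (fun θ hθ => by
      have : q0 + θ • ((s, s • w + z) : ℝ × P) = (t + θ * s, x + θ • (s • w + z)) := by
        rw [hq0]
        rfl
      rw [this]
      have h2 : 0 ≤ θ * s := mul_nonneg hθ.1 hs.le
      have h3 : θ * s ≤ s := mul_le_of_le_one_left hs.le hθ.2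
      exact hΦ.bd 3 (by norm_num) _ _ (by linarith) (by linarith))
    have h2 : F (q0 + (s, s • w + z)) = Φ (t + s) (x + s • w + z) := by
      change Φ (t + s) (x + (s • w + z)) = _
      rw [← add_assoc]
    rw [h2] at h1
    refine h1.trans (mul_le_mul_of_nonneg_left ?_ hC)
    have h3 := norm_h_le hs w z hw
    have h4 : ‖((s, s • w + z) : ℝ × P)‖ ^ 3 ≤ (s * (1 + V) + ‖z‖) ^ 3 :=
      pow_le_pow_left₀ (norm_nonneg _) h3 3
    have h5 := cube_le (a := s * (1 + V)) (b := ‖z‖) (by positivity) (norm_nonneg _)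
    have h6 := norm_cube_le z
    linarith
  obtain ⟨i3, m3⟩ := hK s hs
  have j1 : Integrable (fun z : P => |z.1| ^ 3) μ := i3.comp_fst (gm s)
  have j2 : Integrable (fun z : P => |z.2| ^ 3) μ := i3.comp_snd (gm s)
  have k1 : ∫ z : P, |z.1| ^ 3 ∂μ = K0 * (s * √s) := by
    rw [hμ, integral_fun_fst (fun x : ℝ => |x| ^ 3), m3]
    simp
  have k2 : ∫ z : P, |z.2| ^ 3 ∂μ = K0 * (s * √s) := by
    rw [hμ, integral_fun_snd (fun x : ℝ => |x| ^ 3), m3]
    simp
  have j3 : Integrable (fun z : P => C * (4 * ((s * (1 + V)) ^ 3 + (|z.1| ^ 3 + |z.2| ^ 3)))) μ :=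
    (((integrable_const _).add (j1.add j2)).const_mul 4).const_mul C
  have k3 : ∫ z : P, C * (4 * ((s * (1 + V)) ^ 3 + (|z.1| ^ 3 + |z.2| ^ 3))) ∂μ =
      C * (4 * ((s * (1 + V)) ^ 3 + 2 * (K0 * (s * √s)))) := by
    rw [integral_const_mul, integral_const_mul]
    have r1 := integral_add (μ := μ) (integrable_const ((s * (1 + V)) ^ 3)) (j1.add j2)
    have r2 := integral_add (μ := μ) j1 j2
    simp only [Pi.add_apply] at r1 r2
    rw [r1, r2, k1, k2, integral_const, probReal_univ, one_smul]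
    ring
  have E1 : |(∫ z, Φ (t + s) (x + s • w + z) ∂μ) - ∫ z, (F q0 + D1 (s, s • w + z) +
      1 / 2 * D2 (s, s • w + z) (s, s • w + z)) ∂μ| ≤
      C * (4 * ((s * (1 + V)) ^ 3 + 2 * (K0 * (s * √s)))) := by
    rw [← integral_sub iΨ iT, ← k3]
    refine (abs_integral_le_integral_abs).trans ?_
    exact integral_mono (iΨ.sub iT).abs j3 hTay
  -- the quadratic term
  have hna : ‖a‖ ≤ s * (1 + V) := by
    have := norm_h_le hs w 0 hw
    rw [add_zero, norm_zero, add_zero] at this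
    exact this
  have hbd0 : ∀ n : ℕ, n ≤ 3 → ‖iteratedFDeriv ℝ n F q0‖ ≤ C := fun n hn =>
    hΦ.bd n hn t x ht (by linarith)
  have E2 : |D2 a a| ≤ C * (s * (1 + V)) ^ 2 := by
    have h1 := (iteratedFDeriv ℝ 2 F q0).le_opNorm (fun _ => a)
    rw [iteratedFDeriv_two_apply] at h1
    simp only [Finset.prod_const, Finset.card_univ, Fintype.card_fin] at h1
    refine h1.trans (mul_le_mul (hbd0 2 (by norm_num)) (pow_le_pow_left₀ (norm_nonneg _) hna 2)
      (by positivity) hC)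
  -- the time integral
  set G : ℝ → ℝ := fun θ => dt Φ (t + θ) x + w.1 * dx (Φ (t + θ)) x + w.2 * dy (Φ (t + θ)) x +
    lap (Φ (t + θ)) x with hG
  have hGe : ∀ θ, G θ = iteratedFDeriv ℝ 1 F (q0 + θ • e0) (fun _ => ((1, w) : ℝ × P)) +
      iteratedFDeriv ℝ 2 F (q0 + θ • e0) (fun _ => e2) +
      iteratedFDeriv ℝ 2 F (q0 + θ • e0) (fun _ => e3) := by
    intro θ
    have h1 : q0 + θ • e0 = (t + θ, x) := by
      rw [hq0, he0]
      refine Prod.ext ?_ ?_ <;> simp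
    have h2 : ((1, w) : ℝ × P) = e0 + w.1 • e2 + w.2 • e3 := by
      rw [he0, he2, he3]
      refine Prod.ext ?_ (Prod.ext ?_ ?_) <;> simp
    rw [h1, iteratedFDeriv_one_apply, iteratedFDeriv_two_apply, iteratedFDeriv_two_apply, h2]
    simp only [hG, lap]
    rw [dt_eq hΦ.toTst, dx_eq hΦ.toTst, dy_eq hΦ.toTst, dxx_eq hΦ.toTst, dyy_eq hΦ.toTst]
    simp only [map_add, map_smul, smul_eq_mul]
    ring
  have hn1 : ‖((1, w) : ℝ × P)‖ ≤ 1 + V := by
    rw [Prod.norm_def]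
    apply max_le
    · simp only [norm_one]
      linarith
    · simp only
      linarith
  have hGd : ∀ θ, HasDerivAt G (fderiv ℝ (iteratedFDeriv ℝ 1 F) (q0 + θ • e0) e0
      (fun _ => ((1, w) : ℝ × P)) + fderiv ℝ (iteratedFDeriv ℝ 2 F) (q0 + θ • e0) e0 (fun _ => e2) +
      fderiv ℝ (iteratedFDeriv ℝ 2 F) (q0 + θ • e0) e0 (fun _ => e3)) θ := by
    intro θ
    have h1 := ((line_iter hsm 1 (fun _ => ((1, w) : ℝ × P)) q0 e0 θ).fun_add
      (line_iter hsm 2 (fun _ => e2) q0 e0 θ)).fun_add (line_iter hsm 2 (fun _ => e3) q0 e0 θ)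
    refine h1.congr_of_eventuallyEq (Eventually.of_forall fun θ => ?_)
    exact hGe θ
  have hGb : ∀ θ ∈ Icc (0 : ℝ) s, |G θ - G 0| ≤ (C * (3 + V)) * s := by
    intro θ hθ
    have h2 := Convex.norm_image_sub_le_of_norm_hasDerivWithin_le (f := G) (C := C * (3 + V))
      (s := Icc 0 s) (x := 0) (y := θ) (fun t _ => (hGd t).hasDerivWithinAt) (fun τ hτ => by
        have h1 : q0 + τ • e0 = (t + τ, x) := by
          rw [hq0, he0]
          refine Prod.ext ?_ ?_ <;> simp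
        have b : ∀ n : ℕ, n ≤ 3 → ‖iteratedFDeriv ℝ n F (q0 + τ • e0)‖ ≤ C := fun n hn => by
          rw [h1]
          exact hΦ.bd n hn _ _ (by linarith [hτ.1]) (by linarith [hτ.2])
        have c1 := iter_bd 1 (fun _ => ((1, w) : ℝ × P)) (q0 + τ • e0) e0 (b 2 (by norm_num))
        have c2 := iter_bd 2 (fun _ => e2) (q0 + τ • e0) e0 (b 3 (by norm_num))
        have c3 := iter_bd 2 (fun _ => e3) (q0 + τ • e0) e0 (b 3 (by norm_num))
        simp only [Finset.prod_const, Finset.card_univ, Fintype.card_fin, pow_one] at c1 c2 c3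
        rw [show ‖e0‖ = 1 from norm_e1] at c1 c2 c3
        rw [show ‖e2‖ = 1 from norm_e2] at c2
        rw [show ‖e3‖ = 1 from norm_e3] at c3
        have c4 : C * 1 * ‖((1, w) : ℝ × P)‖ ≤ C * (1 + V) := by
          rw [mul_one]
          exact mul_le_mul_of_nonneg_left hn1 hC
        rw [Real.norm_eq_abs]
        refine (abs_add_le _ _).trans ((add_le_add_left (abs_add_le _ _) _).trans ?_)
        linarith) (convex_Icc 0 s) ⟨le_rfl, hs.le⟩ hθ
    rw [Real.norm_eq_abs, sub_zero, Real.norm_eq_abs, abs_of_nonneg hθ.1] at h2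
    exact h2.trans (mul_le_mul_of_nonneg_left hθ.2 (by positivity))
  have hGc : Continuous G := continuous_iff_continuousAt.2 fun θ => (hGd θ).continuousAt
  have E3 : |(∫ θ in (0 : ℝ)..s, G θ) - s * G 0| ≤ (C * (3 + V)) * s * s := by
    have h1 : (∫ θ in (0 : ℝ)..s, G θ) - s * G 0 = ∫ θ in (0 : ℝ)..s, (G θ - G 0) := by
      rw [intervalIntegral.integral_sub (hGc.intervalIntegrable _ _) intervalIntegrable_const,
        intervalIntegral.integral_const]
      simp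
    rw [h1]
    have h2 := intervalIntegral.norm_integral_le_of_norm_le_const (a := 0) (b := s)
      (f := fun θ => G θ - G 0) (C := (C * (3 + V)) * s) (fun θ hθ => by
        rw [uIoc_of_le hs.le] at hθ
        exact hGb θ ⟨hθ.1.le, hθ.2⟩)
    rw [sub_zero, abs_of_pos hs] at h2
    exact h2
  -- the linear terms cancel
  have hG0 : s * G 0 = D1 a + s * (D2 e2 e2 + D2 e3 e3) := by
    have h1 : a = s • ((1, w) : ℝ × P) := by
      rw [ha]
      refine Prod.ext ?_ ?_ <;> simp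
    rw [hGe 0, zero_smul, add_zero, iteratedFDeriv_one_apply, iteratedFDeriv_two_apply,
      iteratedFDeriv_two_apply, h1, map_smul, smul_eq_mul]
    ring
  have e1 : (∫ z, Φ (t + s) (x + s • w + z) ∂μ) - Φ t x - ∫ θ in (0 : ℝ)..s, G θ =
      ((∫ z, Φ (t + s) (x + s • w + z) ∂μ) - ∫ z, (F q0 + D1 (s, s • w + z) +
      1 / 2 * D2 (s, s • w + z) (s, s • w + z)) ∂μ) + 1 / 2 * D2 a a -
      ((∫ θ in (0 : ℝ)..s, G θ) - s * G 0) := by
    rw [mT, hG0]
    have : F q0 = Φ t x := rfl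
    rw [← this]
    ring
  have hpow : (1 : ℝ) ≤ (1 + V) ^ 3 := one_le_pow₀ (by linarith)
  have hp2 : (1 + V) ^ 2 ≤ (1 + V) ^ 3 := pow_le_pow_right₀ (by linarith) (by norm_num)
  have hp1 : (1 + V) ≤ (1 + V) ^ 3 := le_self_pow₀ (by linarith) (by norm_num)
  have hs2 : s ^ 2 ≤ s * √s := by nlinarith
  have hs3 : s ^ 3 ≤ s * √s := by nlinarith [pow_pos hs 2]
  have hsr : 0 ≤ s * √s := by positivity
  change |(∫ z, Φ (t + s) (x + s • w + z) ∂μ) - Φ t x - ∫ θ in (0 : ℝ)..s, G θ| ≤ _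
  rw [e1]
  have f1 : (s * (1 + V)) ^ 3 ≤ (1 + V) ^ 3 * (s * √s) := by
    rw [mul_pow]
    nlinarith
  have f2 : (s * (1 + V)) ^ 2 ≤ (1 + V) ^ 3 * (s * √s) := by
    rw [mul_pow]
    calc s ^ 2 * (1 + V) ^ 2 ≤ (s * √s) * (1 + V) ^ 3 :=
          mul_le_mul hs2 hp2 (by positivity) hsr
      _ = _ := by ring
  have f3 : (3 + V) * s * s ≤ 3 * ((1 + V) ^ 3 * (s * √s)) := by
    have h1 : (3 + V) ≤ 3 * (1 + V) ^ 3 := by linarith
    calc (3 + V) * s * s = (3 + V) * s ^ 2 := by ring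
      _ ≤ (3 * (1 + V) ^ 3) * (s * √s) := mul_le_mul h1 hs2 (by positivity) (by positivity)
      _ = _ := by ring
  have f4 : K0 * (s * √s) ≤ K0 * ((1 + V) ^ 3 * (s * √s)) := by
    apply mul_le_mul_of_nonneg_left _ hK0
    nlinarith
  have g1 : C * (4 * ((s * (1 + V)) ^ 3 + 2 * (K0 * (s * √s)))) ≤
      C * (4 * ((1 + V) ^ 3 * (s * √s) + 2 * (K0 * ((1 + V) ^ 3 * (s * √s))))) := by
    apply mul_le_mul_of_nonneg_left _ hC
    linarith
  have g2 : |1 / 2 * D2 a a| ≤ 1 / 2 * (C * ((1 + V) ^ 3 * (s * √s))) := by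
    rw [abs_mul, abs_of_pos (by norm_num : (0:ℝ) < 1 / 2)]
    have := E2.trans (mul_le_mul_of_nonneg_left f2 hC)
    linarith
  have g3 : (C * (3 + V)) * s * s ≤ C * (3 * ((1 + V) ^ 3 * (s * √s))) := by
    have := mul_le_mul_of_nonneg_left f3 hC
    linarith
  refine (abs_sub _ _).trans ((add_le_add ((abs_add_le _ _).trans (add_le_add (E1.trans g1) g2))
    (E3.trans g3)).trans ?_)
  have hX : 0 ≤ C * ((1 + V) ^ 3 * (s * √s)) := by positivity
  nlinarith

end Pool.Agent.Q61.AD
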