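import Mathlib

/-!
# Advection-diffusion on the torus with drifts in `L^r(0,T; L^∞)`, `r < 2`: definitions

The torus is `ℝ² / ℤ²`; functions on it are functions on `P = ℝ × ℝ` with period `1` in both
variables, and integrals are taken over the unit square `Q`.
-/

set_option autoImplicit false

namespace Pool.Agent.Q61.AD

open MeasureTheory Set

/-- The plane. -/
abbrev P := ℝ × ℝ

/-- The unit square, a fundamental domain of the torus. -/
def Q : Set P := Ico (0 : ℝ) 1 ×ˢ Ico (0 : ℝ) 1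

/-- Period `1` in both variables. -/
def Per {α : Type*} (f : P → α) : Prop := ∀ x y, f (x + 1, y) = f (x, y) ∧ f (x, y + 1) = f (x, y)

/-- Time derivative. -/
noncomputable def dt (Φ : ℝ → P → ℝ) (t : ℝ) (x : P) : ℝ := deriv (fun s => Φ s x) t

/-- Derivative in the first space variable. -/
noncomputable def dx (f : P → ℝ) (x : P) : ℝ := deriv (fun s => f (s, x.2)) x.1

/-- Derivative in the second space variable. -/
noncomputable def dy (f : P → ℝ) (x : P) : ℝ := deriv (fun s => f (x.1, s)) x.2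

/-- The Laplacian. -/
noncomputable def lap (f : P → ℝ) (x : P) : ℝ := dx (dx f) x + dy (dy f) x

/-- Smooth functions on `ℝ × 𝕋²`. -/
structure Tst (Φ : ℝ → P → ℝ) : Prop where
  smooth : ContDiff ℝ (⊤ : ℕ∞) (fun q : ℝ × P => Φ q.1 q.2)
  per : ∀ t, Per (Φ t)

/-- `∂_t Φ + b · ∇ Φ + Δ Φ`. -/
noncomputable def D (b : ℝ → P → P) (Φ : ℝ → P → ℝ) (t : ℝ) (x : P) : ℝ :=
  dt Φ t x + (b t x).1 * dx (Φ t) x + (b t x).2 * dy (Φ t) x + lap (Φ t) x

end Pool.Agent.Q61.AD
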