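import Pool.Agent.Q61.AD.LIM
import Pool.Agent.Q61.AD.Cns
import Pool.Agent.Q13.AD.B0
import Pool.Agent.Q13.AD.B2bc
import Pool.Agent.Q13.AD.B3
import Pool.Agent.Q222.AD.P12
import Pool.Agent.Q222.AD.P3
import Pool.Agent.Q222.AD.P4
import Pool.Agent.Q222.AD.Sh
import Pool.Agent.Q222.AD.Jmp
import Pool.Agent.Q222.AD.Wl
import Pool.Agent.Q222.AD.Cor
import Pool.Agent.Q222.AD.Np

/-!
# Advection-diffusion with drifts in `L^r(0,T; L^∞)`, `r < 2`: assembly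
-/

set_option autoImplicit false

namespace Pool.Agent.Q61.AD

open MeasureTheory Set Filter Topology ProbabilityTheory

theorem f0 : S_B0 := Pool.Agent.Q13.AD.b0

theorem f1 : S_B1 := Pool.Agent.Q13.AD.b1 f0

theorem f2 : S_B2 := b2_of (Pool.Agent.Q13.AD.b2a f0) (Pool.Agent.Q13.AD.b2b f0)
  (Pool.Agent.Q13.AD.b2c f0)

theorem f3 : S_B3 := Pool.Agent.Q13.AD.b3 f0 Pool.Agent.Q222.AD.t_SH

theorem ftb : S_TBD := Pool.Agent.Q124.AD.tbd

theorem fcas : S_CAS := cas (stg (seg con ftb) (conc ftb) Pool.Agent.Q222.AD.t_P1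
  Pool.Agent.Q222.AD.t_P2 Pool.Agent.Q222.AD.t_P3 Pool.Agent.Q222.AD.t_P4 Pool.Agent.Q222.AD.t_SH)
  (conc ftb) f0 f1 f2

theorem fblk : S_BLK := blk fcas (frz ftb) mon (conc ftb) (Pool.Agent.Q222.AD.t_JMP ftb)
  (ht con ftb) Pool.Agent.Q222.AD.t_P1 Pool.Agent.Q222.AD.t_P3 Pool.Agent.Q222.AD.t_P4 f0 f1 f2

theorem fapp : S_APP := app fblk (frz ftb) mon (conc ftb) f0 f2

theorem flim : S_LIM := lim_exists fapp Pool.Agent.Q222.AD.t_WL Pool.Agent.Q222.AD.t_COR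
  Pool.Agent.Q124.AD.tbx ftb f0 f2

theorem fnp : S_NP := Pool.Agent.Q222.AD.t_NP

/-- Test functions which vanish for `t ≥ T'`: the integrand vanishes for `t > T'`. -/
theorem D_zero {b : ℝ → P → P} {Φ : ℝ → P → ℝ} {T' : ℝ} (h : ∀ t, T' ≤ t → ∀ x, Φ t x = 0)
    {t : ℝ} (ht : T' < t) (x : P) : D b Φ t x = 0 := by
  have h1 : Φ t = fun _ => 0 := funext fun x => h t ht.le x
  have h2 : dt Φ t x = 0 := by
    unfold dt
    have : (fun s => Φ s x) =ᶠ[𝓝 t] fun _ => (0 : ℝ) := by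
      filter_upwards [lt_mem_nhds ht] with s hs
      exact h s hs.le x
    rw [this.deriv_eq, deriv_const]
  unfold D
  rw [h2, h1]
  simp [dx, dy, lap]

end Pool.Agent.Q61.AD
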