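import Pool.Agent.Q61.AD.A4

/-!
# The splitting scheme: bounds and comparison
-/

set_option autoImplicit false

namespace Pool.Agent.Q61.AD

open MeasureTheory Set Filter Topology ProbabilityTheory

theorem Shr.meas_map {v : P → P} {V : ℝ} (hv : Shr v V) (θ : ℝ) :
    Measurable (fun x : P => x - θ • v x) :=
  measurable_id.sub (hv.meas.const_smul θ)

theorem Bd.comp_shr {M V : ℝ} {v : P → P} {g : P → ℝ} (hg : Bd M g) (hv : Shr v V) (θ : ℝ) :
    Bd M (fun x => g (x - θ • v x)) := by
  refine ⟨hg.1.comp (hv.meas_map θ), fun x y => ?_, fun x => hg.2.2 _⟩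
  have h := hg.2.1 (x - θ * (v (x, y)).1) (y - θ * (v (x, y)).2)
  constructor
  · have h1 := h.1
    simp only [(hv.per x y).1]
    rw [show x - θ * (v (x, y)).1 + 1 = x + 1 - θ * (v (x, y)).1 by ring] at h1
    exact h1
  · have h1 := h.2
    simp only [(hv.per x y).2]
    rw [show y - θ * (v (x, y)).2 + 1 = y + 1 - θ * (v (x, y)).2 by ring] at h1
    exact h1

theorem PerN.comp_shr {i : ℕ} {v : P → P} {g : P → ℝ} (hg : PerN i g) (hv : PerN i v) (θ : ℝ) :
    PerN i (fun x => g (x - θ • v x)) := by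
  intro x y
  have h := hg (x - θ * (v (x, y)).1) (y - θ * (v (x, y)).2)
  constructor
  · have h1 := h.1
    simp only [(hv x y).1]
    rw [show x - θ * (v (x, y)).1 + 1 / (i : ℝ) = x + 1 / (i : ℝ) - θ * (v (x, y)).1 by ring] at h1
    exact h1
  · have h1 := h.2
    simp only [(hv x y).2]
    rw [show y - θ * (v (x, y)).2 + 1 / (i : ℝ) = y + 1 / (i : ℝ) - θ * (v (x, y)).2 by ring] at h1
    exact h1

theorem Shr.pres' {v : P → P} {V : ℝ} (hv : Shr v V) {M : ℝ} {f : P → ℝ} (hf : Bd M f) (s : ℝ) :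
    ∫ x in Q, f (x - s • v x) = ∫ x in Q, f x := by
  have h := hv.pres (-s) M f hf
  simpa [sub_eq_add_neg] using h

theorem Shr.inv' {v : P → P} {V : ℝ} (hv : Shr v V) (s : ℝ) (x : P) : v (x - s • v x) = v x := by
  have h := hv.inv (-s) x
  simpa [sub_eq_add_neg] using h

theorem itr_succ (v : P → P) (s : ℝ) (f : P → ℝ) (n : ℕ) :
    itr v s f (n + 1) = A s (fun x => itr v s f n (x - s • v x)) := by
  unfold itr
  rw [Function.iterate_succ_apply']
  rfl

theorem itr_bd {s M V : ℝ} {v : P → P} {f : P → ℝ} (hs : 0 < s) (hv : Shr v V) (hf : Bd M f)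
    (n : ℕ) : Bd M (itr v s f n) := by
  induction n with
  | zero => exact hf
  | succ n ih =>
    rw [itr_succ]
    exact a1 s M _ hs (ih.comp_shr hv s)

theorem it1 : S_IT1 := by
  intro s M V v f hs hv hf n
  refine ⟨itr_bd hs hv hf n, ?_, ?_, ?_⟩
  · induction n with
    | zero => rfl
    | succ n ih =>
      rw [itr_succ, (a6 s M _ hs ((itr_bd hs hv hf n).comp_shr hv s)).1,
        hv.pres' (itr_bd hs hv hf n) s, ih]
  · intro i hi hvi hfi
    induction n with
    | zero => exact hfi
    | succ n ih =>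
      rw [itr_succ]
      exact (a6 s M _ hs ((itr_bd hs hv hf n).comp_shr hv s)).2 i hi (ih.comp_shr hvi s)
  · intro F L hL hF hLip
    induction n with
    | zero => simp [itr]
    | succ n ih =>
      have hns : (n : ℝ) * s ≤ ((n + 1 : ℕ) : ℝ) * s := by
        push_cast
        nlinarith
      have h1 := ih fun θ hθ => hLip θ ⟨hθ.1, hθ.2.trans hns⟩
      have hg := (itr_bd hs hv hf n)
      have hFn : Bd 1 (fun x => F (x - ((n + 1 : ℕ) * s : ℝ) • v x)) := hF.comp_shr hv _
      have hLn : Lip L (fun x => F (x - ((n + 1 : ℕ) * s : ℝ) • v x)) :=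
        hLip _ ⟨by positivity, le_rfl⟩
      have h2 := a4 s M 1 L _ _ hs (hg.comp_shr hv s) hFn hL hLn
      rw [itr_succ]
      refine h2.trans ?_
      have h3 : ∫ x in Q, (itr v s f n (x - s • v x) - F (x - ((n + 1 : ℕ) * s : ℝ) • v x)) ^ 2 =
          ∫ x in Q, (itr v s f n x - F (x - (n * s : ℝ) • v x)) ^ 2 := by
        have hb := (hg.sub (hF.comp_shr hv (n * s))).sq
        rw [← hv.pres' hb s]
        refine integral_congr_ae (Eventually.of_forall fun x => ?_)
        simp only [hv.inv' s x]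
        congr 3
        rw [sub_sub, ← add_smul]
        push_cast
        ring_nf
      rw [h3]
      push_cast
      nlinarith

theorem it2 : S_IT2 := by
  intro s M f hs hf n hn
  obtain ⟨n, rfl⟩ : ∃ m, n = m + 1 := ⟨n - 1, by omega⟩
  clear hn
  induction n with
  | zero =>
    unfold itr
    simp [stp]
  | succ n ih =>
    rw [itr_succ, ih]
    have e : (fun x : P => A (((n + 1 : ℕ) : ℝ) * s) f (x - s • (0 : P))) =
        A (((n + 1 : ℕ) : ℝ) * s) f := by
      funext x
      simp
    rw [e, a3 s _ M f hs (by positivity) hf]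
    congr 1
    push_cast
    ring

end Pool.Agent.Q61.AD
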