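import Pool.Agent.Q61.AD.IT1

/-!
# The splitting scheme: the error in the equation
-/

set_option autoImplicit false

namespace Pool.Agent.Q61.AD

open MeasureTheory Set Filter Topology ProbabilityTheory

/-- The operator on test functions for the time-independent field `v`. -/
noncomputable def HH (v : P → P) (Φ : ℝ → P → ℝ) (t : ℝ) (x : P) : ℝ :=
  dt Φ t x + (v x).1 * dx (Φ t) x + (v x).2 * dy (Φ t) x + lap (Φ t) x

theorem HH_meas (hD : S_TBD) {R C : ℝ} {Φ : ℝ → P → ℝ} (hΦ : TB R C Φ) {v : P → P}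
    (hv : Measurable v) : Measurable (fun q : ℝ × P => HH v Φ q.1 q.2) := by
  obtain ⟨⟨h1, h2, h3, h4, h5⟩, -⟩ := hD R C Φ hΦ
  unfold HH
  exact ((h2.measurable.add (((measurable_fst.comp hv).comp measurable_snd).mul h3.measurable)).add
    (((measurable_snd.comp hv).comp measurable_snd).mul h4.measurable)).add h5.measurable

theorem TB.C_nonneg {R C : ℝ} {Φ : ℝ → P → ℝ} (hΦ : TB R C Φ) {a : ℝ} (ha : 0 ≤ a) (haR : a ≤ R) :
    0 ≤ C := (norm_nonneg _).trans (hΦ.bd 0 (by norm_num) a 0 ha haR)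

theorem HH_bd (hD : S_TBD) {R C V : ℝ} {Φ : ℝ → P → ℝ} (hΦ : TB R C Φ) {v : P → P}
    (hV : ∀ x, ‖v x‖ ≤ V) {t : ℝ} (h0 : 0 ≤ t) (hR : t ≤ R) (x : P) :
    |HH v Φ t x| ≤ (3 + 2 * V) * C := by
  obtain ⟨-, h⟩ := hD R C Φ hΦ
  obtain ⟨-, h2, h3, h4, h5⟩ := h t x h0 hR
  have hC := hΦ.C_nonneg h0 hR
  have h6 : |(v x).1| ≤ V := (norm_fst_le (v x)).trans (hV x)
  have h7 : |(v x).2| ≤ V := (norm_snd_le (v x)).trans (hV x)
  have hV0 : 0 ≤ V := (abs_nonneg _).trans h6
  have e1 : |(v x).1 * dx (Φ t) x| ≤ V * C := by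
    rw [abs_mul]
    exact mul_le_mul h6 h3 (abs_nonneg _) hV0
  have e2 : |(v x).2 * dy (Φ t) x| ≤ V * C := by
    rw [abs_mul]
    exact mul_le_mul h7 h4 (abs_nonneg _) hV0
  unfold HH
  calc _ ≤ |dt Φ t x + (v x).1 * dx (Φ t) x + (v x).2 * dy (Φ t) x| + |lap (Φ t) x| :=
        abs_add_le _ _
    _ ≤ |dt Φ t x + (v x).1 * dx (Φ t) x| + |(v x).2 * dy (Φ t) x| + |lap (Φ t) x| := by
        gcongr
        exact abs_add_le _ _
    _ ≤ |dt Φ t x| + |(v x).1 * dx (Φ t) x| + |(v x).2 * dy (Φ t) x| + |lap (Φ t) x| := by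
        gcongr
        exact abs_add_le _ _
    _ ≤ C + V * C + V * C + 2 * C := by gcongr
    _ = _ := by ring

theorem TB.bdΦ (hD : S_TBD) {R C : ℝ} {Φ : ℝ → P → ℝ} (hΦ : TB R C Φ) {t : ℝ} (h0 : 0 ≤ t)
    (hR : t ≤ R) : Bd C (Φ t) := by
  obtain ⟨⟨h1, -⟩, h⟩ := hD R C Φ hΦ
  exact ⟨(h1.comp (Continuous.prodMk_right t)).measurable, hΦ.per t, fun x => (h t x h0 hR).1⟩

/-- One step of the scheme. -/
theorem one_step_err (hD : S_TBD) {K : ℝ} (hK0 : 0 ≤ K)
    (hK : ∀ (R C : ℝ) (Φ : ℝ → P → ℝ), TB R C Φ →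
      ∀ (t s V : ℝ) (w x : P), 0 ≤ t → 0 < s → s ≤ 1 → t + s ≤ R → ‖w‖ ≤ V →
      |(∫ z, Φ (t + s) (x + s • w + z) ∂((gm s).prod (gm s))) - Φ t x -
        ∫ θ in (0 : ℝ)..s, (dt Φ (t + θ) x + w.1 * dx (Φ (t + θ)) x + w.2 * dy (Φ (t + θ)) x +
          lap (Φ (t + θ)) x)| ≤ K * C * (1 + V) ^ 3 * (s * √s))
    {R C M V s t : ℝ} {Φ : ℝ → P → ℝ} (hΦ : TB R C Φ) {v : P → P} (hv : Shr v V) {f : P → ℝ}
    (hf : Bd M f) (ht : 0 ≤ t) (hs : 0 < s) (hs1 : s ≤ 1) (htR : t + s ≤ R) :
    |(∫ x in Q, A s (fun y => f (y - s • v y)) x * Φ (t + s) x) - (∫ x in Q, f x * Φ t x) -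
      ∫ θ in t..(t + s), ∫ x in Q, f x * HH v Φ θ x| ≤ M * (K * C * (1 + V) ^ 3 * (s * √s)) := by
  have hM := hf.nonneg
  have hC := hΦ.C_nonneg ht (by linarith)
  have hV0 : 0 ≤ V := (norm_nonneg _).trans (hv.bd 0)
  have hΦs : Bd C (Φ (t + s)) := hΦ.bdΦ hD (by linarith) htR
  have hΦt : Bd C (Φ t) := hΦ.bdΦ hD ht (by linarith)
  have hHm := HH_meas hD hΦ hv.meas
  -- the first integral
  have e1 : ∫ x in Q, A s (fun y => f (y - s • v y)) x * Φ (t + s) x =
      ∫ x in Q, f x * A s (Φ (t + s)) (x + s • v x) := by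
    rw [a2 s M C _ _ hs (hf.comp_shr hv s) hΦs]
    have hb : Bd (M * C) (fun x => f (x - s • v x) * A s (Φ (t + s)) x) :=
      (hf.comp_shr hv s).mul (a1 s C _ hs hΦs) hM
    rw [← hv.pres s _ _ hb]
    refine integral_congr_ae (Eventually.of_forall fun x => ?_)
    simp only [hv.inv s x, add_sub_cancel_right]
  -- the last integral
  have e2 : ∫ θ in t..(t + s), ∫ x in Q, f x * HH v Φ θ x =
      ∫ x in Q, f x * ∫ θ in (0 : ℝ)..s, HH v Φ (t + θ) x := by
    have e3 : ∀ x, f x * ∫ θ in (0 : ℝ)..s, HH v Φ (t + θ) x =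
        ∫ θ in Ioc t (t + s), f x * HH v Φ θ x := by
      intro x
      rw [integral_const_mul]
      congr 1
      have := intervalIntegral.integral_comp_add_left (a := 0) (b := s)
        (fun θ => HH v Φ θ x) t
      rw [this, add_zero, intervalIntegral.integral_of_le (by linarith)]
    rw [intervalIntegral.integral_of_le (by linarith)]
    simp_rw [e3]
    rw [integral_integral_swap]
    refine Integrable.of_bound (C := M * ((3 + 2 * V) * C)) ?_ ?_
    · exact ((hf.1.comp measurable_snd).mul hHm).aestronglyMeasurable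
    · rw [Measure.ae_prod_iff_ae_ae]
      · refine (ae_restrict_mem measurableSet_Ioc).mono fun θ hθ => Eventually.of_forall fun x => ?_
        simp only [Function.uncurry]
        rw [Real.norm_eq_abs, abs_mul]
        exact mul_le_mul (hf.2.2 x) (HH_bd hD hΦ hv.bd (by linarith [hθ.1]) (by linarith [hθ.2]) x)
          (abs_nonneg _) hM
      · exact measurableSet_le ((hf.1.comp measurable_snd).mul hHm).norm measurable_const
  -- the error
  have hi1 : Integrable (fun x => f x * A s (Φ (t + s)) (x + s • v x)) (volume.restrict Q) := by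
    refine int_of_bd (M := M * C) ?_ fun x => ?_
    · exact hf.1.mul ((a1 s C _ hs hΦs).1.comp (measurable_id.add (hv.meas.const_smul s)))
    · rw [abs_mul]
      exact mul_le_mul (hf.2.2 x) ((a1 s C _ hs hΦs).2.2 _) (abs_nonneg _) hM
  have hi2 : Integrable (fun x => f x * Φ t x) (volume.restrict Q) := (hf.mul hΦt hM).int _
  have hJm : Measurable (fun x : P => ∫ θ in (0 : ℝ)..s, HH v Φ (t + θ) x) := by
    have h1 : Measurable (fun q : P × ℝ => HH v Φ (t + q.2) q.1) :=
      hHm.comp ((measurable_const.add measurable_snd).prodMk measurable_fst)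
    simp_rw [intervalIntegral.integral_of_le hs.le]
    exact (h1.stronglyMeasurable.integral_prod_right').measurable
  have hJb : ∀ x : P, |∫ θ in (0 : ℝ)..s, HH v Φ (t + θ) x| ≤ (3 + 2 * V) * C * s := by
    intro x
    have := intervalIntegral.norm_integral_le_of_norm_le_const (a := 0) (b := s)
      (f := fun θ => HH v Φ (t + θ) x) (C := (3 + 2 * V) * C) (fun θ hθ => by
        rw [uIoc_of_le hs.le] at hθ
        exact HH_bd hD hΦ hv.bd (by linarith [hθ.1]) (by linarith [hθ.2]) x)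
    rw [sub_zero, abs_of_pos hs] at this
    exact this
  have hi3 : Integrable (fun x => f x * ∫ θ in (0 : ℝ)..s, HH v Φ (t + θ) x)
      (volume.restrict Q) := by
    refine int_of_bd (M := M * ((3 + 2 * V) * C * s)) (hf.1.mul hJm) fun x => ?_
    rw [abs_mul]
    exact mul_le_mul (hf.2.2 x) (hJb x) (abs_nonneg _) hM
  rw [e1, e2, ← integral_sub hi1 hi2, ← integral_sub (hi1.sub' hi2) hi3]
  refine abs_int_le fun x => ?_
  have e4 : f x * A s (Φ (t + s)) (x + s • v x) - f x * Φ t x -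
      f x * ∫ θ in (0 : ℝ)..s, HH v Φ (t + θ) x =
      f x * (A s (Φ (t + s)) (x + s • v x) - Φ t x - ∫ θ in (0 : ℝ)..s, HH v Φ (t + θ) x) := by
    ring
  rw [e4, abs_mul]
  exact mul_le_mul (hf.2.2 x) (hK R C Φ hΦ t s V (v x) x ht hs hs1 htR (hv.bd x))
    (abs_nonneg _) hM

theorem evo_meas {s M V : ℝ} {v : P → P} {f : P → ℝ} (hs : 0 < s) (hv : Shr v V) (hf : Bd M f)
    (a : ℝ) (N : ℕ) : Measurable (fun q : ℝ × P => evo v s a f N q.1 q.2) := by
  have h1 : Measurable (fun q : ℕ × P => itr v s f q.1 q.2) :=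
    measurable_from_prod_countable_right fun k => (itr_bd hs hv hf k).1
  have h2 : Measurable (fun q : ℝ × P => (min N ⌊(q.1 - a) / s⌋₊, q.2)) := by
    refine Measurable.prodMk ?_ measurable_snd
    exact measurable_const.min (Nat.measurable_floor.comp
      ((measurable_fst.sub_const a).div_const s))
  exact h1.comp h2

theorem it3 (hCON : S_CON) (hD : S_TBD) : S_IT3 := by
  obtain ⟨K, hK0, hK⟩ := hCON
  refine ⟨K, hK0, ?_⟩
  intro R M a τ V b v f N hv ha hτ hR hb hM hf hN hN1
  have hN' : (0 : ℝ) < N := by exact_mod_cast hN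
  set s : ℝ := τ / N with hs
  have hs0 : 0 < s := by positivity
  have hNs : (N : ℝ) * s = τ := by
    rw [hs]
    field_simp
  refine ⟨evo_meas hs0 hv hf a N, fun t => itr_bd hs0 hv hf _, hf, itr_bd hs0 hv hf N, ?_⟩
  intro Φ C hΦ
  have hC : 0 ≤ C := hΦ.C_nonneg ha (by linarith)
  -- the time integrals over the pieces
  have hp : ∀ i : ℕ, i < N → 0 ≤ a + i * s ∧ a + i * s + s ≤ a + τ := by
    intro i hi
    have h1 : ((i : ℝ) + 1) ≤ N := by exact_mod_cast hi
    constructor
    · positivity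
    · have : ((i : ℝ) + 1) * s ≤ N * s := mul_le_mul_of_nonneg_right h1 hs0.le
      rw [hNs] at this
      linarith
  have hfl : ∀ i : ℕ, i < N → ∀ t ∈ Ico (a + i * s) (a + i * s + s),
      evo v s a f N t = itr v s f i := by
    intro i hi t ht
    unfold evo
    have h1 : ⌊(t - a) / s⌋₊ = i := by
      rw [Nat.floor_eq_iff]
      · constructor
        · rw [le_div_iff₀ hs0]
          linarith [ht.1]
        · rw [div_lt_iff₀ hs0]
          linarith [ht.2]
      · apply div_nonneg _ hs0.le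
        have : 0 ≤ (i : ℝ) * s := by positivity
        linarith [ht.1]
    rw [h1, min_eq_right hi.le]
  have hae : ∀ i : ℕ, i < N → ∀ᵐ t ∂(volume.restrict (Ioc (a + i * s) (a + i * s + s))),
      (∫ x in Q, evo v s a f N t x * D b Φ t x) = ∫ x in Q, itr v s f i x * HH v Φ t x := by
    intro i hi
    have h0 : ∀ᵐ t ∂(volume.restrict (Ioc (a + i * s) (a + i * s + s))),
        t ≠ a + i * s + s := by
      refine ae_restrict_of_ae ?_
      rw [ae_iff]
      simp
    filter_upwards [ae_restrict_mem measurableSet_Ioc, h0] with t ht ht0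
    have h1 : t ∈ Ico (a + i * s) (a + i * s + s) := ⟨ht.1.le, lt_of_le_of_ne ht.2 ht0⟩
    have h2 : t ∈ Ico a (a + τ) := by
      have := hp i hi
      have h3 : 0 ≤ (i : ℝ) * s := by positivity
      exact ⟨by linarith [h1.1], by linarith [h1.2]⟩
    rw [hfl i hi t h1]
    refine integral_congr_ae (Eventually.of_forall fun x => ?_)
    simp only [D, HH, hb t h2 x]
  have hHm := HH_meas hD hΦ hv.meas
  have hint : ∀ i : ℕ, i < N → IntegrableOn (fun t => ∫ x in Q, itr v s f i x * HH v Φ t x)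
      (Ioc (a + i * s) (a + i * s + s)) := by
    intro i hi
    have hfi := itr_bd hs0 hv hf i
    refine Integrable.of_bound (C := M * ((3 + 2 * V) * C)) ?_ ?_
    · have h1 : Measurable (fun q : ℝ × P => itr v s f i q.2 * HH v Φ q.1 q.2) :=
        (hfi.1.comp measurable_snd).mul hHm
      exact (h1.stronglyMeasurable.integral_prod_right').aestronglyMeasurable
    · filter_upwards [ae_restrict_mem measurableSet_Ioc] with t ht
      refine abs_int_le fun x => ?_
      rw [abs_mul]
      have h2 := hp i hi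
      exact mul_le_mul (hfi.2.2 x) (HH_bd hD hΦ hv.bd (by linarith [ht.1]) (by linarith [ht.2]) x)
        (abs_nonneg _) hM
  -- the sum
  have key : ∀ n : ℕ, n ≤ N →
      IntervalIntegrable (fun t => ∫ x in Q, evo v s a f N t x * D b Φ t x) volume a (a + n * s) ∧
      |(∫ x in Q, itr v s f n x * Φ (a + n * s) x) - (∫ x in Q, f x * Φ a x) -
        ∫ t in a..(a + n * s), ∫ x in Q, evo v s a f N t x * D b Φ t x| ≤
        n * (M * (K * C * (1 + V) ^ 3 * (s * √s))) := by
    intro n
    induction n with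
    | zero =>
      intro _
      simp [itr]
    | succ n ih =>
      intro hn
      obtain ⟨ih1, ih2⟩ := ih (by omega)
      have hpn := hp n (by omega)
      have e0 : a + ((n + 1 : ℕ) : ℝ) * s = a + n * s + s := by
        push_cast
        ring
      have hi2 : IntervalIntegrable (fun t => ∫ x in Q, evo v s a f N t x * D b Φ t x) volume
          (a + n * s) (a + n * s + s) := by
        rw [intervalIntegrable_iff_integrableOn_Ioc_of_le (by linarith)]
        refine (hint n (by omega)).congr ?_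
        filter_upwards [hae n (by omega)] with t ht
        exact ht.symm
      have hstep := one_step_err hD hK0 hK hΦ hv (itr_bd hs0 hv hf n) hpn.1 hs0 hN1
        (hpn.2.trans hR)
      rw [← itr_succ] at hstep
      have hJ : ∫ t in (a + n * s)..(a + n * s + s), ∫ x in Q, evo v s a f N t x * D b Φ t x =
          ∫ t in (a + n * s)..(a + n * s + s), ∫ x in Q, itr v s f n x * HH v Φ t x := by
        rw [intervalIntegral.integral_of_le (by linarith),
          intervalIntegral.integral_of_le (by linarith)]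
        exact integral_congr_ae (hae n (by omega))
      rw [e0]
      refine ⟨ih1.trans hi2, ?_⟩
      rw [← intervalIntegral.integral_add_adjacent_intervals ih1 hi2, hJ]
      have e1 : (∫ x in Q, itr v s f (n + 1) x * Φ (a + n * s + s) x) - (∫ x in Q, f x * Φ a x) -
          ((∫ t in a..(a + n * s), ∫ x in Q, evo v s a f N t x * D b Φ t x) +
          ∫ t in (a + n * s)..(a + n * s + s), ∫ x in Q, itr v s f n x * HH v Φ t x) =
          ((∫ x in Q, itr v s f n x * Φ (a + n * s) x) - (∫ x in Q, f x * Φ a x) -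
            ∫ t in a..(a + n * s), ∫ x in Q, evo v s a f N t x * D b Φ t x) +
          ((∫ x in Q, itr v s f (n + 1) x * Φ (a + n * s + s) x) -
            (∫ x in Q, itr v s f n x * Φ (a + n * s) x) -
            ∫ t in (a + n * s)..(a + n * s + s), ∫ x in Q, itr v s f n x * HH v Φ t x) := by ring
      rw [e1]
      refine (abs_add_le _ _).trans ((add_le_add ih2 hstep).trans (le_of_eq ?_))
      push_cast
      ring
  have h1 := (key N le_rfl).2
  rw [hNs] at h1
  refine h1.trans (le_of_eq ?_)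
  calc (N : ℝ) * (M * (K * C * (1 + V) ^ 3 * (s * √s))) =
        K * M * (1 + V) ^ 3 * (N * s) * √s * C := by ring
    _ = _ := by rw [hNs]

end Pool.Agent.Q61.AD
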