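import Pool.Agent.Q61.AD.APP

/-!
# The limit
-/

set_option autoImplicit false

namespace Pool.Agent.Q61.AD

open MeasureTheory Set Filter Topology ProbabilityTheory

/-- The measure on space-time. -/
noncomputable def mu (R : ℝ) : Measure (ℝ × P) :=
  (volume.restrict (Ioc 0 R)).prod (volume.restrict Q)

instance (R : ℝ) : IsFiniteMeasure (mu R) := by
  unfold mu
  infer_instance

theorem phi_cont (k : ℕ) : Continuous (phi k) := by
  unfold phi
  fun_prop

theorem phi_bd (k : ℕ) (x : P) : |phi k x| ≤ 1 := by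
  unfold phi
  rw [abs_mul]
  exact mul_le_one₀ (Real.abs_sin_le_one _) (abs_nonneg _) (Real.abs_sin_le_one _)

theorem win {R s e M : ℝ} (hs : 0 ≤ s) (hse : s ≤ e) (he : e ≤ R) {V : ℝ × P → ℝ}
    (hV : Measurable V) (hVb : ∀ q, |V q| ≤ M) (k : ℕ) :
    ∫ q, V q * (Ioo s e ×ˢ (univ : Set P)).indicator (fun q => phi k q.2) q ∂(mu R) =
      ∫ t in s..e, ∫ x in Q, V (t, x) * phi k x := by
  have hM : 0 ≤ M := (abs_nonneg _).trans (hVb 0)
  have hms : MeasurableSet (Ioo s e ×ˢ (univ : Set P)) := measurableSet_Ioo.prod MeasurableSet.univ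
  have hind : Measurable ((Ioo s e ×ˢ (univ : Set P)).indicator (fun q : ℝ × P => phi k q.2)) :=
    ((phi_cont k).measurable.comp measurable_snd).indicator hms
  have hib : ∀ q : ℝ × P, |(Ioo s e ×ˢ (univ : Set P)).indicator (fun q => phi k q.2) q| ≤ 1 := by
    intro q
    by_cases hq : q ∈ Ioo s e ×ˢ (univ : Set P)
    · rw [indicator_of_mem hq]
      exact phi_bd k q.2
    · rw [indicator_of_notMem hq]
      simp
  unfold mu
  rw [integral_prod]
  · have e1 : ∀ t : ℝ, ∫ x in Q, V (t, x) *
        (Ioo s e ×ˢ (univ : Set P)).indicator (fun q : ℝ × P => phi k q.2) (t, x) =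
        (Ioo s e).indicator (fun t => ∫ x in Q, V (t, x) * phi k x) t := by
      intro t
      by_cases ht : t ∈ Ioo s e
      · rw [indicator_of_mem ht]
        refine integral_congr_ae (Eventually.of_forall fun x => ?_)
        have : (t, x) ∈ Ioo s e ×ˢ (univ : Set P) := ⟨ht, trivial⟩
        simp only [indicator_of_mem this]
      · rw [indicator_of_notMem ht]
        have : ∀ x : P, (t, x) ∉ Ioo s e ×ˢ (univ : Set P) := fun x h => ht h.1
        simp [indicator_of_notMem (this _)]
    simp_rw [e1]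
    rw [setIntegral_indicator measurableSet_Ioo]
    have e2 : Ioc 0 R ∩ Ioo s e = Ioo s e := by
      rw [inter_eq_right]
      intro t ht
      exact ⟨by linarith [ht.1], by linarith [ht.2]⟩
    rw [e2, intervalIntegral.integral_of_le hse, integral_Ioc_eq_integral_Ioo]
  · refine int_of_bd (M := M * 1) (hV.mul hind) fun q => ?_
    rw [abs_mul]
    exact mul_le_mul (hVb q) (hib q) (abs_nonneg _) hM

theorem lim_exists (ha : S_APP) (hw : S_WL) (hcor : S_COR) (hx : S_TBX) (hD : S_TBD) (h0 : S_B0)
    (h2 : S_B2) : S_LIM := by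
  intro R hR
  have hR0 : 0 ≤ R := by linarith
  obtain ⟨hfld, hβ0, -, -⟩ := h2 R hR
  have happ := fun n : ℕ => ha R (n + 1) hR (by omega)
  choose un gn hE hW using happ
  obtain ⟨𝒰, U, h𝒰, hUm, hUb, hlim⟩ := hw (ℝ × P) (mu R) (8 / 7) (fun n q => un n q.1 q.2)
    (fun n => (hE n).1) (fun n q => ((hE n).2.1 q.1).2.2 q.2)
  have hfr : Measurable (fun q : ℝ × P => ((q.1, (Int.fract q.2.1, Int.fract q.2.2)) : ℝ × P)) := by
    refine measurable_fst.prodMk (Measurable.prodMk ?_ ?_)
    · exact measurable_fract.comp (measurable_fst.comp measurable_snd)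
    · exact measurable_fract.comp (measurable_snd.comp measurable_snd)
  set u : ℝ → P → ℝ := fun t x => U (t, (Int.fract x.1, Int.fract x.2)) with hu
  have huQ : ∀ t, ∀ x ∈ Q, u t x = U (t, x) := by
    intro t x hx
    have h1 : Int.fract x.1 = x.1 := Int.fract_eq_self.2 ⟨hx.1.1, hx.1.2⟩
    have h2 : Int.fract x.2 = x.2 := Int.fract_eq_self.2 ⟨hx.2.1, hx.2.2⟩
    simp only [hu, h1, h2]
  have hQm : MeasurableSet Q := measurableSet_Ico.prod measurableSet_Ico
  have hcong : ∀ (t : ℝ) (g : P → ℝ), ∫ x in Q, u t x * g x = ∫ x in Q, U (t, x) * g x := by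
    intro t g
    refine setIntegral_congr_fun hQm fun x hx => ?_
    simp only [huQ t x hx]
  refine ⟨u, hUm.comp hfr, fun t x y => ?_, fun t x => hUb _, ?_, ?_⟩
  · constructor
    · simp only [hu, Int.fract_add_one]
    · simp only [hu, Int.fract_add_one]
  · intro Φ hΦ hΦR
    obtain ⟨C, hC0, hTB⟩ := hx R Φ hΦ
    have hDm := D_meas hD hTB hfld.meas
    have hψ : Integrable (fun q : ℝ × P => D (fb R) Φ q.1 q.2) (mu R) := by
      have h1 : Integrable (fun t => (3 + 2 * bt R t) * C) (volume.restrict (Ioc 0 R)) := by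
        have h3 : Integrable (bt R) (volume.restrict (Ioc 0 R)) := hfld.int
        exact (((integrable_const 3).add (h3.const_mul 2)).mul_const C)
      have h4 : Integrable (fun q : ℝ × P => (3 + 2 * bt R q.1) * C) (mu R) :=
        h1.comp_fst (volume.restrict Q)
      refine h4.mono' hDm.aestronglyMeasurable ?_
      unfold mu
      rw [Measure.ae_prod_iff_ae_ae]
      · refine (ae_restrict_mem measurableSet_Ioc).mono fun t ht => Eventually.of_forall fun x => ?_
        exact D_bd hD hTB hfld ht.1.le ht.2 x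
      · exact measurableSet_le hDm.norm
          (((measurable_const.add ((hfld.measβ.comp measurable_fst).const_mul 2))).mul_const C)
    have hprod : ∀ V : ℝ × P → ℝ, Measurable V → (∀ q, |V q| ≤ 8 / 7) →
        ∫ q, V q * D (fb R) Φ q.1 q.2 ∂(mu R) =
          ∫ t in (0 : ℝ)..R, ∫ x in Q, V (t, x) * D (fb R) Φ t x := by
      intro V hV hVb
      rw [intervalIntegral.integral_of_le hR0]
      unfold mu
      rw [integral_prod]
      exact hψ.bdd_mul hV.aestronglyMeasurable (c := 8 / 7) (Eventually.of_forall hVb)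
    have hl := hlim _ hψ
    rw [hprod U hUm hUb] at hl
    have hzero : Tendsto (fun n => ∫ q, un n q.1 q.2 * D (fb R) Φ q.1 q.2 ∂(mu R)) 𝒰 (𝓝 0) := by
      have h1 : Tendsto (fun n : ℕ => 4 / 2 ^ (n + 1) * C) atTop (𝓝 0) := by
        have h3 : Tendsto (fun n : ℕ => (1 / 2 : ℝ) ^ n) atTop (𝓝 0) :=
          tendsto_pow_atTop_nhds_zero_of_lt_one (by norm_num) (by norm_num)
        have h4 : Tendsto (fun n : ℕ => 2 * C * (1 / 2 : ℝ) ^ n) atTop (𝓝 (2 * C * 0)) :=
          h3.const_mul _
        rw [mul_zero] at h4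
        refine h4.congr fun n => ?_
        rw [one_div, inv_pow, pow_succ]
        field_simp
        ring
      refine squeeze_zero_norm (fun n => ?_) (h1.mono_left h𝒰)
      have h5 := (hE n).2.2.2.2 Φ C hTB
      rw [hprod _ (hE n).1 (fun q => ((hE n).2.1 q.1).2.2 q.2)]
      simp only [hΦR, mul_zero, zero_mul, integral_zero, sub_self, zero_sub, abs_neg] at h5
      exact h5
    have := tendsto_nhds_unique hl hzero
    simp_rw [hcong]
    exact this
  · intro k hk
    obtain ⟨-, -, hc⟩ := hcor k hk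
    obtain ⟨st0, st1⟩ := st_sgk_le h0 hR hk 0
    simp only [zero_add] at st1
    have hst1 := st_le hR (k - 1)
    have s10 := (h0.2.1 k 1).1
    set s : ℝ := st R k + sgk k 1 with hs
    set wd : ℝ := 1 / (10 ^ 9 * 4 ^ k) with hwd
    have hwd0 : 0 < wd := by positivity
    have hw8 : wd ≤ 8 / 4 ^ k := by
      rw [hwd, div_le_div_iff₀ (by positivity) (by positivity)]
      have : (0 : ℝ) < 4 ^ k := by positivity
      nlinarith
    have hs0 : 0 ≤ s := by linarith
    have hsR : s + wd ≤ R := by linarith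
    have hψ : Integrable ((Ioo s (s + wd) ×ˢ (univ : Set P)).indicator
        (fun q : ℝ × P => phi k q.2)) (mu R) := by
      refine int_of_bd (M := 1) (((phi_cont k).measurable.comp measurable_snd).indicator
        (measurableSet_Ioo.prod MeasurableSet.univ)) fun q => ?_
      by_cases hq : q ∈ Ioo s (s + wd) ×ˢ (univ : Set P)
      · rw [indicator_of_mem hq]
        exact phi_bd k q.2
      · rw [indicator_of_notMem hq]
        simp
    have hl := hlim _ hψ
    rw [win hs0 (by linarith) hsR hUm hUb k] at hl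
    simp_rw [hcong]
    refine ge_of_tendsto hl ?_
    have hev : ∀ᶠ n in (𝒰 : Filter ℕ), k ≤ n := h𝒰 (eventually_ge_atTop k)
    filter_upwards [hev] with n hn
    rw [win hs0 (by linarith) hsR (hE n).1 (fun q => ((hE n).2.1 q.1).2.2 q.2) k]
    have hint : IntervalIntegrable (fun t => ∫ x in Q, un n t x * phi k x) volume s (s + wd) := by
      rw [intervalIntegrable_iff_integrableOn_Ioc_of_le (by linarith)]
      refine int_of_bd (M := 8 / 7 * 1) ?_ fun t => ?_
      · have h1 : Measurable (fun q : ℝ × P => un n q.1 q.2 * phi k q.2) :=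
          (hE n).1.mul ((phi_cont k).measurable.comp measurable_snd)
        exact (h1.stronglyMeasurable.integral_prod_right').measurable
      · refine abs_int_le fun x => ?_
        rw [abs_mul]
        exact mul_le_mul (((hE n).2.1 t).2.2 x) (phi_bd k x) (abs_nonneg _) (by norm_num)
    have h3 : ∫ t in s..(s + wd), (3 / 20 : ℝ) = 3 / 20 * wd := by
      rw [intervalIntegral.integral_const, smul_eq_mul]
      ring
    rw [← h3]
    refine intervalIntegral.integral_mono_on_of_le_Ioo (by linarith) intervalIntegrable_const hint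
      fun t ht => ?_
    exact hc (8 / 7) (un n t) ((hE n).2.1 t) (hW n k hk (by omega) t ⟨ht.1.le, ht.2⟩)

end Pool.Agent.Q61.AD
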