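import Pool.Agent.Q61.AD.IT3

/-!
# The splitting scheme: evolution along a segment of time
-/

set_option autoImplicit false

namespace Pool.Agent.Q61.AD

open MeasureTheory Set Filter Topology ProbabilityTheory

theorem Ev.mono_err {R M a c η η' : ℝ} {b : ℝ → P → P} {f g : P → ℝ} {u : ℝ → P → ℝ}
    (h : Ev R M b a c f g u η) (ha : 0 ≤ a) (haR : a ≤ R) (hη : η ≤ η') :
    Ev R M b a c f g u η' :=
  ⟨h.1, h.2.1, h.2.2.1, h.2.2.2.1, fun Φ C hΦ => (h.2.2.2.2 Φ C hΦ).trans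
    (mul_le_mul_of_nonneg_right hη (hΦ.C_nonneg ha haR))⟩

theorem exists_N (B τ ε : ℝ) (hε : 0 < ε) : ∃ N : ℕ, 0 < N ∧ τ / N ≤ 1 ∧
    B * √(τ / N) ≤ ε := by
  have h1 : Tendsto (fun n : ℕ => τ / (n : ℝ)) atTop (𝓝 0) :=
    tendsto_const_div_atTop_nhds_zero_nat τ
  have h2 : Tendsto (fun n : ℕ => B * √(τ / (n : ℝ))) atTop (𝓝 0) := by
    have := (h1.sqrt).const_mul B
    simpa using this
  have h3 := (h1.eventually (eventually_le_nhds (show (0:ℝ) < 1 by norm_num))).and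
    ((h2.eventually (eventually_le_nhds hε)).and (eventually_gt_atTop 0))
  obtain ⟨N, hN1, hN2, hN3⟩ := h3.exists
  exact ⟨N, hN3, hN1, hN2⟩

theorem seg (hCON : S_CON) (hD : S_TBD) : S_SEG := by
  obtain ⟨K, hK0, hK⟩ := it3 hCON hD
  intro R M a τ V ε b v f hv ha hτ hR hb hM hf hε
  obtain ⟨N, hN, hN1, hNε⟩ := exists_N (K * M * (1 + V) ^ 3 * τ) τ ε hε
  have hN' : (0 : ℝ) < N := by exact_mod_cast hN
  have hs : 0 < τ / N := by positivity
  have hNs : (N : ℝ) * (τ / N) = τ := by field_simp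
  have h1 := hK R M a τ V b v f N hv ha hτ hR hb hM hf hN hN1
  obtain ⟨-, h2, h3, h4⟩ := it1 (τ / N) M V v f hs hv hf N
  refine ⟨_, _, h1.mono_err ha (by linarith) hNε, h2, h3, ?_⟩
  intro F L hL hF hLip
  rw [hNs] at h4
  exact h4 F L hL hF hLip

theorem shr_zero : Shr (fun _ => (0 : P)) 0 := by
  refine ⟨measurable_const, fun _ _ => ⟨rfl, rfl⟩, fun _ => by simp, fun _ _ => rfl,
    fun s M f hf => ?_⟩
  simp

theorem ht (hCON : S_CON) (hD : S_TBD) : S_HT := by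
  obtain ⟨K, hK0, hK⟩ := it3 hCON hD
  intro R M a τ ε b f ha hτ hR hb hM hf hε
  obtain ⟨N, hN, hN1, hNε⟩ := exists_N (K * M * (1 + 0) ^ 3 * τ) τ ε hε
  have hN' : (0 : ℝ) < N := by exact_mod_cast hN
  have hs : 0 < τ / N := by positivity
  have hNs : (N : ℝ) * (τ / N) = τ := by field_simp
  have h1 := hK R M a τ 0 b (fun _ => 0) f N shr_zero ha hτ hR hb hM hf hN hN1
  rw [it2 (τ / N) M f hs hf N hN, hNs] at h1
  refine ⟨_, h1.mono_err ha (by linarith) hNε, ?_⟩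
  intro F L hL hF hLip t ht
  have h2 := (it1 (τ / N) M 0 (fun _ => 0) f hs shr_zero hf (min N ⌊(t - a) / (τ / N)⌋₊)).2.2.2
    F L hL hF (by
      intro θ _
      simpa using hLip)
  simp only [smul_zero, sub_zero] at h2
  unfold evo
  refine h2.trans ?_
  have h3 : ((min N ⌊(t - a) / (τ / N)⌋₊ : ℕ) : ℝ) * (τ / N) ≤ t - a := by
    have h4 : ((min N ⌊(t - a) / (τ / N)⌋₊ : ℕ) : ℝ) ≤ (t - a) / (τ / N) := by
      have h5 : ((min N ⌊(t - a) / (τ / N)⌋₊ : ℕ) : ℝ) ≤ (⌊(t - a) / (τ / N)⌋₊ : ℝ) := by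
        exact_mod_cast min_le_right _ _
      exact h5.trans (Nat.floor_le (div_nonneg (by linarith [ht.1]) hs.le))
    rwa [le_div_iff₀ hs] at h4
  have hL2 : 0 ≤ L ^ 2 := by positivity
  nlinarith

end Pool.Agent.Q61.AD
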