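import Pool.Agent.Q61.AD.CONC

/-!
# One stage
-/

set_option autoImplicit false

namespace Pool.Agent.Q61.AD

open MeasureTheory Set Filter Topology ProbabilityTheory

/-- Minkowski in `L²(Q)`. -/
theorem mink {α : Type*} [MeasurableSpace α] {μ : Measure α} [IsFiniteMeasure μ] {f g : α → ℝ}
    {M M' p q : ℝ} (hf : Measurable f) (hfb : ∀ x, |f x| ≤ M) (hg : Measurable g)
    (hgb : ∀ x, |g x| ≤ M') (hp : 0 ≤ p) (hq : 0 ≤ q)
    (h1 : ∫ x, f x ^ 2 ∂μ ≤ p ^ 2) (h2 : ∫ x, g x ^ 2 ∂μ ≤ q ^ 2) :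
    ∫ x, (f x + g x) ^ 2 ∂μ ≤ (p + q) ^ 2 := by
  have i1 : Integrable (fun x => f x ^ 2) μ := int_of_bd (M := M ^ 2) (hf.pow_const 2) fun x => by
    rw [abs_pow]
    exact pow_le_pow_left₀ (abs_nonneg _) (hfb x) 2
  have i2 : Integrable (fun x => g x ^ 2) μ := int_of_bd (M := M' ^ 2) (hg.pow_const 2) fun x => by
    rw [abs_pow]
    exact pow_le_pow_left₀ (abs_nonneg _) (hgb x) 2
  have i3 : Integrable (fun x => f x * g x) μ := by
    refine int_of_bd (M := M * M') (hf.mul hg) fun x => ?_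
    rw [abs_mul]
    exact mul_le_mul (hfb x) (hgb x) (abs_nonneg _) ((abs_nonneg _).trans (hfb x))
  have e1 : ∫ x, (f x + g x) ^ 2 ∂μ =
      ∫ x, f x ^ 2 ∂μ + 2 * (∫ x, f x * g x ∂μ) + ∫ x, g x ^ 2 ∂μ := by
    have : ∀ x, (f x + g x) ^ 2 = f x ^ 2 - (-2) * (f x * g x) + g x ^ 2 := fun x => by ring
    simp_rw [this]
    rw [int3 i1 (i3.const_mul _) i2, integral_const_mul]
    ring
  -- Cauchy-Schwarz in the form `∫ f g ≤ p q`
  have key : ∫ x, f x * g x ∂μ ≤ p * q := by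
    have ht : ∀ t : ℝ, 0 < t → 2 * (∫ x, f x * g x ∂μ) ≤ t * p ^ 2 + t⁻¹ * q ^ 2 := by
      intro t ht
      have h3 : 0 ≤ ∫ x, (t * f x - g x) ^ 2 ∂μ := integral_nonneg fun x => sq_nonneg _
      have e2 : ∫ x, (t * f x - g x) ^ 2 ∂μ =
          t ^ 2 * ∫ x, f x ^ 2 ∂μ - 2 * t * (∫ x, f x * g x ∂μ) + ∫ x, g x ^ 2 ∂μ := by
        have : ∀ x, (t * f x - g x) ^ 2 = t ^ 2 * f x ^ 2 - (2 * t) * (f x * g x) + g x ^ 2 :=
          fun x => by ring
        simp_rw [this]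
        rw [int3 (i1.const_mul _) (i3.const_mul _) i2, integral_const_mul, integral_const_mul]
      rw [e2] at h3
      have h4 : 2 * t * (∫ x, f x * g x ∂μ) ≤ t ^ 2 * p ^ 2 + q ^ 2 := by nlinarith [sq_nonneg t]
      have h5 : t⁻¹ * (2 * t * (∫ x, f x * g x ∂μ)) ≤ t⁻¹ * (t ^ 2 * p ^ 2 + q ^ 2) :=
        mul_le_mul_of_nonneg_left h4 (inv_pos.2 ht).le
      have e3 : t⁻¹ * (2 * t * (∫ x, f x * g x ∂μ)) = 2 * ∫ x, f x * g x ∂μ := by
        field_simp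
      have e4 : t⁻¹ * (t ^ 2 * p ^ 2 + q ^ 2) = t * p ^ 2 + t⁻¹ * q ^ 2 := by
        field_simp
      rw [e3, e4] at h5
      exact h5
    refine le_of_forall_pos_le_add fun ε hε => ?_
    -- choose `t = (q + δ) / (p + δ)`
    have hlim : Tendsto (fun δ : ℝ => ((q + δ) / (p + δ)) * p ^ 2 + ((q + δ) / (p + δ))⁻¹ * q ^ 2)
        (𝓝[>] 0) (𝓝 (2 * (p * q))) := by
      rcases hp.eq_or_lt with hp0 | hp0
      · rcases hq.eq_or_lt with hq0 | hq0
        · rw [← hp0, ← hq0]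
          simp
        · rw [← hp0]
          have hA : Tendsto (fun δ : ℝ => δ / (q + δ) * q ^ 2) (𝓝[>] 0) (𝓝 (0 / (q + 0) * q ^ 2)) :=
            tendsto_nhdsWithin_of_tendsto_nhds
              ((tendsto_id.div (tendsto_const_nhds.add tendsto_id) (by simp; exact hq0.ne')).mul_const _)
          simpa using hA
      · rcases hq.eq_or_lt with hq0 | hq0
        · rw [← hq0]
          have hA : Tendsto (fun δ : ℝ => δ / (p + δ) * p ^ 2) (𝓝[>] 0) (𝓝 (0 / (p + 0) * p ^ 2)) :=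
            tendsto_nhdsWithin_of_tendsto_nhds
              ((tendsto_id.div (tendsto_const_nhds.add tendsto_id) (by simp; exact hp0.ne')).mul_const _)
          simpa using hA
        · have hA : Tendsto (fun δ : ℝ => (q + δ) / (p + δ)) (𝓝[>] 0) (𝓝 ((q + 0) / (p + 0))) :=
            tendsto_nhdsWithin_of_tendsto_nhds
              ((tendsto_const_nhds.add tendsto_id).div (tendsto_const_nhds.add tendsto_id)
                (by simp; exact hp0.ne'))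
          have hB := (hA.mul_const (p ^ 2)).add ((hA.inv₀ (by
            simp only [add_zero]
            positivity)).mul_const (q ^ 2))
          refine hB.congr' (Eventually.of_forall fun _ => rfl) |>.trans (le_of_eq ?_)
          congr 1
          simp only [add_zero]
          field_simp
          ring
    have h6 := (hlim.eventually (eventually_lt_nhds (show 2 * (p * q) < 2 * (p * q) + 2 * ε by
      linarith))).and self_mem_nhdsWithin
    obtain ⟨δ, hδ1, hδ2⟩ := h6.exists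
    have hδ : (0 : ℝ) < δ := hδ2
    have h7 := ht ((q + δ) / (p + δ)) (by positivity)
    linarith
  rw [e1]
  nlinarith

/-- The triangle inequality in `L²(Q)`. -/
theorem tri {M₁ M₂ M₃ p q : ℝ} {f g h : P → ℝ} (hf : Bd M₁ f) (hg : Bd M₂ g) (hh : Bd M₃ h)
    (hp : 0 ≤ p) (hq : 0 ≤ q) (h1 : ∫ x in Q, (f x - g x) ^ 2 ≤ p ^ 2)
    (h2 : ∫ x in Q, (g x - h x) ^ 2 ≤ q ^ 2) : ∫ x in Q, (f x - h x) ^ 2 ≤ (p + q) ^ 2 := by
  have h3 := mink (hf.sub hg).1 (hf.sub hg).2.2 (hg.sub hh).1 (hg.sub hh).2.2 hp hq h1 h2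
  simpa using h3

theorem stg (hs : S_SEG) (hc : S_CONC) (h1 : S_P1) (h2 : S_P2) (h3 : S_P3) (h4 : S_P4)
    (hsh : S_SH) : S_STG := by
  intro R M a τ δ e ε j b β f hb hj hδ hδ2 ha hτ hτ2 hR hb1 hb2 hM hf he hfe hε
  have h2j : (0 : ℝ) < 2 ^ j := by positivity
  set V : ℝ := 1 / (2 ^ j * τ) with hV
  have hV0 : 0 < V := by positivity
  have hτV : τ * V = 1 / 2 ^ j := by
    rw [hV]
    field_simp
  have hτV2 : τ * (2 * V) = 2 / 2 ^ j := by
    rw [hV]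
    field_simp
  obtain ⟨s1, -, s2⟩ := hsh j V hj hV0.le
  obtain ⟨-, s3, s4⟩ := hsh j (2 * V) hj (by positivity)
  obtain ⟨p1, p2⟩ := h1 j δ hδ hδ2
  obtain ⟨q1, q2⟩ := h2 j δ hδ hδ2
  obtain ⟨bF, bc, bGH, -, -⟩ := h3 j δ (by omega) hδ hδ2
  obtain ⟨bG, bH⟩ := bGH hj
  have bc' : Bd 1 (chk (j - 1)) := (h3 (j - 1) δ (by omega) hδ hδ2).2.1
  obtain ⟨r1, r2⟩ := h4 j δ (by omega) hδ hδ2
  have r2 := r2 hj
  have hL : (0 : ℝ) ≤ 2 * 2 ^ j / δ := by positivity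
  obtain ⟨u1, g1, E1, I1, N1, C1⟩ := hs R M a τ V (ε / 2) b (vh j V) f s1 ha hτ (by linarith)
    hb1 hM hf (by positivity)
  have hg1 : Bd M g1 := E1.2.2.2.1
  have e0 : a + τ + τ = a + 2 * τ := by ring
  obtain ⟨u2, g2, E2, I2, N2, C2⟩ := hs R M (a + τ) τ (2 * V) (ε / 2) b (vv j (2 * V)) g1 s3
    (by linarith) hτ (by linarith) (by rwa [e0]) hM hg1 (by positivity)
  rw [e0] at E2
  have hg2 : Bd M g2 := E2.2.2.2.1
  have C1' := C1 (F0 j δ) (2 * 2 ^ j / δ) hL bF fun θ _ => p1 θ V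
  have C2' := C2 (G0 j δ) (2 * 2 ^ j / δ) hL bG fun θ _ => p2 θ (2 * V)
  simp_rw [q1 τ V hτV] at C1'
  simp_rw [q2 τ (2 * V) hτV2] at C2'
  have hconc := hc R M a (a + τ) (a + 2 * τ) (ε / 2) (ε / 2) b β f g1 g2 u1 u2 hb ha
    (by linarith) (by linarith) hR E1 E2
  rw [add_halves] at hconc
  refine ⟨_, g2, hconc, I2.trans I1, fun i hi hfi => ?_, ?_⟩
  · exact N2 (2 ^ i) (by positivity) (s4 i hi).2 (N1 (2 ^ i) (by positivity) (s2 i hi).1 hfi)
  · have hsδ : √δ ^ 2 = δ := Real.sq_sqrt hδ.le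
    have hsδ0 : 0 ≤ √δ := Real.sqrt_nonneg _
    have hcF : ∫ x in Q, (chk j x - F0 j δ x) ^ 2 ≤ (2 * √δ) ^ 2 := by
      have : ∫ x in Q, (chk j x - F0 j δ x) ^ 2 = ∫ x in Q, (F0 j δ x - chk j x) ^ 2 := by
        refine integral_congr_ae (Eventually.of_forall fun x => ?_)
        simp only
        ring
      rw [this, mul_pow, hsδ]
      linarith
    have t1 := tri hf bc bF he (by positivity) hfe hcF
    have hτL : 2 * τ * (2 * 2 ^ j / δ) ^ 2 + 2 * τ * (2 * 2 ^ j / δ) ^ 2 ≤ 8 * δ ^ 2 := by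
      have e1 : (2 * (2:ℝ) ^ j / δ) ^ 2 = 4 * 4 ^ j / δ ^ 2 := by
        rw [div_pow, mul_pow, ← pow_mul, mul_comm j 2, pow_mul]
        norm_num
      rw [e1]
      have h4j : (0 : ℝ) < 4 ^ j := by positivity
      have h5 : 2 * τ * (4 * 4 ^ j / δ ^ 2) + 2 * τ * (4 * 4 ^ j / δ ^ 2) =
          (16 * 4 ^ j / δ ^ 2) * τ := by ring
      rw [h5]
      calc (16 * 4 ^ j / δ ^ 2) * τ ≤ (16 * 4 ^ j / δ ^ 2) * (δ ^ 4 / (2 * 4 ^ j)) :=
            mul_le_mul_of_nonneg_left hτ2 (by positivity)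
        _ = 8 * δ ^ 2 := by
            field_simp
            ring
    have t2 : ∫ x in Q, (g2 x - H0 j δ x) ^ 2 ≤ (e + 2 * √δ + 3 * δ) ^ 2 := by
      nlinarith
    have t3 := tri hg2 bH bc' (by positivity) (by positivity) t2
      (r2.trans (show 4 * δ ≤ (2 * √δ) ^ 2 by rw [mul_pow, hsδ]; linarith))
    refine t3.trans (le_of_eq ?_)
    ring

end Pool.Agent.Q61.AD
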