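import Pool.Agent.Q61.AD.Def

/-!
# Advection-diffusion with drifts in `L^r(0,T; L^∞)`, `r < 2`: statements of the steps
-/

set_option autoImplicit false

namespace Pool.Agent.Q61.AD

open MeasureTheory Set Filter Topology ProbabilityTheory

/-! ## Basic notions -/

/-- Bounded measurable functions on the torus. -/
def Bd (M : ℝ) (f : P → ℝ) : Prop := Measurable f ∧ Per f ∧ ∀ x, |f x| ≤ M

/-- Period `1 / n` in both variables. -/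
def PerN {α : Type*} (n : ℕ) (f : P → α) : Prop :=
  ∀ x y, f (x + 1 / n, y) = f (x, y) ∧ f (x, y + 1 / n) = f (x, y)

/-- The centred Gaussian measure with variance `2 s`. -/
noncomputable def gm (s : ℝ) : Measure ℝ := gaussianReal 0 (Real.toNNReal (2 * s))

/-- The heat semigroup `e^{s Δ}`. -/
noncomputable def A (s : ℝ) (f : P → ℝ) (x : P) : ℝ := ∫ z, f (x + z) ∂((gm s).prod (gm s))

/-- Lipschitz functions. -/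
def Lip (L : ℝ) (F : P → ℝ) : Prop :=
  ∀ x z : P, (F (x + z) - F x) ^ 2 ≤ L ^ 2 * (z.1 ^ 2 + z.2 ^ 2)

/-- Test functions with a bound for the derivatives of order at most three for `0 ≤ t ≤ R`. -/
structure TB (R C : ℝ) (Φ : ℝ → P → ℝ) : Prop extends Tst Φ where
  bd : ∀ n : ℕ, n ≤ 3 → ∀ (t : ℝ) (x : P), 0 ≤ t → t ≤ R →
    ‖iteratedFDeriv ℝ n (fun q : ℝ × P => Φ q.1 q.2) (t, x)‖ ≤ C

/-- Drifts: measurable, with a bound `β` integrable in time. -/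
structure Fld (R : ℝ) (b : ℝ → P → P) (β : ℝ → ℝ) : Prop where
  meas : Measurable (fun q : ℝ × P => b q.1 q.2)
  measβ : Measurable β
  bd : ∀ t x, ‖b t x‖ ≤ β t
  int : IntegrableOn β (Ioc 0 R)

/-- `u` is on the time interval `[a, c]` a solution with initial value `f` and final value `g`,
up to an error `η`. -/
def Ev (R M : ℝ) (b : ℝ → P → P) (a c : ℝ) (f g : P → ℝ) (u : ℝ → P → ℝ) (η : ℝ) : Prop :=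
  Measurable (fun q : ℝ × P => u q.1 q.2) ∧ (∀ t, Bd M (u t)) ∧ Bd M f ∧ Bd M g ∧
  ∀ (Φ : ℝ → P → ℝ) (C : ℝ), TB R C Φ →
    |(∫ x in Q, g x * Φ c x) - (∫ x in Q, f x * Φ a x) -
      ∫ t in a..c, ∫ x in Q, u t x * D b Φ t x| ≤ η * C

/-- Shear fields: time-independent fields whose flow is `x ↦ x + s v(x)`. -/
structure Shr (v : P → P) (V : ℝ) : Prop where
  meas : Measurable v
  per : Per v
  bd : ∀ x, ‖v x‖ ≤ V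
  inv : ∀ (s : ℝ) (x : P), v (x + s • v x) = v x
  pres : ∀ (s M : ℝ) (f : P → ℝ), Bd M f → ∫ x in Q, f (x + s • v x) = ∫ x in Q, f x

/-- One step of the splitting scheme: transport for the time `s`, then heat flow for the time
`s`. -/
noncomputable def stp (v : P → P) (s : ℝ) (f : P → ℝ) : P → ℝ := A s (fun x => f (x - s • v x))

/-- `n` steps. -/
noncomputable def itr (v : P → P) (s : ℝ) (f : P → ℝ) (n : ℕ) : P → ℝ := (stp v s)^[n] f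

/-- The piecewise constant evolution. -/
noncomputable def evo (v : P → P) (s a : ℝ) (f : P → ℝ) (N : ℕ) (t : ℝ) : P → ℝ :=
  itr v s f (min N ⌊(t - a) / s⌋₊)

/-! ## The heat semigroup -/

def S_A1 : Prop := ∀ (s M : ℝ) (f : P → ℝ), 0 < s → Bd M f → Bd M (A s f)

def S_A2 : Prop := ∀ (s M M' : ℝ) (f g : P → ℝ), 0 < s → Bd M f → Bd M' g →
  ∫ x in Q, A s f x * g x = ∫ x in Q, f x * A s g x

def S_A3 : Prop := ∀ (s t M : ℝ) (f : P → ℝ), 0 < s → 0 < t → Bd M f →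
  A s (A t f) = A (s + t) f

def S_A4 : Prop := ∀ (s M M' L : ℝ) (f F : P → ℝ), 0 < s → Bd M f → Bd M' F → 0 ≤ L →
  Lip L F → ∫ x in Q, (A s f x - F x) ^ 2 ≤ (∫ x in Q, (f x - F x) ^ 2) + 2 * s * L ^ 2

def S_A5 : Prop := ∀ (n : ℕ) (s M : ℝ) (f : P → ℝ), 0 < n → 2 / (n : ℝ) ^ 2 ≤ s → Bd M f →
  PerN n f → ∫ x in Q, f x = 0 → ∀ x, |A s f x| ≤ M / 8

def S_A6 : Prop := ∀ (s M : ℝ) (f : P → ℝ), 0 < s → Bd M f →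
  (∫ x in Q, A s f x = ∫ x in Q, f x) ∧ ∀ n : ℕ, 0 < n → PerN n f → PerN n (A s f)

/-! ## Test functions -/

def S_TBX : Prop := ∀ (R : ℝ) (Φ : ℝ → P → ℝ), Tst Φ → ∃ C, 0 ≤ C ∧ TB R C Φ

def S_TBD : Prop := ∀ (R C : ℝ) (Φ : ℝ → P → ℝ), TB R C Φ →
  (Continuous (fun q : ℝ × P => Φ q.1 q.2) ∧ Continuous (fun q : ℝ × P => dt Φ q.1 q.2) ∧
    Continuous (fun q : ℝ × P => dx (Φ q.1) q.2) ∧
    Continuous (fun q : ℝ × P => dy (Φ q.1) q.2) ∧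
    Continuous (fun q : ℝ × P => lap (Φ q.1) q.2)) ∧
  ∀ (t : ℝ) (x : P), 0 ≤ t → t ≤ R → |Φ t x| ≤ C ∧ |dt Φ t x| ≤ C ∧ |dx (Φ t) x| ≤ C ∧
    |dy (Φ t) x| ≤ C ∧ |lap (Φ t) x| ≤ 2 * C

def S_CON : Prop := ∃ K : ℝ, 0 ≤ K ∧ ∀ (R C : ℝ) (Φ : ℝ → P → ℝ), TB R C Φ →
  ∀ (t s V : ℝ) (w x : P), 0 ≤ t → 0 < s → s ≤ 1 → t + s ≤ R → ‖w‖ ≤ V →
    |(∫ z, Φ (t + s) (x + s • w + z) ∂((gm s).prod (gm s))) - Φ t x -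
      ∫ θ in (0 : ℝ)..s, (dt Φ (t + θ) x + w.1 * dx (Φ (t + θ)) x + w.2 * dy (Φ (t + θ)) x +
        lap (Φ (t + θ)) x)| ≤ K * C * (1 + V) ^ 3 * (s * √s)

/-! ## The splitting scheme -/

def S_IT1 : Prop := ∀ (s M V : ℝ) (v : P → P) (f : P → ℝ), 0 < s → Shr v V → Bd M f →
  ∀ n : ℕ, Bd M (itr v s f n) ∧ (∫ x in Q, itr v s f n x = ∫ x in Q, f x) ∧
    (∀ i : ℕ, 0 < i → PerN i v → PerN i f → PerN i (itr v s f n)) ∧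
    ∀ (F : P → ℝ) (L : ℝ), 0 ≤ L → Bd 1 F →
      (∀ θ ∈ Icc (0 : ℝ) (n * s), Lip L (fun x => F (x - θ • v x))) →
      ∫ x in Q, (itr v s f n x - F (x - (n * s : ℝ) • v x)) ^ 2 ≤
        (∫ x in Q, (f x - F x) ^ 2) + 2 * (n * s) * L ^ 2

def S_IT2 : Prop := ∀ (s M : ℝ) (f : P → ℝ), 0 < s → Bd M f →
  ∀ n : ℕ, 0 < n → itr (fun _ => 0) s f n = A (n * s) f

def S_IT3 : Prop := ∃ K : ℝ, 0 ≤ K ∧
  ∀ (R M a τ V : ℝ) (b : ℝ → P → P) (v : P → P) (f : P → ℝ) (N : ℕ), Shr v V → 0 ≤ a →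
    0 < τ → a + τ ≤ R → (∀ t ∈ Ico a (a + τ), ∀ x, b t x = v x) → 0 ≤ M → Bd M f → 0 < N →
    τ / N ≤ 1 → Ev R M b a (a + τ) f (itr v (τ / N) f N) (evo v (τ / N) a f N)
      (K * M * (1 + V) ^ 3 * τ * √(τ / N))

def S_SEG : Prop :=
  ∀ (R M a τ V ε : ℝ) (b : ℝ → P → P) (v : P → P) (f : P → ℝ), Shr v V → 0 ≤ a →
    0 < τ → a + τ ≤ R → (∀ t ∈ Ico a (a + τ), ∀ x, b t x = v x) → 0 ≤ M → Bd M f → 0 < ε →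
    ∃ (u : ℝ → P → ℝ) (g : P → ℝ), Ev R M b a (a + τ) f g u ε ∧
      (∫ x in Q, g x = ∫ x in Q, f x) ∧
      (∀ i : ℕ, 0 < i → PerN i v → PerN i f → PerN i g) ∧
      ∀ (F : P → ℝ) (L : ℝ), 0 ≤ L → Bd 1 F →
        (∀ θ ∈ Icc (0 : ℝ) τ, Lip L (fun x => F (x - θ • v x))) →
        ∫ x in Q, (g x - F (x - τ • v x)) ^ 2 ≤ (∫ x in Q, (f x - F x) ^ 2) + 2 * τ * L ^ 2

def S_HT : Prop :=
  ∀ (R M a τ ε : ℝ) (b : ℝ → P → P) (f : P → ℝ), 0 ≤ a → 0 < τ → a + τ ≤ R →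
    (∀ t ∈ Ico a (a + τ), ∀ x, b t x = 0) → 0 ≤ M → Bd M f → 0 < ε →
    ∃ u : ℝ → P → ℝ, Ev R M b a (a + τ) f (A τ f) u ε ∧
      ∀ (F : P → ℝ) (L : ℝ), 0 ≤ L → Bd 1 F → Lip L F → ∀ t ∈ Ico a (a + τ),
        ∫ x in Q, (u t x - F x) ^ 2 ≤ (∫ x in Q, (f x - F x) ^ 2) + 2 * (t - a) * L ^ 2

def S_CONC : Prop := ∀ (R M a c d η₁ η₂ : ℝ) (b : ℝ → P → P) (β : ℝ → ℝ) (f g h : P → ℝ)
  (u₁ u₂ : ℝ → P → ℝ), Fld R b β → 0 ≤ a → a ≤ c → c ≤ d → d ≤ R →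
  Ev R M b a c f g u₁ η₁ → Ev R M b c d g h u₂ η₂ →
  Ev R M b a d f h (fun t => if t < c then u₁ t else u₂ t) (η₁ + η₂)

def S_FRZ : Prop := ∀ (R m a c : ℝ) (b : ℝ → P → P) (β : ℝ → ℝ) (f : P → ℝ), Fld R b β →
  0 ≤ a → a ≤ c → c ≤ R → Bd m f →
  Ev R m b a c f f (fun _ => f) (m * (4 * (c - a) + 2 * ∫ t in a..c, β t))

def S_MON : Prop := ∀ (R m M a c η η' : ℝ) (b : ℝ → P → P) (f g : P → ℝ) (u : ℝ → P → ℝ),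
  0 ≤ R → m ≤ M → η ≤ η' → Ev R m b a c f g u η → Ev R M b a c f g u η'

/-! ## Patterns and shear fields -/

/-- Distance to the integers. -/
noncomputable def dZ (x : ℝ) : ℝ := |x - round x|

/-- `(-1)^n`. -/
noncomputable def pm (n : ℤ) : ℝ := if Even n then 1 else -1

/-- The rows (or columns) that are moved. -/
noncomputable def chi (n : ℤ) : ℝ := if n % 4 = 1 ∨ n % 4 = 2 then 1 else 0

/-- A trapezoidal wave of period two. -/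
noncomputable def wav (δ x : ℝ) : ℝ := pm ⌊x⌋ * min 1 (dZ x / δ)

/-- The checkerboard with cells of size `2⁻ʲ`. -/
noncomputable def chk (j : ℕ) (x : P) : ℝ := pm (⌊2 ^ j * x.1⌋ + ⌊2 ^ j * x.2⌋)

/-- The Lipschitz checkerboard. -/
noncomputable def F0 (j : ℕ) (δ : ℝ) (x : P) : ℝ := wav δ (2 ^ j * x.1) * wav δ (2 ^ j * x.2)

/-- The pattern after the movement of the rows. -/
noncomputable def G0 (j : ℕ) (δ : ℝ) (x : P) : ℝ := (1 - 2 * chi ⌊2 ^ j * x.2⌋) * F0 j δ x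

/-- The pattern after the movement of the columns. -/
noncomputable def H0 (j : ℕ) (δ : ℝ) (x : P) : ℝ := (1 - 2 * chi ⌊2 ^ j * x.1⌋) * G0 j δ x

/-- The horizontal shear. -/
noncomputable def vh (j : ℕ) (V : ℝ) (x : P) : P := (V * chi ⌊2 ^ j * x.2⌋, 0)

/-- The vertical shear. -/
noncomputable def vv (j : ℕ) (V : ℝ) (x : P) : P := (0, V * chi ⌊2 ^ j * x.1⌋)

def S_P1 : Prop := ∀ (j : ℕ) (δ : ℝ), 0 < δ → δ ≤ 1 / 2 →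
  (∀ θ V : ℝ, Lip (2 * 2 ^ j / δ) (fun x => F0 j δ (x - θ • vh j V x))) ∧
  ∀ θ V : ℝ, Lip (2 * 2 ^ j / δ) (fun x => G0 j δ (x - θ • vv j V x))

def S_P2 : Prop := ∀ (j : ℕ) (δ : ℝ), 0 < δ → δ ≤ 1 / 2 →
  (∀ θ V : ℝ, θ * V = 1 / 2 ^ j → ∀ x, F0 j δ (x - θ • vh j V x) = G0 j δ x) ∧
  ∀ θ V : ℝ, θ * V = 2 / 2 ^ j → ∀ x, G0 j δ (x - θ • vv j V x) = H0 j δ x

def S_P3 : Prop := ∀ (j : ℕ) (δ : ℝ), 1 ≤ j → 0 < δ → δ ≤ 1 / 2 →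
  Bd 1 (F0 j δ) ∧ Bd 1 (chk j) ∧ (2 ≤ j → Bd 1 (G0 j δ) ∧ Bd 1 (H0 j δ)) ∧
  (∫ x in Q, chk j x = 0) ∧ ∀ i : ℕ, i + 1 ≤ j → PerN (2 ^ i) (chk j)

def S_P4 : Prop := ∀ (j : ℕ) (δ : ℝ), 1 ≤ j → 0 < δ → δ ≤ 1 / 2 →
  (∫ x in Q, (F0 j δ x - chk j x) ^ 2 ≤ 4 * δ) ∧
  (2 ≤ j → ∫ x in Q, (H0 j δ x - chk (j - 1) x) ^ 2 ≤ 4 * δ)

def S_SH : Prop := ∀ (j : ℕ) (V : ℝ), 2 ≤ j → 0 ≤ V →
  Shr (vh j V) V ∧ Shr (vv j V) V ∧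
  ∀ i : ℕ, i + 2 ≤ j → PerN (2 ^ i) (vh j V) ∧ PerN (2 ^ i) (vv j V)

def S_JMP : Prop := ∀ (j : ℕ) (R M c : ℝ) (b : ℝ → P → P) (f : P → ℝ) (u : ℝ → P → ℝ),
  1 ≤ j → 0 ≤ c → c ≤ R → Measurable (fun q : ℝ × P => u q.1 q.2) → (∀ t, Bd M (u t)) →
  Bd M f → Bd M (fun x => f x + chk j x) →
  Ev R M b c c f (fun x => f x + chk j x) u (1 / 2 ^ j)

def S_STG : Prop := ∀ (R M a τ δ e ε : ℝ) (j : ℕ) (b : ℝ → P → P) (β : ℝ → ℝ) (f : P → ℝ),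
  Fld R b β → 2 ≤ j → 0 < δ → δ ≤ 1 / 2 → 0 ≤ a → 0 < τ → τ ≤ δ ^ 4 / (2 * 4 ^ j) →
  a + 2 * τ ≤ R → (∀ t ∈ Ico a (a + τ), ∀ x, b t x = vh j (1 / (2 ^ j * τ)) x) →
  (∀ t ∈ Ico (a + τ) (a + 2 * τ), ∀ x, b t x = vv j (2 * (1 / (2 ^ j * τ))) x) →
  0 ≤ M → Bd M f → 0 ≤ e → ∫ x in Q, (f x - chk j x) ^ 2 ≤ e ^ 2 → 0 < ε →
  ∃ (u : ℝ → P → ℝ) (g : P → ℝ), Ev R M b a (a + 2 * τ) f g u ε ∧
    (∫ x in Q, g x = ∫ x in Q, f x) ∧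
    (∀ i : ℕ, i + 2 ≤ j → PerN (2 ^ i) f → PerN (2 ^ i) g) ∧
    ∫ x in Q, (g x - chk (j - 1) x) ^ 2 ≤ (e + 4 * √δ + 3 * δ) ^ 2

/-! ## The drift -/

/-- The relative width of the cracks in stage `m`. -/
noncomputable def del (m : ℕ) : ℝ := 1 / (6400 * ((m : ℝ) + 1) ^ 4)

/-- In block `k`, stage `m` ends at the time `st R k + sgk k m`. -/
noncomputable def sgk (k m : ℕ) : ℝ := del m ^ 4 / 4 ^ (k + m)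

/-- Half the duration of stage `m` of block `k`. -/
noncomputable def tau (k m : ℕ) : ℝ := (sgk k m - sgk k (m + 1)) / 2

/-- The time at which block `k` starts. -/
noncomputable def st (R : ℝ) (k : ℕ) : ℝ := R / 4 ^ k

/-- The speed in stage `m` of block `k`. -/
noncomputable def spd (k m : ℕ) : ℝ := 1 / (2 ^ (k + m) * tau k m)

/-- The drift during stage `m` of block `k`. -/
noncomputable def pce (R : ℝ) (k m : ℕ) (t : ℝ) (x : P) : P :=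
  if st R k + sgk k (m + 1) ≤ t ∧ t < st R k + sgk k (m + 1) + tau k m then
    vh (k + m) (spd k m) x
  else if st R k + sgk k (m + 1) + tau k m ≤ t ∧ t < st R k + sgk k m then
    vv (k + m) (2 * spd k m) x
  else 0

/-- The drift. -/
noncomputable def fb (R : ℝ) (t : ℝ) (x : P) : P :=
  ∑' i : ℕ × ℕ, pce R (i.1 + 1) (i.2 + 1) t x

/-- The bound for the drift. -/
noncomputable def bt (R : ℝ) (t : ℝ) : ℝ :=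
  ∑' i : ℕ × ℕ, if st R (i.1 + 1) + sgk (i.1 + 1) (i.2 + 2) ≤ t ∧
    t < st R (i.1 + 1) + sgk (i.1 + 1) (i.2 + 1) then 2 * spd (i.1 + 1) (i.2 + 1) else 0

def S_B0 : Prop := (∀ m : ℕ, 0 < del m ∧ del m ≤ 1 / 6400) ∧
  (∀ k m : ℕ, 0 < sgk k m ∧ sgk k (m + 1) ≤ sgk k m / 4 ∧ sgk k m ≤ 1 / 4 ^ (k + m) ∧
    0 < tau k m ∧ 3 / 8 * sgk k m ≤ tau k m ∧ tau k m ≤ del m ^ 4 / (2 * 4 ^ (k + m)) ∧
    0 < spd k m) ∧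
  ∀ (R : ℝ) (k : ℕ), 4 ≤ R → 0 < st R (k + 1) ∧
    st R (k + 1) + sgk (k + 1) 1 + 8 / 4 ^ (k + 1) ≤ st R k

def S_B1 : Prop := ∀ (R : ℝ), 4 ≤ R →
  (∀ k m : ℕ, 1 ≤ k → 1 ≤ m →
    (∀ t ∈ Ico (st R k + sgk k (m + 1)) (st R k + sgk k (m + 1) + tau k m), ∀ x,
      fb R t x = vh (k + m) (spd k m) x) ∧
    (∀ t ∈ Ico (st R k + sgk k (m + 1) + tau k m) (st R k + sgk k m), ∀ x,
      fb R t x = vv (k + m) (2 * spd k m) x) ∧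
    ∀ t ∈ Ico (st R k + sgk k (m + 1)) (st R k + sgk k m), bt R t = 2 * spd k m) ∧
  (∀ k : ℕ, 1 ≤ k → ∀ t ∈ Ico (st R k + sgk k 1) (st R (k - 1)),
    (∀ x, fb R t x = 0) ∧ bt R t = 0) ∧
  ∀ t, (∀ k m : ℕ, 1 ≤ k → 1 ≤ m →
    t ∉ Ico (st R k + sgk k (m + 1)) (st R k + sgk k m)) → (∀ x, fb R t x = 0) ∧ bt R t = 0

def S_B2a : Prop := ∀ (R : ℝ), 4 ≤ R → Measurable (fun q : ℝ × P => fb R q.1 q.2) ∧
  Measurable (bt R) ∧ (∀ t x, ‖fb R t x‖ ≤ bt R t) ∧ ∀ t, 0 ≤ bt R t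

def S_B2b : Prop := ∀ (R r : ℝ), 4 ≤ R → 1 ≤ r → r < 2 →
  IntegrableOn (fun t => bt R t ^ r) (Ioc 0 R)

def S_B2c : Prop := ∀ (R : ℝ) (k K : ℕ), 4 ≤ R → 1 ≤ k →
  ∫ t in (st R k)..(st R k + sgk k (K + 1)), bt R t ≤ 4 / 2 ^ (k + K)

def S_B2 : Prop := ∀ (R : ℝ), 4 ≤ R → Fld R (fb R) (bt R) ∧ (∀ t, 0 ≤ bt R t) ∧
  (∀ r : ℝ, 1 ≤ r → r < 2 → IntegrableOn (fun t => bt R t ^ r) (Ioc 0 R)) ∧
  ∀ k K : ℕ, 1 ≤ k → ∫ t in (st R k)..(st R k + sgk k (K + 1)), bt R t ≤ 4 / 2 ^ (k + K)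

theorem b2_of (h1 : S_B2a) (h2 : S_B2b) (h3 : S_B2c) : S_B2 := by
  intro R hR
  obtain ⟨a1, a2, a3, a4⟩ := h1 R hR
  refine ⟨⟨a1, a2, a3, ?_⟩, a4, fun r hr hr' => h2 R r hR hr hr', fun k K hk => h3 R k K hR hk⟩
  have := h2 R 1 hR le_rfl (by norm_num)
  simpa using this

def S_B3 : Prop := ∀ (R : ℝ), 4 ≤ R → (∀ t, Per (fb R t)) ∧
  ∀ (t : ℝ) (ψ : P → ℝ), ContDiff ℝ (⊤ : ℕ∞) ψ → Per ψ →
    ∫ x in Q, ((fb R t x).1 * dx ψ x + (fb R t x).2 * dy ψ x) = 0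

/-! ## Cascades, blocks and approximate solutions -/

def S_CAS : Prop := ∀ (R ε : ℝ) (k K : ℕ) (f : P → ℝ), 4 ≤ R → 1 ≤ k → 0 < ε →
  Bd (8 / 7) f → ∫ x in Q, (f x - chk (k + K) x) ^ 2 ≤ (1 / 7) ^ 2 →
  ∃ (u : ℝ → P → ℝ) (g : P → ℝ),
    Ev R (8 / 7) (fb R) (st R k + sgk k (K + 1)) (st R k + sgk k 1) f g u ε ∧
    (∫ x in Q, g x = ∫ x in Q, f x) ∧ (PerN (2 ^ (k - 1)) f → PerN (2 ^ (k - 1)) g) ∧
    ∫ x in Q, (g x - chk k x) ^ 2 ≤ (15 / 56) ^ 2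

def S_BLK : Prop := ∀ (R : ℝ) (k K : ℕ) (U : P → ℝ), 4 ≤ R → 1 ≤ k → 1 ≤ K → Bd (1 / 7) U →
  ∫ x in Q, U x = 0 → PerN (2 ^ k) U →
  ∃ (u : ℝ → P → ℝ) (U' : P → ℝ), Bd (1 / 7) U' ∧ (∫ x in Q, U' x = 0) ∧
    PerN (2 ^ (k - 1)) U' ∧
    Ev R (8 / 7) (fb R) (st R k) (st R (k - 1)) U U' u (4 / 2 ^ (k + K)) ∧
    ∀ t ∈ Ico (st R k + sgk k 1) (st R k + sgk k 1 + 1 / (10 ^ 9 * 4 ^ k)),
      ∫ x in Q, (u t x - chk k x) ^ 2 ≤ (41 / 100) ^ 2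

def S_APP : Prop := ∀ (R : ℝ) (K : ℕ), 4 ≤ R → 1 ≤ K →
  ∃ (u : ℝ → P → ℝ) (g : P → ℝ), Ev R (8 / 7) (fb R) 0 R (fun _ => 0) g u (4 / 2 ^ K) ∧
    ∀ k : ℕ, 1 ≤ k → k ≤ K →
      ∀ t ∈ Ico (st R k + sgk k 1) (st R k + sgk k 1 + 1 / (10 ^ 9 * 4 ^ k)),
        ∫ x in Q, (u t x - chk k x) ^ 2 ≤ (41 / 100) ^ 2

/-! ## The limit -/

def S_WL : Prop := ∀ (α : Type) [MeasurableSpace α] (μ : Measure α) [IsFiniteMeasure μ]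
  (M : ℝ) (w : ℕ → α → ℝ), (∀ n, Measurable (w n)) → (∀ n x, |w n x| ≤ M) →
  ∃ (𝒰 : Ultrafilter ℕ) (u : α → ℝ), (𝒰 : Filter ℕ) ≤ atTop ∧ Measurable u ∧
    (∀ x, |u x| ≤ M) ∧ ∀ ψ : α → ℝ, Integrable ψ μ →
      Tendsto (fun n => ∫ x, w n x * ψ x ∂μ) 𝒰 (𝓝 (∫ x, u x * ψ x ∂μ))

/-- The smooth pattern. -/
noncomputable def phi (k : ℕ) (x : P) : ℝ :=
  Real.sin (Real.pi * 2 ^ k * x.1) * Real.sin (Real.pi * 2 ^ k * x.2)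

def S_COR : Prop := ∀ (k : ℕ), 1 ≤ k →
  (∫ x in Q, chk k x * phi k x = (2 / Real.pi) ^ 2) ∧ (∫ x in Q, phi k x ^ 2 = 1 / 4) ∧
  ∀ (M : ℝ) (w : P → ℝ), Bd M w → ∫ x in Q, (w x - chk k x) ^ 2 ≤ (41 / 100) ^ 2 →
    3 / 20 ≤ ∫ x in Q, w x * phi k x

def S_LIM : Prop := ∀ (R : ℝ), 4 ≤ R → ∃ u : ℝ → P → ℝ,
  Measurable (fun q : ℝ × P => u q.1 q.2) ∧ (∀ t, Per (u t)) ∧ (∀ t x, |u t x| ≤ 8 / 7) ∧
  (∀ (Φ : ℝ → P → ℝ), Tst Φ → (∀ x, Φ R x = 0) →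
    ∫ t in (0 : ℝ)..R, ∫ x in Q, u t x * D (fb R) Φ t x = 0) ∧
  ∀ k : ℕ, 1 ≤ k → 3 / 20 * (1 / (10 ^ 9 * 4 ^ k)) ≤
    ∫ t in (st R k + sgk k 1)..(st R k + sgk k 1 + 1 / (10 ^ 9 * 4 ^ k)),
      ∫ x in Q, u t x * phi k x

/-- `(G₁, G₂)` is the weak gradient of `w` on the torus. -/
def WGrad (w G₁ G₂ : P → ℝ) : Prop := ∀ ψ : P → ℝ, ContDiff ℝ (⊤ : ℕ∞) ψ → Per ψ →
  (∫ x in Q, w x * dx ψ x = - ∫ x in Q, G₁ x * ψ x) ∧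
  ∫ x in Q, w x * dy ψ x = - ∫ x in Q, G₂ x * ψ x

def S_NP : Prop := ∀ (R T : ℝ) (u : ℝ → P → ℝ), 4 ≤ R → 0 < T → T ≤ R →
  Measurable (fun q : ℝ × P => u q.1 q.2) → (∀ t x, |u t x| ≤ 8 / 7) →
  (∀ k : ℕ, 1 ≤ k → 3 / 20 * (1 / (10 ^ 9 * 4 ^ k)) ≤
    ∫ t in (st R k + sgk k 1)..(st R k + sgk k 1 + 1 / (10 ^ 9 * 4 ^ k)),
      ∫ x in Q, u t x * phi k x) →
  ∀ G₁ G₂ : ℝ → P → ℝ, Measurable (fun q : ℝ × P => G₁ q.1 q.2) →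
    Measurable (fun q : ℝ × P => G₂ q.1 q.2) →
    (∀ᵐ t ∂(volume.restrict (Ioo 0 T)), WGrad (u t) (G₁ t) (G₂ t)) →
    ∫⁻ t in Ioo 0 T, ∫⁻ x in Q, ENNReal.ofReal (G₁ t x ^ 2 + G₂ t x ^ 2) = ⊤

end Pool.Agent.Q61.AD
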